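import Pool.Agent.PTate.LinDefs

/-!
# Graded Lie algebras generated by families of symmetric operators: definitions
-/

set_option autoImplicit false

noncomputable section

namespace Pool.Agent.PTateU

open Pool.Agent.PTate (Ty Adj)

open scoped Classical

variable {F : Type} [Field F] {σ : Type} {V : σ → Type} [∀ s, AddCommGroup (V s)]
  [∀ s, Module F (V s)]

/-- The graded Lie algebra generated by the elements of `A` in degree one. -/
inductive Gen (A : Set (∀ s, Module.End F (V s))) : ℕ → (∀ s, Module.End F (V s)) → Prop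
  | mem (X : ∀ s, Module.End F (V s)) : X ∈ A → Gen A 1 X
  | zero (n : ℕ) : Gen A (n + 1) 0
  | add (n : ℕ) (X Y : ∀ s, Module.End F (V s)) : Gen A n X → Gen A n Y → Gen A n (X + Y)
  | smul (n : ℕ) (c : F) (X : ∀ s, Module.End F (V s)) : Gen A n X → Gen A n (c • X)
  | lie (n k : ℕ) (X Y : ∀ s, Module.End F (V s)) : Gen A n X → Gen A k Y →
      Gen A (n + k) (X * Y - Y * X)

/-- Symmetric operators on several spaces such that the graded Lie algebra they generate is large
on every space and separates the spaces. -/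
structure LinG (B : ∀ s, V s →ₗ[F] V s →ₗ[F] F) (A : Set (∀ s, Module.End F (V s))) : Prop where
  fin : ∀ s, Module.Finite F (V s)
  bsymm : ∀ s x y, B s x y = B s y x
  adj : ∀ s a, ∃ a', Adj (B s) a a' ∧ LinearMap.trace F (V s) a' = LinearMap.trace F (V s) a
  uniq : ∀ s a a' a'', Adj (B s) a a' → Adj (B s) a a'' → a' = a''
  sym : ∀ X ∈ A, ∀ s, Ty (B s) 1 (X s)
  single : ∀ s, ∃ k₀, ∀ k, k₀ ≤ k → ∀ a, Ty (B s) k a → LinearMap.trace F (V s) a = 0 →
    ∃ X, Gen A k X ∧ X s = a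
  sep : ∀ s t, s ≠ t → 2 ≤ Module.finrank F (V s) → 2 ≤ Module.finrank F (V t) →
    (∃ n X, Gen A n X ∧ X t = 0 ∧ ¬ ∃ c : F, X s = c • 1) ∨
      ∃ n X, Gen A n X ∧ X s = 0 ∧ ¬ ∃ c : F, X t = c • 1

/-- The components at `s` of the elements of the graded Lie algebra which vanish at the elements of
`R`, in all large degrees. -/
def FS (B : ∀ s, V s →ₗ[F] V s →ₗ[F] F) (A : Set (∀ s, Module.End F (V s))) (s : σ)
    (R : Set σ) : Submodule F (Module.End F (V s)) where
  carrier := {a | ∃ a', Adj (B s) a a' ∧ ∃ k₀, ∀ k, k₀ ≤ k → ∃ X, Gen A k X ∧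
    X s = a - (-1 : F) ^ k • a' ∧ ∀ t ∈ R, X t = 0}
  add_mem' := by
    rintro a b ⟨a', ha, k₀, h⟩ ⟨b', hb, k₁, g⟩
    refine ⟨a' + b', fun x y => ?_, max k₀ k₁, fun k hk => ?_⟩
    · simp only [LinearMap.add_apply, map_add, ha x y, hb x y]
    · obtain ⟨X, h1, h2, h3⟩ := h k (le_of_max_le_left hk)
      obtain ⟨Y, g1, g2, g3⟩ := g k (le_of_max_le_right hk)
      refine ⟨X + Y, .add k X Y h1 g1, ?_, fun t ht => ?_⟩
      · rw [Pi.add_apply, h2, g2, smul_add]; abel
      · rw [Pi.add_apply, h3 t ht, g3 t ht, add_zero]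
  zero_mem' := ⟨0, fun x y => by simp, 1, fun k hk => ⟨0, by
    obtain ⟨n, rfl⟩ := Nat.exists_eq_add_of_le' hk
    exact .zero n, by simp, fun _ _ => rfl⟩⟩
  smul_mem' := by
    rintro c a ⟨a', ha, k₀, h⟩
    refine ⟨c • a', fun x y => ?_, k₀, fun k hk => ?_⟩
    · simp only [LinearMap.smul_apply, map_smul, ha x y]
    · obtain ⟨X, h1, h2, h3⟩ := h k hk
      refine ⟨c • X, .smul k c X h1, ?_, fun t ht => ?_⟩
      · rw [Pi.smul_apply, h2, smul_sub, smul_comm]
      · rw [Pi.smul_apply, h3 t ht, smul_zero]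

end Pool.Agent.PTateU
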