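import Pool.Agent.PTate.SlIdeal
import Pool.Agent.PTateU.Gen

/-!
# Graded Lie algebras in products: closure properties
-/

set_option autoImplicit false

noncomputable section

namespace Pool.Agent.PTateU

open Pool.Agent.PTate (Ty Adj sl_ideal sl_perfect sl_line)

open scoped Classical

section One

variable {F : Type} [Field F] {V : Type} [AddCommGroup V] [Module F V]
  {B : V →ₗ[F] V →ₗ[F] F}

theorem adj_symm (hB : ∀ x y, B x y = B y x) {X X' : Module.End F V}
    (h : Adj B X X') : Adj B X' X := fun x y => by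
  rw [hB (X' x) y, ← h y x, hB]

theorem adj_sub {X X' Y Y' : Module.End F V} (hX : Adj B X X')
    (hY : Adj B Y Y') : Adj B (X - Y) (X' - Y') := fun x y => by
  rw [LinearMap.sub_apply, LinearMap.sub_apply, map_sub, map_sub, LinearMap.sub_apply, hX, hY]

theorem adj_mul {X X' Y Y' : Module.End F V} (hX : Adj B X X')
    (hY : Adj B Y Y') : Adj B (X * Y) (Y' * X') := fun x y => by
  rw [Module.End.mul_apply, Module.End.mul_apply, hX, hY]

theorem adj_lie {X X' Y Y' : Module.End F V} (hX : Adj B X X')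
    (hY : Adj B Y Y') : Adj B (X * Y - Y * X) (Y' * X' - X' * Y') :=
  adj_sub (adj_mul hX hY) (adj_mul hY hX)

/-- the parts of an operator -/
theorem adj_ty (hB : ∀ x y, B x y = B y x) {X X' : Module.End F V} (h : Adj B X X')
    (k : ℕ) : Ty B k (X - (-1 : F) ^ k • X') := by
  intro x y
  have h1 := h x y
  have h2 := adj_symm hB h x y
  have h3 : (-1 : F) ^ k * (-1 : F) ^ k = 1 := by
    rw [← mul_pow]
    simp
  simp only [LinearMap.sub_apply, LinearMap.smul_apply, map_sub, map_smul, smul_eq_mul]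
  rw [h1, h2, pow_succ]
  linear_combination (-B x (X' y)) * h3

theorem ty_adj {k : ℕ} {X : Module.End F V} (h : Ty B k X) :
    Adj B X ((-1 : F) ^ (k + 1) • X) := fun x y => by
  rw [LinearMap.smul_apply, map_smul, smul_eq_mul]
  exact h x y

end One

variable {F : Type} [Field F] {σ : Type} {V : σ → Type} [∀ s, AddCommGroup (V s)]
  [∀ s, Module F (V s)] {B : ∀ s, V s →ₗ[F] V s →ₗ[F] F} {A : Set (∀ s, Module.End F (V s))}

theorem Gen.pos {n : ℕ} {X : ∀ s, Module.End F (V s)} (hX : Gen A n X) : 1 ≤ n := by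
  induction hX with
  | mem X _ => exact le_rfl
  | zero n => exact Nat.succ_le_succ (Nat.zero_le n)
  | add n X Y _ _ ih _ => exact ih
  | smul n c X _ ih => exact ih
  | lie n k X Y _ _ ih _ => exact le_trans ih (Nat.le_add_right n k)

theorem Gen.ty (h : LinG B A) {n : ℕ} {X : ∀ s, Module.End F (V s)}
    (hX : Gen A n X) (s : σ) : Ty (B s) n (X s) := by
  induction hX with
  | mem X hX => exact h.sym X hX s
  | zero n =>
    intro x y
    simp
  | add n X Y _ _ ih ih' =>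
    intro x y
    simp only [Pi.add_apply, LinearMap.add_apply, map_add, ih x y, ih' x y]
    ring
  | smul n c X _ ih =>
    intro x y
    simp only [Pi.smul_apply, LinearMap.smul_apply, map_smul, smul_eq_mul, ih x y]
    ring
  | lie n k X Y _ _ ih ih' =>
    intro x y
    simp only [Pi.sub_apply, Pi.mul_apply, LinearMap.sub_apply, Module.End.mul_apply, map_sub]
    rw [ih (Y s x) y, ih' x (X s y), ih' (X s x) y, ih x (Y s y)]
    ring

theorem Gen.trace {n : ℕ} (hn : 2 ≤ n) {X : ∀ s, Module.End F (V s)}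
    (hX : Gen A n X) (s : σ) : LinearMap.trace F (V s) (X s) = 0 := by
  induction hX with
  | mem X _ => omega
  | zero n => simp
  | add n X Y _ _ ih ih' => rw [Pi.add_apply, map_add, ih hn, ih' hn, add_zero]
  | smul n c X _ ih => rw [Pi.smul_apply, map_smul, ih hn, smul_zero]
  | lie n k X Y _ _ _ _ =>
    rw [Pi.sub_apply, Pi.mul_apply, Pi.mul_apply, map_sub, LinearMap.trace_mul_comm, sub_self]

theorem Gen.sub {n : ℕ} {X Y : ∀ s, Module.End F (V s)}
    (hX : Gen A n X) (hY : Gen A n Y) : Gen A n (X - Y) := by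
  have e : X - Y = X + (-1 : F) • Y := by
    rw [neg_one_smul, sub_eq_add_neg]
  rw [e]
  exact .add n X _ hX (.smul n (-1) Y hY)

theorem LinG.adj_trace (h : LinG B A) {s : σ} {a a' : Module.End F (V s)}
    (ha : Adj (B s) a a') : LinearMap.trace F (V s) a' = LinearMap.trace F (V s) a := by
  obtain ⟨a'', h1, h2⟩ := h.adj s a
  rw [h.uniq s a a' a'' ha h1, h2]

/-- the projection to one component -/
theorem FS.empty (h : LinG B A) (s : σ) (a : Module.End F (V s))
    (ha : LinearMap.trace F (V s) a = 0) : a ∈ FS B A s ∅ := by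
  obtain ⟨a', ha', hta⟩ := h.adj s a
  obtain ⟨k₀, hk₀⟩ := h.single s
  refine ⟨a', ha', k₀, fun k hk => ?_⟩
  obtain ⟨X, hX, h1⟩ := hk₀ k hk _ (adj_ty (h.bsymm s) ha' k) (by
    rw [map_sub, map_smul, hta, ha, smul_zero, sub_zero])
  exact ⟨X, hX, h1, fun t ht => absurd ht (Set.notMem_empty t)⟩

theorem FS.lie (h2 : (2 : F) ≠ 0) {s : σ} {R R' : Set σ} {a b : Module.End F (V s)}
    (ha : a ∈ FS B A s R) (hb : b ∈ FS B A s R') :
    a * b - b * a ∈ FS B A s (R ∪ R') := by
  obtain ⟨a', ha', k₀, hk₀⟩ := ha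
  obtain ⟨b', hb', k₁, hk₁⟩ := hb
  refine ⟨b' * a' - a' * b', adj_lie ha' hb', k₀ + k₁ + 1, fun n hn => ?_⟩
  obtain ⟨l, rfl⟩ : ∃ l, n = k₀ + (l + 1) := ⟨n - k₀ - 1, by omega⟩
  obtain ⟨X, hX, hXs, hX0⟩ := hk₀ k₀ le_rfl
  obtain ⟨X₁, hX₁, hX₁s, hX₁0⟩ := hk₀ (k₀ + 1) (by omega)
  obtain ⟨Y, hY, hYs, hY0⟩ := hk₁ (l + 1) (by omega)
  obtain ⟨Y₁, hY₁, hY₁s, hY₁0⟩ := hk₁ l (by omega)
  have h1 : Gen A (k₀ + (l + 1)) (X * Y - Y * X) := .lie _ _ X Y hX hY
  have h3 : Gen A (k₀ + (l + 1)) (X₁ * Y₁ - Y₁ * X₁) := by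
    have := Gen.lie _ _ X₁ Y₁ hX₁ hY₁
    rwa [show k₀ + 1 + l = k₀ + (l + 1) by omega] at this
  refine ⟨(2 : F)⁻¹ • ((X * Y - Y * X) + (X₁ * Y₁ - Y₁ * X₁)), .smul _ _ _ (.add _ _ _ h1 h3),
    ?_, fun t ht => ?_⟩
  · have h4 : ((X * Y - Y * X) + (X₁ * Y₁ - Y₁ * X₁)) s = (2 : F) •
        (a * b - b * a - (-1 : F) ^ (k₀ + (l + 1)) • (b' * a' - a' * b')) := by
      simp only [Pi.add_apply, Pi.sub_apply, Pi.mul_apply, hXs, hX₁s, hYs, hY₁s]
      simp only [sub_mul, mul_sub, smul_mul_assoc, mul_smul_comm, smul_smul, smul_sub, two_smul,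
        pow_succ, pow_add, mul_neg, mul_one, neg_mul, neg_smul]
      module
    rw [Pi.smul_apply, h4, smul_smul, inv_mul_cancel₀ h2, one_smul]
  · simp only [Pi.smul_apply, Pi.add_apply, Pi.sub_apply, Pi.mul_apply]
    rcases ht with ht | ht
    · rw [hX0 t ht, hX₁0 t ht]
      simp
    · rw [hY0 t ht, hY₁0 t ht]
      simp

/-- One element which vanishes at the elements of `R` and is not a scalar at `s`. -/
theorem FS.of_gen (h2 : (2 : F) ≠ 0) (h : LinG B A) {s : σ} {R : Set σ} {n : ℕ}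
    {X : ∀ s, Module.End F (V s)} (hX : Gen A n X) (hR : ∀ t ∈ R, X t = 0)
    (hs : ¬ ∃ c : F, X s = c • 1) (a : Module.End F (V s))
    (ha : LinearMap.trace F (V s) a = 0) : a ∈ FS B A s R := by
  have hfin : Module.Finite F (V s) := h.fin s
  refine sl_ideal h2 (J := FS B A s R) ?_ (X := X s) ?_ hs a ha
  · intro b hb a ha
    have h1 := FS.lie h2 (FS.empty h s b hb) ha
    rwa [Set.empty_union] at h1
  · intro b hb
    obtain ⟨b', hb', k₀, hk₀⟩ := FS.empty h s b hb
    refine ⟨_, adj_lie hb' (ty_adj (hX.ty h s)), k₀ + n, fun k hk => ?_⟩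
    obtain ⟨l, rfl⟩ : ∃ l, k = l + n := ⟨k - n, by omega⟩
    obtain ⟨Y, hY, hYs, -⟩ := hk₀ l (by omega)
    refine ⟨Y * X - X * Y, .lie _ _ Y X hY hX, ?_, fun t ht => ?_⟩
    · have h3 : (-1 : F) ^ n * (-1 : F) ^ n = 1 := by
        rw [← mul_pow]
        simp
      have h4 : (-1 : F) ^ (l + n) * (-1 : F) ^ (n + 1) = -(-1 : F) ^ l := by
        rw [pow_add, pow_succ]
        linear_combination (-(-1 : F) ^ l) * h3
      simp only [Pi.sub_apply, Pi.mul_apply, hYs]
      rw [smul_mul_assoc, mul_smul_comm, ← smul_sub, smul_smul, h4]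
      simp only [sub_mul, mul_sub, smul_mul_assoc, mul_smul_comm, smul_sub, neg_smul]
      abel
    · simp only [Pi.sub_apply, Pi.mul_apply, hR t ht]
      simp

/-- `R` and `R'` -/
theorem FS.union (h2 : (2 : F) ≠ 0) (h : LinG B A) {s : σ} {R R' : Set σ}
    (hR : ∀ a, LinearMap.trace F (V s) a = 0 → a ∈ FS B A s R)
    (hR' : ∀ a, LinearMap.trace F (V s) a = 0 → a ∈ FS B A s R')
    (a : Module.End F (V s)) (ha : LinearMap.trace F (V s) a = 0) :
    a ∈ FS B A s (R ∪ R') := by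
  have hfin : Module.Finite F (V s) := h.fin s
  refine (Submodule.span_le.2 ?_) (sl_perfect h2 a ha)
  rintro _ ⟨b, c, hb, hc, rfl⟩
  exact FS.lie h2 (hR b hb) (hR' c hc)

/-- the degree does not depend on the operator -/
theorem FS.uniform (h2 : (2 : F) ≠ 0) (h : LinG B A) {s : σ} {R : Set σ}
    (hR : ∀ a, LinearMap.trace F (V s) a = 0 → a ∈ FS B A s R) :
    ∃ k₀, ∀ k, k₀ ≤ k → ∀ a, Ty (B s) k a → LinearMap.trace F (V s) a = 0 →
      ∃ X, Gen A k X ∧ X s = a ∧ ∀ t ∈ R, X t = 0 := by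
  have hfin : Module.Finite F (V s) := h.fin s
  let Q : ℕ → Module.End F (V s) → Prop := fun K a => ∃ a', Adj (B s) a a' ∧
    ∀ k, K ≤ k → ∃ X, Gen A k X ∧ X s = a - (-1 : F) ^ k • a' ∧ ∀ t ∈ R, X t = 0
  have hQ : ∀ {K K' a}, K ≤ K' → Q K a → Q K' a := fun hK ⟨a', ha', h⟩ =>
    ⟨a', ha', fun k hk => h k (hK.trans hk)⟩
  have h1 : ∀ a : Module.End F (V s), ∃ k₀, LinearMap.trace F (V s) a = 0 → Q k₀ a := by
    intro a
    by_cases ha : LinearMap.trace F (V s) a = 0
    · obtain ⟨a', ha', k₀, hk₀⟩ := hR a ha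
      exact ⟨k₀, fun _ => ⟨a', ha', hk₀⟩⟩
    · exact ⟨0, fun h => absurd h ha⟩
  choose f hf using h1
  obtain ⟨t, ht⟩ := IsNoetherian.noetherian (LinearMap.ker (LinearMap.trace F (V s)))
  have key : ∀ a : Module.End F (V s), LinearMap.trace F (V s) a = 0 → Q (t.sup f + 1) a := by
    intro a ha
    have ha1 : a ∈ Submodule.span F (t : Set (Module.End F (V s))) := by
      rw [ht]
      exact ha
    induction ha1 using Submodule.span_induction with
    | mem x hx =>
      have hx1 : x ∈ LinearMap.ker (LinearMap.trace F (V s)) := by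
        rw [← ht]
        exact Submodule.subset_span hx
      exact hQ ((Finset.le_sup (f := f) hx).trans (Nat.le_succ _)) (hf x hx1)
    | zero =>
      refine ⟨0, fun x y => by simp, fun k hk => ⟨0, ?_, by simp, fun _ _ => rfl⟩⟩
      obtain ⟨n, rfl⟩ : ∃ n, k = n + 1 := ⟨k - 1, by omega⟩
      exact .zero n
    | add x y hx hy hx1 hy1 =>
      have hxt : LinearMap.trace F (V s) x = 0 := by
        rw [ht] at hx
        exact hx
      have hyt : LinearMap.trace F (V s) y = 0 := by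
        rw [ht] at hy
        exact hy
      obtain ⟨x', hx', hx2⟩ := hx1 hxt
      obtain ⟨y', hy', hy2⟩ := hy1 hyt
      refine ⟨x' + y', fun u v => ?_, fun k hk => ?_⟩
      · simp only [LinearMap.add_apply, map_add, hx' u v, hy' u v]
      · obtain ⟨X, g1, g2, g3⟩ := hx2 k hk
        obtain ⟨Y, g4, g5, g6⟩ := hy2 k hk
        refine ⟨X + Y, .add k X Y g1 g4, ?_, fun t ht => ?_⟩
        · rw [Pi.add_apply, g2, g5, smul_add]
          abel
        · rw [Pi.add_apply, g3 t ht, g6 t ht, add_zero]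
    | smul c x hx hx1 =>
      have hxt : LinearMap.trace F (V s) x = 0 := by
        rw [ht] at hx
        exact hx
      obtain ⟨x', hx', hx2⟩ := hx1 hxt
      refine ⟨c • x', fun u v => ?_, fun k hk => ?_⟩
      · simp only [LinearMap.smul_apply, map_smul, hx' u v]
      · obtain ⟨X, g1, g2, g3⟩ := hx2 k hk
        refine ⟨c • X, .smul k c X g1, ?_, fun t ht => ?_⟩
        · rw [Pi.smul_apply, g2, smul_sub, smul_comm]
        · rw [Pi.smul_apply, g3 t ht, smul_zero]
  refine ⟨t.sup f + 1, fun k hk a hty ha => ?_⟩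
  obtain ⟨a', ha', h3⟩ := key a ha
  obtain ⟨X, g1, g2, g3⟩ := h3 k hk
  have h4 : a' = (-1 : F) ^ (k + 1) • a := h.uniq s _ _ _ ha' (ty_adj hty)
  have h5 : (-1 : F) ^ k * (-1 : F) ^ (k + 1) = -1 := by
    rw [pow_succ, ← mul_assoc, ← mul_pow]
    simp
  refine ⟨(2 : F)⁻¹ • X, .smul k _ X g1, ?_, fun t ht => ?_⟩
  · rw [Pi.smul_apply, g2, h4, smul_smul, h5, neg_smul, one_smul, sub_neg_eq_add, ← two_smul F a,
      smul_smul, inv_mul_cancel₀ h2, one_smul]
  · rw [Pi.smul_apply, g3 t ht, smul_zero]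

theorem FS.swap (h2 : (2 : F) ≠ 0) (h : LinG B A) {s t : σ}
    (ht : ∀ a, LinearMap.trace F (V t) a = 0 → a ∈ FS B A t {s})
    (a : Module.End F (V s)) (ha : LinearMap.trace F (V s) a = 0) :
    a ∈ FS B A s {t} := by
  have : Module.Finite F (V s) := h.fin s
  obtain ⟨k₂, hu⟩ := FS.uniform h2 h ht
  refine Submodule.span_le.mpr ?_ (sl_perfect h2 a ha)
  rintro x ⟨b, c, hb, hc, rfl⟩
  obtain ⟨b', hbb, k₀, hk₀⟩ := FS.empty h s b hb
  obtain ⟨c', hcc, k₁, hk₁⟩ := FS.empty h s c hc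
  -- the brackets in all degrees
  have key : ∀ k l, k₀ ≤ k → k₁ ≤ l → k₂ ≤ k + l → ∃ W, Gen A (k + l) W ∧
      W s = (b - (-1 : F) ^ k • b') * (c - (-1 : F) ^ l • c') -
        (c - (-1 : F) ^ l • c') * (b - (-1 : F) ^ k • b') ∧ W t = 0 := by
    intro k l hk hl hkl
    obtain ⟨X, hX, hXs, -⟩ := hk₀ k hk
    obtain ⟨Y, hY, hYs, -⟩ := hk₁ l hl
    have gL : Gen A (k + l) (X * Y - Y * X) := .lie k l X Y hX hY
    have hp := hX.pos
    have hq := hY.pos
    obtain ⟨W, hW, hWt, hWs⟩ := hu (k + l) hkl ((X * Y - Y * X) t) (gL.ty h t)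
      (gL.trace (by omega) t)
    refine ⟨X * Y - Y * X - W, gL.sub hW, ?_, ?_⟩
    · rw [Pi.sub_apply, hWs s (Set.mem_singleton s), sub_zero, Pi.sub_apply, Pi.mul_apply,
        Pi.mul_apply, hXs, hYs]
    · rw [Pi.sub_apply, hWt, sub_self]
  refine ⟨-(b' * c' - c' * b'), ?_, k₀ + k₁ + k₂ + 1, fun n hn => ?_⟩
  · intro x y
    have e1 : ∀ x y, B s (b (c x)) y = B s x (c' (b' y)) := fun x y => by
      rw [hbb (c x) y, hcc x (b' y)]
    have e2 : ∀ x y, B s (c (b x)) y = B s x (b' (c' y)) := fun x y => by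
      rw [hcc (b x) y, hbb x (c' y)]
    simp only [LinearMap.sub_apply, Module.End.mul_apply, map_sub, LinearMap.neg_apply, map_neg,
      e1, e2]
    ring
  · obtain ⟨l, rfl⟩ : ∃ l, n = k₀ + (l + 1) := ⟨n - k₀ - 1, by omega⟩
    obtain ⟨W1, g1, s1, t1⟩ := key k₀ (l + 1) le_rfl (by omega) (by omega)
    obtain ⟨W2, g2, s2, t2⟩ := key (k₀ + 1) l (by omega) (by omega) (by omega)
    have e : k₀ + 1 + l = k₀ + (l + 1) := by omega
    rw [e] at g2
    refine ⟨(2 : F)⁻¹ • (W1 + W2), .smul _ _ _ (.add _ _ _ g1 g2), ?_, ?_⟩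
    · have h22 : (2 : F)⁻¹ * 2 = 1 := inv_mul_cancel₀ h2
      have e3 : W1 s + W2 s = (2 : F) • (b * c - c * b -
          (-1 : F) ^ (k₀ + (l + 1)) • -(b' * c' - c' * b')) := by
        rw [s1, s2]
        have p1 : (-1 : F) ^ (k₀ + 1) = -(-1 : F) ^ k₀ := by rw [pow_succ]; ring
        have p2 : (-1 : F) ^ (l + 1) = -(-1 : F) ^ l := by rw [pow_succ]; ring
        have p3 : (-1 : F) ^ (k₀ + (l + 1)) = -((-1 : F) ^ k₀ * (-1 : F) ^ l) := by
          rw [pow_add, p2]; ring
        rw [p1, p2, p3, two_smul F]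
        generalize (-1 : F) ^ k₀ = x
        generalize (-1 : F) ^ l = y
        simp only [sub_mul, mul_sub, smul_mul_assoc, mul_smul_comm, smul_sub, smul_smul, neg_mul,
          mul_neg, neg_smul, smul_neg]
        rw [mul_comm y x]
        abel
      rw [Pi.smul_apply, Pi.add_apply, e3, smul_smul, h22, one_smul]
    · intro u hu'
      rw [Set.mem_singleton_iff] at hu'
      subst hu'
      rw [Pi.smul_apply, Pi.add_apply, t1, t2, add_zero, smul_zero]

theorem FS.pair (h2 : (2 : F) ≠ 0) (h : LinG B A) {s t : σ} (hne : s ≠ t)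
    (a : Module.End F (V s)) (ha : LinearMap.trace F (V s) a = 0) :
    a ∈ FS B A s {t} := by
  have : Module.Finite F (V s) := h.fin s
  have : Module.Finite F (V t) := h.fin t
  by_cases h3 : 2 ≤ Module.finrank F (V s)
  · by_cases h4 : 2 ≤ Module.finrank F (V t)
    · rcases h.sep s t hne h3 h4 with ⟨n, X, hX, hXt, hXs⟩ | ⟨n, X, hX, hXs, hXt⟩
      · exact FS.of_gen h2 h hX (fun u hu => by
          rw [Set.mem_singleton_iff] at hu
          rw [hu, hXt]) hXs a ha
      · refine FS.swap h2 h (fun b hb => FS.of_gen h2 h hX (fun u hu => ?_) hXt b hb) a ha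
        rw [Set.mem_singleton_iff] at hu
        rw [hu, hXs]
    · obtain ⟨a', ha', k₀, hk₀⟩ := FS.empty h s a ha
      refine ⟨a', ha', k₀ + 2, fun k hk => ?_⟩
      obtain ⟨X, hX, hXs, -⟩ := hk₀ k (by omega)
      refine ⟨X, hX, hXs, fun u hu => ?_⟩
      rw [Set.mem_singleton_iff] at hu
      rw [hu]
      exact sl_line (by omega) _ (hX.trace (by omega) t)
  · rw [sl_line (by omega) a ha]
    exact Submodule.zero_mem _

/-- **The graded Lie algebra** contains in all large degrees all families of operators of trace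
zero of the right type. -/
theorem lin_full [Fintype σ] (h2 : (2 : F) ≠ 0) (h : LinG B A) :
    ∃ k₀, ∀ k, k₀ ≤ k → ∀ X : ∀ s, Module.End F (V s),
      (∀ s, Ty (B s) k (X s) ∧ LinearMap.trace F (V s) (X s) = 0) → Gen A k X := by
  have hR : ∀ (s : σ) (R : Finset σ), s ∉ R → ∀ a, LinearMap.trace F (V s) a = 0 →
      a ∈ FS B A s (↑R : Set σ) := by
    intro s R
    induction R using Finset.induction_on with
    | empty =>
      intro _ a ha
      rw [Finset.coe_empty]
      exact FS.empty h s a ha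
    | insert t R htR ih =>
      intro hs a ha
      rw [Finset.mem_insert, not_or] at hs
      rw [Finset.coe_insert, Set.insert_eq]
      exact FS.union h2 h (fun b hb => FS.pair h2 h hs.1 b hb) (ih hs.2) a ha
  choose k₀ hk₀ using fun s : σ =>
    FS.uniform h2 h (hR s (Finset.univ.erase s) (Finset.notMem_erase s _))
  refine ⟨Finset.univ.sup k₀ + 1, fun k hk X hX => ?_⟩
  have hks : ∀ s, k₀ s ≤ k := fun s =>
    (Finset.le_sup (f := k₀) (Finset.mem_univ s)).trans (by omega)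
  choose Y hY hYs hYt using fun s : σ => hk₀ s k (hks s) (X s) (hX s).1 (hX s).2
  have hsum : ∀ R : Finset σ, Gen A k (∑ s ∈ R, Y s) := by
    intro R
    induction R using Finset.induction_on with
    | empty =>
      rw [Finset.sum_empty]
      obtain ⟨n, rfl⟩ : ∃ n, k = n + 1 := ⟨k - 1, by omega⟩
      exact .zero n
    | insert t R htR ih =>
      rw [Finset.sum_insert htR]
      exact .add _ _ _ (hY t) ih
  have e : X = ∑ s, Y s := by
    funext t
    rw [Finset.sum_apply, Finset.sum_eq_single t]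
    · exact (hYs t).symm
    · intro s _ hst
      exact hYt s t (by simpa using hst.symm)
    · intro ht
      exact absurd (Finset.mem_univ t) ht
  rw [e]
  exact hsum _

end Pool.Agent.PTateU
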