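import Pool.Agent.PTate.LinD
import Pool.Agent.PTate.LinE1
import Pool.Agent.PTateU.GenA

/-!
# The data of one curve with an arbitrary base point
-/

set_option autoImplicit false

noncomputable section

namespace Pool.Agent.PTateU

open Pool.Agent.PTate (Ty Adj ten edg One ten_apply ten_mul ten_adj LinP)

open scoped Classical

variable {F : Type} [Field F] {V : Type} [AddCommGroup V] [Module F V] {ι : Type}

/-- The data of one curve: the vector `Q i` is the class of the point over `i`, `i ∈ T`, and the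
base point is the point `o`. -/
structure Blk (o : Option ι) (T : Finset ι) (m : ι → F) (B : V →ₗ[F] V →ₗ[F] F)
    (Q : ι → V) : Prop where
  none : o = Option.none → One T m B Q fun i j => i ≠ j
  some : ∀ a, o = Option.some a → a ∈ T ∧ m a = -∑ i ∈ T.erase a, m i ∧
    One (T.erase a) m B (fun i => Q i - Q a) fun i j => i ≠ j

variable {o : Option ι} {T : Finset ι} {m : ι → F} {B : V →ₗ[F] V →ₗ[F] F} {Q : ι → V}

theorem Blk.one (h : Blk o T m B Q) : ∃ (S : Finset ι) (P : ι → V), One S m B P fun i j => i ≠ j := by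
  rcases o with _ | a
  · exact ⟨_, _, h.none rfl⟩
  · exact ⟨_, _, (h.some a rfl).2.2⟩

theorem Blk.fin (h : Blk o T m B Q) : Module.Finite F V := by
  obtain ⟨S, P, hS⟩ := h.one
  exact hS.fin

theorem Blk.bsymm (h : Blk o T m B Q) (x y : V) : B x y = B y x := by
  obtain ⟨S, P, hS⟩ := h.one
  exact hS.bsymm x y

theorem Blk.exists_dual (h : Blk o T m B Q) {x y : V} (hxy : LinearIndependent F ![x, y])
    (a b : F) : ∃ z, B x z = a ∧ B y z = b := by
  obtain ⟨S, P, hS⟩ := h.one
  exact hS.exists_dual hxy a b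

theorem Blk.uniq (h : Blk o T m B Q) {X X' X'' : Module.End F V} (h1 : Adj B X X')
    (h2 : Adj B X X'') : X' = X'' := by
  obtain ⟨S, P, hS⟩ := h.one
  exact hS.adj_unique h1 h2

theorem Blk.adj (h : Blk o T m B Q) (X : Module.End F V) :
    ∃ X', Adj B X X' ∧ LinearMap.trace F V X' = LinearMap.trace F V X := by
  obtain ⟨S, P, hS⟩ := h.one
  obtain ⟨n, x, y, rfl⟩ := hS.exists_ten X
  have h1 : Adj B (∑ i, ten B (x i) (y i)) (∑ i, ten B (y i) (x i)) := by
    intro u v
    rw [LinearMap.sum_apply, LinearMap.sum_apply, map_sum, map_sum, LinearMap.sum_apply]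
    exact Finset.sum_congr rfl fun i _ => ten_adj hS.bsymm (x i) (y i) u v
  refine ⟨_, h1, ?_⟩
  rw [map_sum, map_sum]
  exact Finset.sum_congr rfl fun i _ => by rw [hS.trace_ten, hS.trace_ten, hS.bsymm]

theorem Blk.ne (h : Blk o T m B Q) {i : ι} (hi : i ∈ T) : m i ≠ 0 := by
  rcases o with _ | a
  · exact (h.none rfl).ne i hi
  · obtain ⟨h1, h2, h3⟩ := h.some a rfl
    by_cases hia : i = a
    · rw [hia, h2]
      exact neg_ne_zero.2 h3.neM
    · exact h3.ne i (Finset.mem_erase.2 ⟨hia, hi⟩)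

/-- the sum of the exponents is zero if and only if the point at infinity is not a branch point -/
theorem Blk.sum (h : Blk o T m B Q) : ∑ i ∈ T, m i = 0 ↔ o ≠ Option.none := by
  rcases o with _ | a
  · simpa using (h.none rfl).neM
  · obtain ⟨h1, h2, h3⟩ := h.some a rfl
    rw [← Finset.add_sum_erase T m h1, h2]
    simp

theorem Blk.pair (h : Blk o T m B Q) {i j k l : ι} (hi : i ∈ T) (hj : j ∈ T) (hk : k ∈ T)
    (hl : l ∈ T) : B (Q i - Q j) (Q k - Q l) = (if i = k then (m i)⁻¹ else 0) -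
      (if i = l then (m i)⁻¹ else 0) - (if j = k then (m j)⁻¹ else 0) +
        (if j = l then (m j)⁻¹ else 0) := by
  rcases o with _ | a
  · have h1 := h.none rfl
    simp only [map_sub, LinearMap.sub_apply, h1.pair i hi k hk, h1.pair i hi l hl,
      h1.pair j hj k hk, h1.pair j hj l hl]
    ring
  · obtain ⟨h1, h2, h3⟩ := h.some a rfl
    have h4 : ∀ x ∈ T, ∀ y ∈ T, B (Q x - Q a) (Q y - Q a) = (if x = y then (m x)⁻¹ else 0) +
        (m a)⁻¹ - (if x = a then (m a)⁻¹ else 0) - (if y = a then (m a)⁻¹ else 0) := by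
      intro x hx y hy
      by_cases hxa : x = a
      · subst hxa
        rw [sub_self, map_zero, LinearMap.zero_apply, if_pos rfl]
        by_cases hya : y = x
        · subst hya
          rw [if_pos rfl]
          ring
        · rw [if_neg hya, if_neg (Ne.symm hya)]
          ring
      · by_cases hya : y = a
        · subst hya
          rw [sub_self, map_zero, if_neg hxa, if_neg hxa, if_pos rfl]
          ring
        · rw [h3.pair x (Finset.mem_erase.2 ⟨hxa, hx⟩) y (Finset.mem_erase.2 ⟨hya, hy⟩),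
            if_neg hxa, if_neg hya, h2, inv_neg]
          ring
    have e1 : Q i - Q j = (Q i - Q a) - (Q j - Q a) := by abel
    have e2 : Q k - Q l = (Q k - Q a) - (Q l - Q a) := by abel
    rw [e1, e2]
    simp only [map_sub B, LinearMap.sub_apply, map_sub (B _)]
    have e3 := h4 i hi k hk
    have e4 := h4 i hi l hl
    have e5 := h4 j hj k hk
    have e6 := h4 j hj l hl
    simp only [map_sub, LinearMap.sub_apply] at e3 e4 e5 e6 ⊢
    linear_combination e3 - e4 - e5 + e6

theorem Blk.B_self (h : Blk o T m B Q) {i j : ι} (hi : i ∈ T) (hj : j ∈ T) (hij : i ≠ j) :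
    B (Q i - Q j) (Q i - Q j) = (m i)⁻¹ + (m j)⁻¹ := by
  rw [h.pair hi hj hi hj, if_pos rfl, if_neg hij, if_neg hij.symm, if_pos rfl]
  ring

theorem Blk.B_adj (h : Blk o T m B Q) {i j k : ι} (hi : i ∈ T) (hj : j ∈ T) (hk : k ∈ T)
    (hij : i ≠ j) (hkj : k ≠ j) (hik : i ≠ k) : B (Q i - Q j) (Q k - Q j) = (m j)⁻¹ := by
  rw [h.pair hi hj hk hj, if_neg hik, if_neg hij, if_neg hkj.symm, if_pos rfl]
  ring

theorem Blk.B_disj (h : Blk o T m B Q) {i j k l : ι} (hi : i ∈ T) (hj : j ∈ T) (hk : k ∈ T)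
    (hl : l ∈ T) (hik : i ≠ k) (hil : i ≠ l) (hjk : j ≠ k) (hjl : j ≠ l) :
    B (Q i - Q j) (Q k - Q l) = 0 := by
  rw [h.pair hi hj hk hl, if_neg hik, if_neg hil, if_neg hjk, if_neg hjl]
  ring

/-- a relation between the vectors is a multiple of the relation `∑ m i Q i = 0` -/
theorem Blk.coeff (h : Blk o T m B Q) {c : ι → F} (hc : ∑ i ∈ T, c i • Q i = 0)
    (h0 : ∑ i ∈ T, c i = 0) {i j : ι} (hi : i ∈ T) (hj : j ∈ T) : c i * m j = c j * m i := by
  by_cases hij : i = j
  · subst hij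
    rfl
  have e1 : ∑ k ∈ T, c k • (Q k - Q i) = 0 := by
    simp only [smul_sub, Finset.sum_sub_distrib, ← Finset.sum_smul, hc, h0, zero_smul, sub_zero]
  have e2 : ∑ k ∈ T, c k * B (Q k - Q i) (Q i - Q j) = 0 := by
    have := congrArg (fun x => B x (Q i - Q j)) e1
    simpa only [map_sum, LinearMap.sum_apply, map_smul, LinearMap.smul_apply, smul_eq_mul,
      map_zero, LinearMap.zero_apply] using this
  have e3 : ∀ k ∈ T, c k * B (Q k - Q i) (Q i - Q j) =
      (if k = i then c i * (m i)⁻¹ else 0) - (if k = j then c j * (m j)⁻¹ else 0) -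
        c k * (m i)⁻¹ := by
    intro k hk
    rw [h.pair hk hi hi hj, if_pos rfl, if_neg hij]
    by_cases h1 : k = i
    · subst h1
      rw [if_pos rfl, if_neg hij, if_pos rfl, if_neg hij]
      ring
    · rw [if_neg h1, if_neg h1]
      by_cases h2 : k = j
      · subst h2
        rw [if_pos rfl, if_pos rfl]
        ring
      · rw [if_neg h2, if_neg h2]
        ring
  rw [Finset.sum_congr rfl e3, Finset.sum_sub_distrib, Finset.sum_sub_distrib,
    Finset.sum_ite_eq' T i, Finset.sum_ite_eq' T j, if_pos hi, if_pos hj, ← Finset.sum_mul, h0,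
    zero_mul, sub_zero, sub_eq_zero] at e2
  have hi0 := h.ne hi
  have hj0 := h.ne hj
  field_simp at e2
  linear_combination e2

theorem Blk.coeff' (h : Blk o T m B Q) {c : ι → F} (hc : ∑ i ∈ T, c i • Q i = 0)
    (h0 : ∑ i ∈ T, c i = 0) (h1 : o = Option.none ∨ ∃ k ∈ T, c k = 0) {i : ι} (hi : i ∈ T) :
    c i = 0 := by
  rcases h1 with h1 | ⟨k, hk, hk0⟩
  · have hM : ∑ i ∈ T, m i ≠ 0 := fun e => (h.sum.1 e) h1
    have e1 : c i * ∑ j ∈ T, m j = 0 := by
      rw [Finset.mul_sum, Finset.sum_congr rfl fun j hj => h.coeff hc h0 hi hj, ← Finset.sum_mul,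
        h0, zero_mul]
    exact (mul_eq_zero.1 e1).resolve_right hM
  · have e1 := h.coeff hc h0 hi hk
    rw [hk0, zero_mul] at e1
    exact (mul_eq_zero.1 e1).resolve_right (h.ne hk)

theorem Blk.rel (_h : Blk o T m B Q) {i j k l : ι} (hi : i ∈ T) (hj : j ∈ T) (hk : k ∈ T)
    (hl : l ∈ T) {a b : F} (hab : a • (Q i - Q j) + b • (Q k - Q l) = 0) (c : ι → F)
    (hc : ∀ x, c x = a * ((if x = i then 1 else 0) - (if x = j then 1 else 0)) +
      b * ((if x = k then 1 else 0) - (if x = l then 1 else 0))) :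
    ∑ i ∈ T, c i • Q i = 0 ∧ ∑ i ∈ T, c i = 0 := by
  have e1 : ∀ (y : ι), y ∈ T → ∑ x ∈ T, (if x = y then (1 : F) else 0) • Q x = Q y := by
    intro y hy
    simp only [ite_smul, one_smul, zero_smul, Finset.sum_ite_eq', hy, if_true]
  have e2 : ∀ (y : ι), y ∈ T → ∑ x ∈ T, (if x = y then (1 : F) else 0) = 1 := by
    intro y hy
    simp only [Finset.sum_ite_eq', hy, if_true]
  constructor
  · simp only [hc, add_smul, mul_smul, sub_smul, Finset.sum_add_distrib, ← Finset.smul_sum,
      Finset.sum_sub_distrib, e1 i hi, e1 j hj, e1 k hk, e1 l hl]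
    exact hab
  · simp only [hc, Finset.sum_add_distrib, ← Finset.mul_sum,
      Finset.sum_sub_distrib, e2 i hi, e2 j hj, e2 k hk, e2 l hl]
    ring

/-- adjacent differences are independent -/
theorem Blk.indep (h : Blk o T m B Q) {i j k : ι} (hi : i ∈ T) (hj : j ∈ T) (hk : k ∈ T)
    (hij : i ≠ j) (hkj : k ≠ j) (hik : i ≠ k) (h1 : o = Option.none ∨ 4 ≤ T.card) :
    LinearIndependent F ![Q i - Q j, Q k - Q j] := by
  rw [LinearIndependent.pair_iff]
  intro a b hab
  obtain ⟨c, hc⟩ : ∃ c : ι → F, ∀ x, c x = a * ((if x = i then 1 else 0) -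
      (if x = j then 1 else 0)) + b * ((if x = k then 1 else 0) - (if x = j then 1 else 0)) :=
    ⟨_, fun _ => rfl⟩
  obtain ⟨hc1, hc2⟩ := h.rel hi hj hk hj hab c hc
  have h2 : o = Option.none ∨ ∃ x ∈ T, c x = 0 := by
    rcases h1 with h1 | h1
    · exact Or.inl h1
    · right
      obtain ⟨x, hx, hx'⟩ : ∃ x ∈ T, x ∉ ({i, j, k} : Finset ι) := by
        by_contra hcon
        push Not at hcon
        have h3 := Finset.card_le_card fun x hx => hcon x hx
        have h4 : ({i, j, k} : Finset ι).card ≤ 3 := Finset.card_le_three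
        omega
      simp only [Finset.mem_insert, Finset.mem_singleton, not_or] at hx'
      refine ⟨x, hx, ?_⟩
      rw [hc, if_neg hx'.1, if_neg hx'.2.1, if_neg hx'.2.2]
      ring
  have hi0 := h.coeff' hc1 hc2 h2 hi
  have hk0 := h.coeff' hc1 hc2 h2 hk
  rw [hc, if_pos rfl, if_neg hij, if_neg hik] at hi0
  rw [hc, if_pos rfl, if_neg hkj, if_neg (Ne.symm hik)] at hk0
  exact ⟨by linear_combination hi0, by linear_combination hk0⟩

/-- disjoint differences are independent -/
theorem Blk.indep' (h : Blk o T m B Q) {i j k l : ι} (hi : i ∈ T) (hj : j ∈ T) (hk : k ∈ T)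
    (hl : l ∈ T) (hij : i ≠ j) (hkl : k ≠ l) (hik : i ≠ k) (hil : i ≠ l) (hjk : j ≠ k)
    (hjl : j ≠ l) (h1 : m i + m j ≠ 0 ∨ m k + m l ≠ 0) :
    LinearIndependent F ![Q i - Q j, Q k - Q l] := by
  rw [LinearIndependent.pair_iff]
  intro a b hab
  obtain ⟨c, hc⟩ : ∃ c : ι → F, ∀ x, c x = a * ((if x = i then 1 else 0) -
      (if x = j then 1 else 0)) + b * ((if x = k then 1 else 0) - (if x = l then 1 else 0)) :=
    ⟨_, fun _ => rfl⟩
  obtain ⟨hc1, hc2⟩ := h.rel hi hj hk hl hab c hc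
  have ei : c i = a := by
    rw [hc, if_pos rfl, if_neg hij, if_neg hik, if_neg hil]; ring
  have ej : c j = -a := by
    rw [hc, if_pos rfl, if_neg hij.symm, if_neg hjk, if_neg hjl]; ring
  have ek : c k = b := by
    rw [hc, if_pos rfl, if_neg hkl, if_neg hik.symm, if_neg hjk.symm]; ring
  have el : c l = -b := by
    rw [hc, if_pos rfl, if_neg hkl.symm, if_neg hil.symm, if_neg hjl.symm]; ring
  have h2 := h.coeff hc1 hc2 hi hj
  have h3 := h.coeff hc1 hc2 hk hl
  have h4 := h.coeff hc1 hc2 hi hk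
  rw [ei, ej] at h2
  rw [ek, el] at h3
  rw [ei, ek] at h4
  have h5 := h.ne hi
  have h6 := h.ne hk
  rcases h1 with h1 | h1
  · have ha : a = 0 := (mul_eq_zero.1 (by linear_combination h2 : a * (m i + m j) = 0)).resolve_right h1
    rw [ha, zero_mul] at h4
    exact ⟨ha, (mul_eq_zero.1 h4.symm).resolve_right h5⟩
  · have hb : b = 0 := (mul_eq_zero.1 (by linear_combination h3 : b * (m k + m l) = 0)).resolve_right h1
    rw [hb, zero_mul] at h4
    exact ⟨(mul_eq_zero.1 h4).resolve_right h6, hb⟩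

/-- a skew operator of rank two is not a scalar -/
theorem Blk.skew (h2 : (2 : F) ≠ 0) (h : Blk o T m B Q) {u w : V}
    (huw : LinearIndependent F ![u, w]) {κ : F} (hκ : κ ≠ 0) (c : F) :
    κ • (ten B u w - ten B w u) ≠ c • 1 := by
  have key : ∀ c : F, ten B u w - ten B w u ≠ c • 1 := by
    intro c hc
    obtain ⟨v, hv1, hv2⟩ := h.exists_dual huw 0 1
    obtain ⟨v', hv1', hv2'⟩ := h.exists_dual huw 1 0
    have e1 : u = c • v := by
      have := congrArg (fun X : Module.End F V => X v) hc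
      simpa [ten_apply, hv1, hv2] using this
    have e2 : -w = c • v' := by
      have := congrArg (fun X : Module.End F V => X v') hc
      simpa [ten_apply, hv1', hv2'] using this
    have e3 : B w u = c := by
      rw [e1, map_smul, smul_eq_mul, hv2, mul_one]
    have e4 : B u w = -c := by
      have : B u (-w) = c := by rw [e2, map_smul, smul_eq_mul, hv1', mul_one]
      rw [map_neg] at this
      rw [← this, neg_neg]
    have e5 : (2 : F) * c = 0 := by
      rw [h.bsymm w u, e4] at e3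
      linear_combination -e3
    have e6 : c = 0 := (mul_eq_zero.1 e5).resolve_left h2
    have e7 : u = 0 := by rw [e1, e6, zero_smul]
    have := huw.ne_zero 0
    exact this (by simpa using e7)
  intro hc
  refine key (κ⁻¹ * c) ?_
  rw [mul_smul, ← hc, smul_smul, inv_mul_cancel₀ hκ, one_smul]

/-- a symmetric operator of rank two with orthogonal vectors is not a scalar -/
theorem Blk.orth (h : Blk o T m B Q) {u w : V}
    (huw : LinearIndependent F ![u, w]) (hB : B u w = 0) {κ : F} (hκ : κ ≠ 0) (c : F) :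
    κ • (ten B u w + ten B w u) ≠ c • 1 := by
  have key : ∀ c : F, ten B u w + ten B w u ≠ c • 1 := by
    intro c hc
    obtain ⟨v, hv1, hv2⟩ := h.exists_dual huw 0 1
    have e1 : u = c • v := by
      have := congrArg (fun X : Module.End F V => X v) hc
      simpa [ten_apply, hv1, hv2] using this
    have e3 : B w u = c := by
      rw [e1, map_smul, smul_eq_mul, hv2, mul_one]
    have e6 : c = 0 := by rw [← e3, h.bsymm, hB]
    have e7 : u = 0 := by rw [e1, e6, zero_smul]
    have := huw.ne_zero 0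
    exact this (by simpa using e7)
  intro hc
  refine key (κ⁻¹ * c) ?_
  rw [mul_smul, ← hc, smul_smul, inv_mul_cancel₀ hκ, one_smul]

/-- the dimension -/
theorem Blk.finrank (h : Blk o T m B Q) :
    Module.finrank F V + (if o = Option.none then 1 else 2) = T.card := by
  have key : ∀ (S : Finset ι) (P : ι → V), (One S m B P fun i j => i ≠ j) →
      Module.finrank F V + 1 = S.card := by
    intro S P hS
    have hL : LinP (σ := Unit) (V := fun _ => V) (fun _ => S) (fun _ => m) (fun _ => B)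
        (fun _ => P) fun i j => i ≠ j :=
      ⟨fun _ => hS, fun s t hst => absurd (Subsingleton.elim s t) hst⟩
    exact hL.finrank ()
  rcases o with _ | a
  · rw [if_pos rfl]
    exact key _ _ (h.none rfl)
  · obtain ⟨h1, h2, h3⟩ := h.some a rfl
    rw [if_neg (by simp)]
    have h4 := key _ _ h3
    rw [Finset.card_erase_of_mem h1] at h4
    have h5 := Finset.card_pos.2 ⟨a, h1⟩
    omega

/-- the operators of the edges -/
theorem edg_symm (i j : ι) : edg B T m Q i j = edg B T m Q j i := by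
  have h1 : ten B (Q i - Q j) (Q i - Q j) = ten B (Q j - Q i) (Q j - Q i) := by
    ext v
    rw [ten_apply, ten_apply, ← neg_sub (Q j) (Q i), map_neg, LinearMap.neg_apply, neg_smul,
      smul_neg, neg_neg]
  unfold edg
  by_cases h : i ∈ T ∧ j ∈ T
  · rw [if_pos h, if_pos h.symm, h1, mul_comm]
  · rw [if_neg h, if_neg fun g => h g.symm]

theorem Blk.sym (h : Blk o T m B Q) (i j : ι) (κ : F) : Ty B 1 (edg B T m Q i j - κ • 1) := by
  intro x y
  have e : (-1 : F) ^ (1 + 1) = 1 := by norm_num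
  rw [e, one_mul]
  unfold edg
  split_ifs with hij
  · simp only [LinearMap.sub_apply, map_sub, LinearMap.smul_apply, map_smul, ten_apply,
      smul_eq_mul, Module.End.one_apply]
    rw [h.bsymm x (Q i), h.bsymm x (Q j)]
    ring
  · simp

theorem Blk.sq (h : Blk o T m B Q) {i j : ι} (hi : i ∈ T) (hj : j ∈ T) (hij : i ≠ j) :
    edg B T m Q i j * edg B T m Q i j = (m i + m j) • edg B T m Q i j := by
  have hmi := h.ne hi
  have hmj := h.ne hj
  simp only [edg, if_pos (⟨hi, hj⟩ : i ∈ T ∧ j ∈ T)]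
  rw [smul_mul_assoc, mul_smul_comm, ten_mul, h.B_self hi hj hij]
  simp only [smul_smul]
  congr 1
  field_simp
  ring

theorem Blk.disj (h : Blk o T m B Q) {i j k l : ι} (hik : i ≠ k) (hil : i ≠ l)
    (hjk : j ≠ k) (hjl : j ≠ l) : edg B T m Q i j * edg B T m Q k l = 0 := by
  unfold edg
  by_cases h1 : i ∈ T ∧ j ∈ T
  · by_cases h2 : k ∈ T ∧ l ∈ T
    · rw [if_pos h1, if_pos h2, smul_mul_assoc, mul_smul_comm, ten_mul,
        h.B_disj h1.1 h1.2 h2.1 h2.2 hik hil hjk hjl, zero_smul, smul_zero, smul_zero]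
    · rw [if_neg h2, mul_zero]
  · rw [if_neg h1, zero_mul]

/-- the bracket of the operators of adjacent edges is not a scalar -/
theorem Blk.share (h2 : (2 : F) ≠ 0) (h : Blk o T m B Q) {i j k : ι} (hi : i ∈ T)
    (hj : j ∈ T) (hk : k ∈ T) (hij : i ≠ j) (hkj : k ≠ j) (hik : i ≠ k)
    (h1 : o = Option.none ∨ 4 ≤ T.card) :
    ¬ ∃ c : F, edg B T m Q i j * edg B T m Q k j - edg B T m Q k j * edg B T m Q i j = c • 1 := by
  rintro ⟨c, hc⟩
  have hB : B (Q i - Q j) (Q k - Q j) = (m j)⁻¹ := h.B_adj hi hj hk hij hkj hik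
  have hB' : B (Q k - Q j) (Q i - Q j) = (m j)⁻¹ := by rw [h.bsymm, hB]
  rw [edg, edg, if_pos ⟨hi, hj⟩, if_pos ⟨hk, hj⟩] at hc
  simp only [smul_mul_assoc, mul_smul_comm, ten_mul, hB, hB'] at hc
  have hind := h.indep hi hj hk hij hkj hik h1
  refine h.skew h2 hind (κ := m k * m j * (m i * m j * (m j)⁻¹)) ?_ c ?_
  · exact mul_ne_zero (mul_ne_zero (h.ne hk) (h.ne hj))
      (mul_ne_zero (mul_ne_zero (h.ne hi) (h.ne hj)) (inv_ne_zero (h.ne hj)))
  · rw [← hc, smul_sub]
    simp only [smul_smul]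
    congr 2
    ring

/-- the operator `E F G + G F E` for a path of three edges is not a scalar -/
theorem Blk.path (h : Blk o T m B Q) {i j k l : ι} (hi : i ∈ T) (hj : j ∈ T) (hk : k ∈ T)
    (hl : l ∈ T) (hij : i ≠ j) (hkl : k ≠ l) (hik : i ≠ k) (hil : i ≠ l) (hjk : j ≠ k)
    (hjl : j ≠ l) (h1 : m i + m j ≠ 0 ∨ m k + m l ≠ 0) :
    ¬ ∃ c : F, edg B T m Q i j * edg B T m Q j k * edg B T m Q k l +
      edg B T m Q k l * edg B T m Q j k * edg B T m Q i j = c • 1 := by
  rintro ⟨c, hc⟩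
  have hB1 : B (Q i - Q j) (Q j - Q k) = -(m j)⁻¹ := by
    rw [h.pair hi hj hj hk, if_neg hij, if_neg hik, if_pos rfl, if_neg hjk]; ring
  have hB2 : B (Q j - Q k) (Q k - Q l) = -(m k)⁻¹ := by
    rw [h.pair hj hk hk hl, if_neg hjk, if_neg hjl, if_pos rfl, if_neg hkl]; ring
  have hB1' : B (Q j - Q k) (Q i - Q j) = -(m j)⁻¹ := by rw [h.bsymm, hB1]
  have hB2' : B (Q k - Q l) (Q j - Q k) = -(m k)⁻¹ := by rw [h.bsymm, hB2]
  rw [edg, edg, edg, if_pos ⟨hi, hj⟩, if_pos ⟨hj, hk⟩, if_pos ⟨hk, hl⟩] at hc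
  simp only [smul_mul_assoc, mul_smul_comm, ten_mul, hB1, hB2, hB1', hB2'] at hc
  have hind := h.indep' hi hj hk hl hij hkl hik hil hjk hjl h1
  have hi0 := h.ne hi
  have hj0 := h.ne hj
  have hk0 := h.ne hk
  have hl0 := h.ne hl
  refine h.orth hind (h.B_disj hi hj hk hl hik hil hjk hjl)
    (κ := m i * m j * (m j * m k) * (m k * m l) * ((m j)⁻¹ * (m k)⁻¹)) ?_ c ?_
  · exact mul_ne_zero (mul_ne_zero (mul_ne_zero (mul_ne_zero hi0 hj0) (mul_ne_zero hj0 hk0))
      (mul_ne_zero hk0 hl0)) (mul_ne_zero (inv_ne_zero hj0) (inv_ne_zero hk0))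
  · rw [← hc]
    module

end Pool.Agent.PTateU
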