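import Pool.Agent.PTateU.Sep

/-!
# The operators of the edges generate a large graded Lie algebra
-/

set_option autoImplicit false

noncomputable section

namespace Pool.Agent.PTateU

open Pool.Agent.PTate (Ty Adj ten edg One Fam)

open scoped Classical

/-- If the sums of the exponents over disjoint pairs are proportional, the exponents are
proportional. -/
theorem comb {F : Type} [Field F] (h2 : (2 : F) ≠ 0) {ι : Type} {T : Finset ι} {m m' : ι → F}
    (hd : ∀ i ∈ T, ∀ j ∈ T, ∀ k ∈ T, ∀ l ∈ T, i ≠ j → k ≠ l → i ≠ k → i ≠ l → j ≠ k → j ≠ l →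
      (m i + m j) * (m' k + m' l) = (m' i + m' j) * (m k + m l))
    (h4 : 5 ≤ T.card ∨ T.card = 4 ∧ (∑ i ∈ T, m i ≠ 0 ∨ ∑ i ∈ T, m' i ≠ 0)) :
    ∀ i ∈ T, ∀ j ∈ T, m i * m' j = m j * m' i := by
  have key : ∀ i ∈ T, ∀ j ∈ T, ∀ k ∈ T, ∀ l ∈ T, i ≠ j → k ≠ l → i ≠ k → i ≠ l → j ≠ k →
      j ≠ l → (m i * m' j - m j * m' i) + (m i * m' k - m k * m' i) +
        (m i * m' l - m l * m' i) = 0 := by
    intro i hi j hj k hk l hl hij hkl hik hil hjk hjl
    have e1 := hd i hi j hj k hk l hl hij hkl hik hil hjk hjl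
    have e2 := hd i hi k hk j hj l hl hik hjl hij hil hjk.symm hkl
    have e3 := hd i hi l hl j hj k hk hil hjk hij hik hjl.symm hkl.symm
    have e4 : 2 * ((m i * m' j - m j * m' i) + (m i * m' k - m k * m' i) +
        (m i * m' l - m l * m' i)) = 0 := by
      linear_combination e1 + e2 + e3
    exact (mul_eq_zero.1 e4).resolve_left h2
  intro i hi j hj
  by_cases hij : i = j
  · subst hij
    rfl
  rcases h4 with h4 | ⟨h4, hN⟩
  · -- five elements
    have eqs : ∀ a ∈ T, ∀ b ∈ T, ∀ c ∈ T, a ≠ b → a ≠ c → b ≠ c →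
        m a * m' b - m b * m' a = m a * m' c - m c * m' a := by
      intro a ha b hb c hc hab hac hbc
      obtain ⟨l, hl, q, hq, hlq⟩ : ∃ l ∈ ((T.erase a).erase b).erase c,
          ∃ q ∈ ((T.erase a).erase b).erase c, l ≠ q := by
        apply Finset.one_lt_card.1
        rw [Finset.card_erase_of_mem, Finset.card_erase_of_mem, Finset.card_erase_of_mem ha]
        · omega
        · exact Finset.mem_erase.2 ⟨hab.symm, hb⟩
        · exact Finset.mem_erase.2 ⟨hbc.symm, Finset.mem_erase.2 ⟨hac.symm, hc⟩⟩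
      simp only [Finset.mem_erase] at hl hq
      have e1 := key a ha b hb l hl.2.2.2 q hq.2.2.2 hab hlq (Ne.symm hl.2.2.1)
        (Ne.symm hq.2.2.1) (Ne.symm hl.2.1) (Ne.symm hq.2.1)
      have e2 := key a ha c hc l hl.2.2.2 q hq.2.2.2 hac hlq (Ne.symm hl.2.2.1)
        (Ne.symm hq.2.2.1) (Ne.symm hl.1) (Ne.symm hq.1)
      linear_combination e1 - e2
    obtain ⟨k, hk⟩ : ((T.erase i).erase j).Nonempty := by
      apply Finset.card_pos.1
      rw [Finset.card_erase_of_mem, Finset.card_erase_of_mem hi]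
      · omega
      · exact Finset.mem_erase.2 ⟨Ne.symm hij, hj⟩
    simp only [Finset.mem_erase] at hk
    have e1 := eqs i hi j hj k hk.2.2 hij (Ne.symm hk.2.1) (Ne.symm hk.1)
    have e2 := eqs k hk.2.2 i hi j hj hk.2.1 hk.1 hij
    have e3 := eqs j hj k hk.2.2 i hi (Ne.symm hk.1) (Ne.symm hij) hk.2.1
    have e4 : 2 * (m i * m' j - m j * m' i) = 0 := by
      linear_combination e1 - e2 + e3
    exact sub_eq_zero.1 ((mul_eq_zero.1 e4).resolve_left h2)
  · -- four elements
    obtain ⟨k, l, hkl, hT⟩ : ∃ k l, k ≠ l ∧ (T.erase i).erase j = {k, l} := by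
      apply Finset.card_eq_two.1
      rw [Finset.card_erase_of_mem, Finset.card_erase_of_mem hi]
      · omega
      · exact Finset.mem_erase.2 ⟨Ne.symm hij, hj⟩
    have hk : k ∈ (T.erase i).erase j := by rw [hT]; simp
    have hl : l ∈ (T.erase i).erase j := by rw [hT]; simp
    have hsum : ∀ f : ι → F, ∑ x ∈ T, f x = f i + (f j + (f k + f l)) := by
      intro f
      rw [← Finset.add_sum_erase T f hi, ← Finset.add_sum_erase (T.erase i) f
        (Finset.mem_erase.2 ⟨Ne.symm hij, hj⟩), hT, Finset.sum_pair hkl]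
    simp only [Finset.mem_erase] at hk hl
    have e1 := key i hi j hj k hk.2.2 l hl.2.2 hij hkl (Ne.symm hk.2.1) (Ne.symm hl.2.1)
      (Ne.symm hk.1) (Ne.symm hl.1)
    have e2 := key j hj i hi k hk.2.2 l hl.2.2 (Ne.symm hij) hkl (Ne.symm hk.1) (Ne.symm hl.1)
      (Ne.symm hk.2.1) (Ne.symm hl.2.1)
    rw [hsum, hsum] at hN
    rcases hN with hN | hN
    · have e3 : (m i + (m j + (m k + m l))) * (m i * m' j - m j * m' i) = 0 := by
        linear_combination m j * e1 - m i * e2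
      exact sub_eq_zero.1 ((mul_eq_zero.1 e3).resolve_left hN)
    · have e3 : (m' i + (m' j + (m' k + m' l))) * (m i * m' j - m j * m' i) = 0 := by
        linear_combination m' j * e1 - m' i * e2
      exact sub_eq_zero.1 ((mul_eq_zero.1 e3).resolve_left hN)

variable {F : Type} [Field F] {σ ι : Type} {V : σ → Type} [∀ s, AddCommGroup (V s)]
  [∀ s, Module F (V s)] {o : σ → Option ι} {T : σ → Finset ι} {m : σ → ι → F}
  {B : ∀ s, V s →ₗ[F] V s →ₗ[F] F} {Q : ∀ s, ι → V s} {κ : σ → ι → ι → F}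

theorem linG_edges (h2 : (2 : F) ≠ 0) (h : ∀ s, Blk (o s) (T s) (m s) (B s) (Q s))
    (hκ : ∀ s i j, o s ≠ some i → o s ≠ some j → κ s i j = 0)
    (hsep : ∀ s t, s ≠ t → T s = T t → 3 ≤ (T s).card →
      ((∑ i ∈ T s, m s i ≠ 0 ∧ ∑ i ∈ T s, m t i ≠ 0) ∨ 4 ≤ (T s).card) →
      (∃ i ∈ T s, ∃ j ∈ T s, m s i * m t j ≠ m s j * m t i) ∧
      (((T s).card = 3 ∨ (T s).card = 4 ∧ ∑ i ∈ T s, m s i = 0 ∧ ∑ i ∈ T s, m t i = 0) →
        ∃ i ∈ T s, ∃ j ∈ T s, ∃ k ∈ T s, i ≠ j ∧ k ≠ j ∧ i ≠ k ∧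
          ((m s i + m s j) * (m t k + m t j)) ^ 2 ≠
            ((m t i + m t j) * (m s k + m s j)) ^ 2)) :
    LinG B (Edges T m B Q κ) where
  fin s := (h s).fin
  bsymm s := (h s).bsymm
  adj s := (h s).adj
  uniq s _ _ _ h1 h2 := (h s).uniq h1 h2
  sym := by
    rintro X ⟨i, j, hij, rfl⟩ s
    exact (h s).sym i j _
  single s := single_edges h2 h hκ s
  sep := by
    intro s t hst hs ht
    by_cases h1 : T s ⊆ T t
    · by_cases h1' : T t ⊆ T s
      · left
        have hT : T s = T t := Finset.Subset.antisymm h1 h1'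
        obtain ⟨h3, h4⟩ := blk_big h hs
        obtain ⟨h3', h4'⟩ := blk_big h ht
        have hs0 := (h s).sum
        have ht0 := (h t).sum
        rw [← hT] at h3' h4' ht0
        have h5 : (∑ i ∈ T s, m s i ≠ 0 ∧ ∑ i ∈ T s, m t i ≠ 0) ∨ 4 ≤ (T s).card := by
          rcases h4 with h4 | h4
          · rcases h4' with h4' | h4'
            · exact Or.inl ⟨fun e => (hs0.1 e) h4, fun e => (ht0.1 e) h4'⟩
            · exact Or.inr h4'
          · exact Or.inr h4
        obtain ⟨⟨i₀, hi₀, j₀, hj₀, h6⟩, h7⟩ := hsep s t hst hT h3 h5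
        by_cases h8 : (T s).card = 3 ∨ (T s).card = 4 ∧ ∑ i ∈ T s, m s i = 0 ∧
            ∑ i ∈ T s, m t i = 0
        · obtain ⟨i, hi, j, hj, k, hk, hij, hkj, hik, hne⟩ := h7 h8
          exact sep_adj h2 h hs hi hj hk hij hkj hik (hT ▸ hi) (hT ▸ hj) (hT ▸ hk) hne
        · by_contra hcon
          apply h6
          refine comb h2 (T := T s) (m := m s) (m' := m t) ?_ ?_ i₀ hi₀ j₀ hj₀
          · intro i hi j hj k hk l hl hij hkl hik hil hjk hjl
            by_contra hne
            exact hcon (sep_disj' h hi hj hk hl hij hkl hik hil hjk hjl (hT ▸ hi) (hT ▸ hj)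
              (hT ▸ hk) (hT ▸ hl) hne)
          · push Not at h8
            obtain ⟨h8, h9⟩ := h8
            by_cases h10 : (T s).card = 4
            · refine Or.inr ⟨h10, ?_⟩
              by_cases h11 : ∑ i ∈ T s, m s i = 0
              · exact Or.inr (h9 h10 h11)
              · exact Or.inl h11
            · left
              omega
      · right
        exact sep_vertex h2 h ht h1'
    · left
      exact sep_vertex h2 h hs h1

end Pool.Agent.PTateU
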