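import Pool.Agent.PTateU.Defs

/-!
# Cyclic coverings of the line with given branch points: the branch points and the roots
-/

set_option autoImplicit false

noncomputable section

namespace Pool.Agent.PTateU

open Pool.Agent.PTate (Free)

open scoped Classical

variable {K : Type} [Field K] {ι σ : Type} [Fintype ι] {p : ℕ} [Fact p.Prime] {ζ : K}
  {a : ι → K} {T : σ → Finset ι} {e : Option ι → ZMod p} {o : Option ι}

theorem mem_Tb {i : ι} : i ∈ Tb e ↔ e (some i) ≠ 0 := by
  simp [Tb]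

theorem mem_Br {i : Option ι} : i ∈ Br e ↔ e i ≠ 0 := by
  simp [Br]

theorem mem_Sb {q : Option ι × ι} : q ∈ Sb e o ↔ q.1 = o ∧ o ≠ some q.2 ∧ e (some q.2) ≠ 0 := by
  simp [Sb]

/-- the indices of the branch points different from the base point -/
theorem Sb_map : Sb e o = ((Tb e).filter fun i => o ≠ some i).map
    ⟨fun i => (o, i), fun _ _ h => (Prod.mk.inj h).2⟩ := by
  ext q
  simp only [mem_Sb, Finset.mem_map, Finset.mem_filter, mem_Tb, Function.Embedding.coeFn_mk]
  constructor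
  · rintro ⟨rfl, h2, h3⟩
    exact ⟨q.2, ⟨h3, h2⟩, rfl⟩
  · rintro ⟨i, ⟨h1, h2⟩, rfl⟩
    exact ⟨rfl, h2, h1⟩

theorem Cover.sub_ne (h : Cover p ζ a T e o) {i j : ι} (hi : e (some i) ≠ 0)
    (hj : e (some j) ≠ 0) (hij : i ≠ j) : a i - a j ≠ 0 := by
  have hp0 := (Fact.out : p.Prime).pos
  have h1 := h.free i (mem_Tb.2 hi) j (mem_Tb.2 hj) hij ∅ (fun _ => 0) 0 0 (by simp)
  rw [zero_pow hp0.ne', mul_zero, zero_mul] at h1
  exact h1

/-- the base point is a branch point -/
theorem Cover.base' (h : Cover p ζ a T e o) {b : ι} (hb : o = some b) :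
    e (some b) ≠ 0 ∧ e none = 0 := by
  refine ⟨hb ▸ h.base, ?_⟩
  by_contra h1
  rw [h.inf h1] at hb
  exact absurd hb (by simp)

theorem Cover.inj (h : Cover p ζ a T e o) : Set.InjOn (pt a) (Sb e o) := by
  rintro ⟨o₁, i⟩ hi ⟨o₂, j⟩ hj hij
  rw [Finset.mem_coe, mem_Sb] at hi hj
  obtain ⟨rfl, h2, h3⟩ := hi
  obtain ⟨h4, h5, h6⟩ := hj
  simp only at h4
  subst h4
  by_contra hne
  have hne' : i ≠ j := fun e => hne (by rw [e])
  have h7 := h.sub_ne h3 h6 hne'
  apply h7
  rcases o₂ with _ | b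
  · simp only [pt] at hij
    rw [hij, sub_self]
  · simp only [pt] at hij
    have h8 := inv_injective hij
    linear_combination h8

/-- the number of the branch points -/
theorem Cover.card (h : Cover p ζ a T e o) : (Sb e o).card + 1 = (Br e).card := by
  rw [Sb_map, Finset.card_map]
  rcases ho : o with _ | b
  · have h1 : Br e = insert none ((Tb e).map ⟨some, Option.some_injective _⟩) := by
      ext i
      rcases i with _ | i
      · simp only [mem_Br, Finset.mem_insert_self, iff_true]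
        rw [← ho]
        exact h.base
      · simp [mem_Br, mem_Tb]
    rw [h1, Finset.card_insert_of_notMem (by simp), Finset.card_map]
    simp
  · obtain ⟨h1, h2⟩ := h.base' ho
    have h3 : Br e = (Tb e).map ⟨some, Option.some_injective _⟩ := by
      ext i
      rcases i with _ | i
      · simp [mem_Br, h2]
      · simp [mem_Br, mem_Tb]
    have h4 : ((Tb e).filter fun i => some b ≠ some i) = (Tb e).erase b := by
      ext i
      simp only [Finset.mem_filter, Finset.mem_erase, ne_eq, Option.some.injEq]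
      constructor
      · rintro ⟨h5, h6⟩
        exact ⟨fun e => h6 e.symm, h5⟩
      · rintro ⟨h5, h6⟩
        exact ⟨h6, fun e => h5 e.symm⟩
    rw [h3, Finset.card_map, h4, Finset.card_erase_of_mem (mem_Tb.2 h1)]
    have h5 := Finset.card_pos.2 ⟨b, mem_Tb.2 h1⟩
    omega

theorem coprime_val {x : ZMod p} (hx : x ≠ 0) : x.val.Coprime p := by
  have hp := (Fact.out : p.Prime)
  rw [Nat.coprime_comm, hp.coprime_iff_not_dvd]
  intro h
  have h1 : ((x.val : ℕ) : ZMod p) = 0 := (ZMod.natCast_eq_zero_iff _ _).2 h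
  rw [ZMod.natCast_zmod_val] at h1
  exact hx h1

theorem coprime_of_cast {n : ℕ} (hx : (n : ZMod p) ≠ 0) : n.Coprime p := by
  have hp := (Fact.out : p.Prime)
  rw [Nat.coprime_comm, hp.coprime_iff_not_dvd]
  intro h
  exact hx ((ZMod.natCast_eq_zero_iff _ _).2 h)

theorem ex_cast (e : Option ι → ZMod p) (q : Option ι × ι) : (ex e q : ZMod p) = e (some q.2) :=
  ZMod.natCast_zmod_val _

theorem Cover.exponent (h : Cover p ζ a T e o) {q : Option ι × ι} (hq : q ∈ Sb e o) :
    (ex e q).Coprime p :=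
  coprime_val (mem_Sb.1 hq).2.2

/-- the sum of the exponents at the points different from the base point -/
theorem Cover.sum' (h : Cover p ζ a T e o) : ∑ q ∈ Sb e o, (ex e q : ZMod p) = -e o := by
  have h1 : ∑ q ∈ Sb e o, (ex e q : ZMod p) = ∑ i ∈ (Tb e).filter fun i => o ≠ some i, e (some i) := by
    rw [Sb_map, Finset.sum_map]
    exact Finset.sum_congr rfl fun i _ => ex_cast e _
  have h2 : ∑ i ∈ (Tb e).filter fun i => o ≠ some i, e (some i) =
      ∑ i, if o ≠ some i then e (some i) else 0 := by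
    rw [Tb, Finset.filter_filter, Finset.sum_filter]
    refine Finset.sum_congr rfl fun i _ => ?_
    by_cases h3 : e (some i) = 0
    · rw [h3]
      simp
    · by_cases h4 : o ≠ some i
      · rw [if_pos ⟨h3, h4⟩, if_pos h4]
      · rw [if_neg fun g => h4 g.2, if_neg h4]
  have h3 := h.sum
  rw [Fintype.sum_option] at h3
  rw [h1, h2]
  rcases ho : o with _ | b
  · simp only [ne_eq, reduceCtorEq, not_false_eq_true, if_true]
    linear_combination h3
  · obtain ⟨h4, h5⟩ := h.base' ho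
    have h6 : ∀ i, (if (some b : Option ι) ≠ some i then e (some i) else 0) =
        e (some i) - (if i = b then e (some b) else 0) := by
      intro i
      by_cases h7 : i = b
      · subst h7
        simp
      · rw [if_neg h7, if_pos (by simpa using Ne.symm h7), sub_zero]
    simp only [h6]
    rw [Finset.sum_sub_distrib, Finset.sum_ite_eq' Finset.univ b, if_pos (Finset.mem_univ b)]
    linear_combination h3 - h5

theorem Cover.degree (h : Cover p ζ a T e o) : (∑ q ∈ Sb e o, ex e q).Coprime p := by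
  apply coprime_of_cast
  rw [Nat.cast_sum, h.sum']
  exact neg_ne_zero.2 h.base

theorem Cover.two (h : Cover p ζ a T e o) : 2 ≤ (Sb e o).card := by
  have h1 := h.card
  have h2 := h.three
  omega

/-- two edges of the complete graph -/
theorem Cover.nonzero (hp : p ≠ 2) (h : Cover p ζ a T e o) (h4 : 4 ≤ (Sb e o).card) :
    ∃ i ∈ Sb e o, ∃ j ∈ Sb e o, i ≠ j ∧ (ex e i + ex e j).Coprime p := by
  obtain ⟨i, j, k, hi, hj, hk, hij, hik, hjk⟩ :=
    Finset.two_lt_card_iff.1 (show 2 < (Sb e o).card by omega)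
  by_contra hcon
  push Not at hcon
  have key : ∀ x ∈ Sb e o, ∀ y ∈ Sb e o, x ≠ y → e (some x.2) + e (some y.2) = 0 := by
    intro x hx y hy hxy
    by_contra h1
    refine hcon x hx y hy hxy (coprime_of_cast ?_)
    rw [Nat.cast_add, ex_cast, ex_cast]
    exact h1
  have e1 := key i hi j hj hij
  have e2 := key i hi k hk hik
  have e3 := key j hj k hk hjk
  have e4 : (2 : ZMod p) * e (some i.2) = 0 := by linear_combination e1 + e2 - e3
  have h2 : (2 : ZMod p) ≠ 0 := by
    intro h0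
    have h1 : ((2 : ℕ) : ZMod p) = 0 := by exact_mod_cast h0
    rw [ZMod.natCast_eq_zero_iff] at h1
    exact hp ((Nat.prime_dvd_prime_iff_eq (Fact.out : p.Prime) Nat.prime_two).1 h1)
  exact (mem_Sb.1 hi).2.2 ((mul_eq_zero.1 e4).resolve_left h2)

section Roots

variable {L : Type} [Field L] [Algebra K L]

/-- The roots of the differences of the new coordinates. -/
def rt (ρ : ι → ι → L) (q q' : Option ι × ι) : L :=
  match q.1 with
  | none => ρ q.2 q'.2
  | some b => ρ q'.2 q.2 / (ρ q.2 b * ρ q'.2 b)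

theorem Cover.root (h : Cover p ζ a T e o) {ρ : ι → ι → L}
    (hρ : ∀ u v, ρ u v ^ p = algebraMap K L (a u - a v)) {q q' : Option ι × ι}
    (hq : q ∈ Sb e o) (hq' : q' ∈ Sb e o) :
    rt ρ q q' ^ p = algebraMap K L (pt a q - pt a q') := by
  obtain ⟨o₁, i⟩ := q
  obtain ⟨o₂, j⟩ := q'
  rw [mem_Sb] at hq hq'
  obtain ⟨rfl, h2, h3⟩ := hq
  obtain ⟨h4, h5, h6⟩ := hq'
  simp only at h4
  subst h4
  rcases ho : o₂ with _ | b
  · simp only [rt, pt, hρ]
  · obtain ⟨h7, -⟩ := h.base' ho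
    have h8 := h.sub_ne h3 h7 (fun e => h2 (by rw [ho, e]))
    have h9 := h.sub_ne h6 h7 (fun e => h5 (by rw [ho, e]))
    simp only [rt, pt, div_pow, mul_pow, hρ, ← map_mul, ← map_div₀]
    congr 1
    field_simp
    ring

/-- a pair which does not contain the base point -/
theorem Cover.gal_edge (h : Cover p ζ a T e o) {ρ : ι → ι → L} {c : L} {g : L ≃ₐ[K] L}
    {i j : ι} (hg : ∀ u ∈ Tb e, ∀ v ∈ Tb e, g (ρ u v) = if (u = i ∧ v = j) ∨ (u = j ∧ v = i) then
      c * ρ u v else ρ u v) (hi : o ≠ some i) (hj : o ≠ some j) {q q' : Option ι × ι}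
    (hq : q ∈ Sb e o) (hq' : q' ∈ Sb e o) :
    g (rt ρ q q') = if (q = (o, i) ∧ q' = (o, j)) ∨ (q = (o, j) ∧ q' = (o, i)) then
      c * rt ρ q q' else rt ρ q q' := by
  obtain ⟨o₁, u⟩ := q
  obtain ⟨o₂, v⟩ := q'
  rw [mem_Sb] at hq hq'
  obtain ⟨rfl, h2, h3⟩ := hq
  obtain ⟨h4, h5, h6⟩ := hq'
  simp only at h4
  subst h4
  have e1 : (((o₂, u) : Option ι × ι) = (o₂, i) ∧ ((o₂, v) : Option ι × ι) = (o₂, j) ∨
      ((o₂, u) : Option ι × ι) = (o₂, j) ∧ ((o₂, v) : Option ι × ι) = (o₂, i)) ↔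
      (u = i ∧ v = j) ∨ (u = j ∧ v = i) := by
    simp
  simp only [e1]
  rcases ho : o₂ with _ | b
  · simp only [rt]
    exact hg u (mem_Tb.2 h3) v (mem_Tb.2 h6)
  · obtain ⟨h7, -⟩ := h.base' ho
    have hbi : b ≠ i := fun e => hi (by rw [ho, e])
    have hbj : b ≠ j := fun e => hj (by rw [ho, e])
    have g1 : ∀ w, e (some w) ≠ 0 → g (ρ w b) = ρ w b := by
      intro w hw
      rw [hg w (mem_Tb.2 hw) b (mem_Tb.2 h7), if_neg]
      rintro (⟨-, h8⟩ | ⟨-, h8⟩)
      · exact hbj h8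
      · exact hbi h8
    simp only [rt]
    rw [map_div₀, map_mul, g1 u h3, g1 v h6, hg v (mem_Tb.2 h6) u (mem_Tb.2 h3)]
    by_cases h8 : (u = i ∧ v = j) ∨ (u = j ∧ v = i)
    · rw [if_pos h8, if_pos (by tauto), mul_div_assoc]
    · rw [if_neg h8, if_neg (by tauto)]

/-- a pair which contains the base point -/
theorem Cover.gal_star (h : Cover p ζ a T e o) {ρ : ι → ι → L}
    (hρ : ∀ u v, ρ u v ^ p = algebraMap K L (a u - a v)) {c : L} (hc : c ^ p = 1)
    {g : L ≃ₐ[K] L} {i b : ι} (hb : o = some b)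
    (hg : ∀ u ∈ Tb e, ∀ v ∈ Tb e, g (ρ u v) = if (u = i ∧ v = b) ∨ (u = b ∧ v = i) then
      c * ρ u v else ρ u v) {q q' : Option ι × ι}
    (hq : q ∈ Sb e o) (hq' : q' ∈ Sb e o) :
    g (rt ρ q q') = if (q = (o, i) ∧ q' ≠ (o, i)) ∨ (q ≠ (o, i) ∧ q' = (o, i)) then
      c ^ (p - 1) * rt ρ q q' else rt ρ q q' := by
  have hp0 := (Fact.out : p.Prime).pos
  obtain ⟨o₁, u⟩ := q
  obtain ⟨o₂, v⟩ := q'
  rw [mem_Sb] at hq hq'
  obtain ⟨rfl, h2, h3⟩ := hq
  obtain ⟨h4, h5, h6⟩ := hq'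
  simp only at h4
  subst h4
  obtain ⟨h7, -⟩ := h.base' hb
  subst hb
  have hub : u ≠ b := fun e => h2 (by rw [e])
  have hvb : v ≠ b := fun e => h5 (by rw [e])
  have e1 : (((some b, u) : Option ι × ι) = (some b, i) ∧ ((some b, v) : Option ι × ι) ≠
      (some b, i) ∨ ((some b, u) : Option ι × ι) ≠ (some b, i) ∧
        ((some b, v) : Option ι × ι) = (some b, i)) ↔ (u = i ∧ v ≠ i) ∨ (u ≠ i ∧ v = i) := by
    simp
  simp only [e1]
  have g1 : ∀ w, e (some w) ≠ 0 → w ≠ b → g (ρ w b) = (if w = i then c else 1) * ρ w b := by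
    intro w hw hwb
    rw [hg w (mem_Tb.2 hw) b (mem_Tb.2 h7)]
    by_cases h8 : w = i
    · rw [if_pos (Or.inl ⟨h8, rfl⟩), if_pos h8]
    · rw [if_neg (by rintro (⟨h9, -⟩ | ⟨h9, -⟩); exacts [h8 h9, hwb h9]), if_neg h8, one_mul]
  have g2 : g (ρ v u) = ρ v u := by
    rw [hg v (mem_Tb.2 h6) u (mem_Tb.2 h3), if_neg]
    rintro (⟨-, h9⟩ | ⟨h9, -⟩)
    · exact hub h9
    · exact hvb h9
  simp only [rt]
  rw [map_div₀, map_mul, g1 u h3 hub, g1 v h6 hvb, g2]
  have hc0 : c ≠ 0 := by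
    rintro rfl
    rw [zero_pow hp0.ne'] at hc
    exact zero_ne_one hc
  have hcc : c ^ (p - 1) = c⁻¹ := by
    rw [eq_comm, inv_eq_iff_eq_inv, eq_comm]
    apply inv_eq_of_mul_eq_one_left
    rw [← pow_succ', Nat.sub_add_cancel hp0, hc]
  by_cases hu : u = i
  · by_cases hv : v = i
    · rw [if_pos hu, if_pos hv, if_neg (by tauto)]
      have huv : ρ v u = 0 := by
        have h8 := hρ v u
        rw [hu, hv, sub_self, map_zero] at h8
        rw [hu, hv]
        exact pow_eq_zero_iff hp0.ne' |>.1 h8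
      rw [huv, zero_div, zero_div]
    · rw [if_pos hu, if_neg hv, if_pos (by tauto), hcc, one_mul, mul_assoc, div_mul_eq_div_div,
        ← div_eq_inv_mul, div_right_comm]
  · by_cases hv : v = i
    · rw [if_neg hu, if_pos hv, if_pos (by tauto), hcc, one_mul, mul_left_comm,
        div_mul_eq_div_div, ← div_eq_inv_mul, div_right_comm]
    · rw [if_neg hu, if_neg hv, if_neg (by tauto), one_mul, one_mul]

end Roots

end Pool.Agent.PTateU
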