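import Pool.Agent.PTate.OutInv

/-!
# Cyclic coverings of the line with given branch points: definitions
-/

set_option autoImplicit false

noncomputable section

namespace Pool.Agent.PTateU

open scoped Classical

variable {K : Type} [Field K] {ι σ : Type} {p : ℕ}

/-- The coordinate of the point `a i` of the line, if the point `o` is moved to infinity: the
coordinate is `x`, if `o` is infinity, and `(x - a o)⁻¹`, if `o` is one of the points `a i`. -/
def pt (a : ι → K) : Option ι × ι → K
  | (none, i) => a i
  | (some o, i) => (a i - a o)⁻¹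

/-- The indices of the branch points different from the point `o` and from infinity of the covering
with the exponents `e`. -/
def Sb [Fintype ι] (e : Option ι → ZMod p) (o : Option ι) : Finset (Option ι × ι) :=
  Finset.univ.filter fun q => q.1 = o ∧ o ≠ some q.2 ∧ e (some q.2) ≠ 0

/-- The exponents as numbers. -/
def ex (e : Option ι → ZMod p) (q : Option ι × ι) : ℕ := (e (some q.2)).val

/-- The indices of the finite branch points. -/
def Tb [Fintype ι] (e : Option ι → ZMod p) : Finset ι :=
  Finset.univ.filter fun i => e (some i) ≠ 0

/-- The branch points, infinity included. -/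
def Br [Fintype ι] (e : Option ι → ZMod p) : Finset (Option ι) :=
  Finset.univ.filter fun i => e i ≠ 0

/-- The exponents `e'` are obtained from the exponents `e` by multiplication by a constant and, if
there are exactly four branch points, possibly by the exchange of the branch points of two disjoint
pairs. -/
def Equivalent [Fintype ι] (e e' : Option ι → ZMod p) : Prop :=
  ∃ (c : ZMod p) (π : Option ι ≃ Option ι), (∀ i, e' i = c * e (π i)) ∧
    (π = Equiv.refl (Option ι) ∨ (Br e).card = 4 ∧ ∀ i, π (π i) = i ∧ (π i = i ↔ e i = 0))

/-- The hypothesis on one covering. -/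
structure Cover [Fintype ι] (p : ℕ) [Fact p.Prime] (ζ : K) (a : ι → K) (T : σ → Finset ι)
    (e : Option ι → ZMod p) (o : Option ι) : Prop where
  sum : ∑ i, e i = 0
  three : 3 ≤ (Br e).card
  base : e o ≠ 0
  inf : e none ≠ 0 → o = none
  mem : ∃ s, Tb e ⊆ T s
  free : ∀ i ∈ Tb e, ∀ j ∈ Tb e, i ≠ j → Pool.Agent.PTate.Free p ζ a T i j

/-- The hypothesis on the branch points and the exponents: `e s i` is the exponent at the point
`a i`, `e s none` the exponent at infinity, `o s` is a branch point, and it is infinity if infinity
is a branch point; the pairs of finite branch points are free, and the coverings with more than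
three branch points are not equivalent. -/
structure Generic [Fintype ι] (p : ℕ) [Fact p.Prime] (ζ : K) (a : ι → K)
    (e : σ → Option ι → ZMod p) (o : σ → Option ι) : Prop where
  sum : ∀ s, ∑ i, e s i = 0
  three : ∀ s, 3 ≤ (Br (e s)).card
  base : ∀ s, e s (o s) ≠ 0
  inf : ∀ s, e s none ≠ 0 → o s = none
  free : ∀ s, ∀ i ∈ Tb (e s), ∀ j ∈ Tb (e s), i ≠ j →
    Pool.Agent.PTate.Free p ζ a (fun s => Tb (e s)) i j
  distinct : ∀ s t, s ≠ t → 4 ≤ (Br (e s)).card → ¬ Equivalent (e s) (e t)

theorem Generic.cover [Fintype ι] [Fact p.Prime] {ζ : K} {a : ι → K}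
    {e : σ → Option ι → ZMod p} {o : σ → Option ι} (h : Generic p ζ a e o) (s : σ) :
    Cover p ζ a (fun s => Tb (e s)) (e s) (o s) :=
  ⟨h.sum s, h.three s, h.base s, h.inf s, ⟨s, Finset.Subset.refl _⟩, h.free s⟩

end Pool.Agent.PTateU
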