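import Pool.Agent.PTate.Dens
import Pool.Agent.PTateU.Defs

/-!
# The hypothesis holds for all coverings with almost all tuples of integers as branch points
-/

set_option autoImplicit false

noncomputable section

namespace Pool.Agent.PTateU

open scoped Classical

/-- The obvious conditions on the exponents `e s` of coverings and the base points `o s`. -/
structure Exponents {ι σ : Type} [Fintype ι] (p : ℕ) (e : σ → Option ι → ZMod p)
    (o : σ → Option ι) : Prop where
  sum : ∀ s, ∑ i, e s i = 0
  three : ∀ s, 3 ≤ (Br (e s)).card
  base : ∀ s, e s (o s) ≠ 0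
  inf : ∀ s, e s none ≠ 0 → o s = none
  distinct : ∀ s t, s ≠ t → 4 ≤ (Br (e s)).card → ¬ Equivalent (e s) (e t)

/-- If all pairs are free then the hypothesis of the theorem on Tate classes holds for all
families of coverings. -/
theorem generic_of_free {p : ℕ} [Fact p.Prime] {K : Type} [Field K] {ζ : K} {n : ℕ}
    {a : Fin n → K} {σ : Type} {e : σ → Option (Fin n) → ZMod p} {o : σ → Option (Fin n)}
    (he : Exponents p e o)
    (h : ∀ i j, i ≠ j → Pool.Agent.PTate.Free p ζ a
      (fun _ : Unit => (Finset.univ : Finset (Fin n))) i j) : Generic p ζ a e o :=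
  ⟨he.sum, he.three, he.base, he.inf, fun s i _ j _ hij => (h i j hij).mono _, he.distinct⟩

/-- **100 percent**: the proportion of the tuples of integers `0 ≤ a i < N` for which the hypothesis
of the theorem on Tate classes holds over `K`, a number field of degree prime to `p` (for example
the field of the roots of unity of order `p`), for all families of coverings, tends to one. -/
theorem generic_density {p : ℕ} [Fact p.Prime] {K : Type} [Field K] [NumberField K]
    (hd : (Module.finrank ℚ K).Coprime p) {ζ : K} (hζ : IsPrimitiveRoot ζ p) (n : ℕ) :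
    Filter.Tendsto (fun N : ℕ => (Nat.card {b : Fin n → Fin N //
      ∀ (σ : Type) (e : σ → Option (Fin n) → ZMod p) (o : σ → Option (Fin n)),
        Exponents p e o → Generic p ζ (fun u => ((b u : ℕ) : K)) e o} : ℝ) / (N : ℝ) ^ n)
          Filter.atTop (nhds 1) := by
  have h1 := Pool.Agent.PTate.density (Fact.out : p.Prime) hd hζ n
  refine tendsto_of_tendsto_of_tendsto_of_le_of_le' h1 tendsto_const_nhds ?_ ?_
  · refine Filter.Eventually.of_forall fun N => ?_
    refine div_le_div_of_nonneg_right ?_ (by positivity)
    have h2 : Nat.card {b : Fin n → Fin N // ∀ i j, i ≠ j →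
        Pool.Agent.PTate.Free p ζ (fun u => ((b u : ℕ) : K))
          (fun _ : Unit => (Finset.univ : Finset (Fin n))) i j} ≤
        Nat.card {b : Fin n → Fin N //
          ∀ (σ : Type) (e : σ → Option (Fin n) → ZMod p) (o : σ → Option (Fin n)),
            Exponents p e o → Generic p ζ (fun u => ((b u : ℕ) : K)) e o} := by
      refine Nat.card_le_card_of_injective
        (fun b => ⟨b.1, fun σ e o he => generic_of_free he b.2⟩) ?_
      intro b b' h
      apply Subtype.ext
      exact congrArg (fun c => c.1) h
    exact_mod_cast h2
  · filter_upwards [Filter.eventually_gt_atTop 0] with N hN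
    have hN1 : (0 : ℝ) < N := Nat.cast_pos.2 hN
    rw [div_le_one (by positivity)]
    have h2 : Nat.card {b : Fin n → Fin N //
          ∀ (σ : Type) (e : σ → Option (Fin n) → ZMod p) (o : σ → Option (Fin n)),
            Exponents p e o → Generic p ζ (fun u => ((b u : ℕ) : K)) e o} ≤
        Nat.card (Fin n → Fin N) := Nat.card_le_card_of_injective (fun b => b.1) fun b b' h =>
      Subtype.ext h
    rw [Nat.card_eq_fintype_card (α := Fin n → Fin N), Fintype.card_fun, Fintype.card_fin,
      Fintype.card_fin] at h2
    exact_mod_cast h2

end Pool.Agent.PTateU
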