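import Pool.Agent.PTateU.Cover

/-!
# Coverings which are not equivalent
-/

set_option autoImplicit false

noncomputable section

namespace Pool.Agent.PTateU

open scoped Classical

/-- the exchange of the elements of two pairs -/
private theorem exists_perm {α : Type} {w₁ w₂ w₃ w₄ : α} (h12 : w₁ ≠ w₂) (h13 : w₁ ≠ w₃)
    (h14 : w₁ ≠ w₄) (h23 : w₂ ≠ w₃) (h24 : w₂ ≠ w₄) (h34 : w₃ ≠ w₄) :
    ∃ π : α ≃ α, π w₁ = w₂ ∧ π w₂ = w₁ ∧ π w₃ = w₄ ∧ π w₄ = w₃ ∧
      ∀ x, x ≠ w₁ → x ≠ w₂ → x ≠ w₃ → x ≠ w₄ → π x = x := by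
  refine ⟨(Equiv.swap w₃ w₄).trans (Equiv.swap w₁ w₂), ?_, ?_, ?_, ?_, ?_⟩
  · rw [Equiv.trans_apply, Equiv.swap_apply_of_ne_of_ne h13 h14, Equiv.swap_apply_left]
  · rw [Equiv.trans_apply, Equiv.swap_apply_of_ne_of_ne h23 h24, Equiv.swap_apply_right]
  · rw [Equiv.trans_apply, Equiv.swap_apply_left, Equiv.swap_apply_of_ne_of_ne h14.symm h24.symm]
  · rw [Equiv.trans_apply, Equiv.swap_apply_right, Equiv.swap_apply_of_ne_of_ne h13.symm h23.symm]
  · intro x h1 h2 h3 h4
    rw [Equiv.trans_apply, Equiv.swap_apply_of_ne_of_ne h3 h4, Equiv.swap_apply_of_ne_of_ne h1 h2]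

/-- proportional squares -/
private theorem signs {F : Type} [Field F] {x y z x' y' z' : F}
    (h0 : x ≠ 0 ∨ y ≠ 0 ∨ z ≠ 0) (h1 : (x * y') ^ 2 = (x' * y) ^ 2)
    (h2 : (x * z') ^ 2 = (x' * z) ^ 2) (h3 : (y * z') ^ 2 = (y' * z) ^ 2) :
    ∃ κ, x' = κ * x ∧ (y' = κ * y ∨ y' = -(κ * y)) ∧ (z' = κ * z ∨ z' = -(κ * z)) := by
  by_cases hx : x = 0
  · rw [hx, zero_mul, zero_pow two_ne_zero, eq_comm, sq_eq_zero_iff] at h1 h2
    have hx' : x' = 0 := by
      rcases h0 with h0 | h0 | h0
      · exact absurd hx h0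
      · exact (mul_eq_zero.1 h1).resolve_right h0
      · exact (mul_eq_zero.1 h2).resolve_right h0
    by_cases hy : y = 0
    · rw [hy, zero_mul, zero_pow two_ne_zero, eq_comm, sq_eq_zero_iff] at h3
      have hz : z ≠ 0 := by
        rcases h0 with h0 | h0 | h0
        · exact absurd hx h0
        · exact absurd hy h0
        · exact h0
      have hy' : y' = 0 := (mul_eq_zero.1 h3).resolve_right hz
      refine ⟨z' / z, ?_, Or.inl ?_, Or.inl ?_⟩
      · rw [hx, hx', mul_zero]
      · rw [hy, hy', mul_zero]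
      · rw [div_mul_cancel₀ _ hz]
    · refine ⟨y' / y, ?_, Or.inl ?_, ?_⟩
      · rw [hx, hx', mul_zero]
      · rw [div_mul_cancel₀ _ hy]
      · rcases sq_eq_sq_iff_eq_or_eq_neg.1 h3 with h3 | h3
        · left
          field_simp
          linear_combination h3
        · right
          field_simp
          linear_combination h3
  · refine ⟨x' / x, ?_, ?_, ?_⟩
    · rw [div_mul_cancel₀ _ hx]
    · rcases sq_eq_sq_iff_eq_or_eq_neg.1 h1 with h1 | h1
      · left
        field_simp
        linear_combination h1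
      · right
        field_simp
        linear_combination h1
    · rcases sq_eq_sq_iff_eq_or_eq_neg.1 h2 with h2 | h2
      · left
        field_simp
        linear_combination h2
      · right
        field_simp
        linear_combination h2

variable {ι : Type} [Fintype ι] {p : ℕ} [Fact p.Prime] {e e' : Option ι → ZMod p}

/-- the exchange of the branch points of two pairs -/
private theorem equiv_of {w₁ w₂ w₃ w₄ : Option ι} (h12 : w₁ ≠ w₂) (h13 : w₁ ≠ w₃)
    (h14 : w₁ ≠ w₄) (h23 : w₂ ≠ w₃) (h24 : w₂ ≠ w₄) (h34 : w₃ ≠ w₄)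
    (hB : ∀ x, e x ≠ 0 ↔ x = w₁ ∨ x = w₂ ∨ x = w₃ ∨ x = w₄)
    (hB' : ∀ x, x ≠ w₁ → x ≠ w₂ → x ≠ w₃ → x ≠ w₄ → e' x = 0) (c : ZMod p)
    (h1 : e' w₁ = c * e w₂) (h2 : e' w₂ = c * e w₁) (h3 : e' w₃ = c * e w₄)
    (h4 : e' w₄ = c * e w₃) : Equivalent e e' := by
  obtain ⟨π, p1, p2, p3, p4, p5⟩ := exists_perm h12 h13 h14 h23 h24 h34
  have hout : ∀ x, x ≠ w₁ → x ≠ w₂ → x ≠ w₃ → x ≠ w₄ → e x = 0 := by
    intro x g1 g2 g3 g4
    by_contra hx
    rcases (hB x).1 hx with h | h | h | h
    · exact g1 h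
    · exact g2 h
    · exact g3 h
    · exact g4 h
  refine ⟨c, π, fun x => ?_, Or.inr ⟨?_, fun x => ?_⟩⟩
  · by_cases g1 : x = w₁
    · rw [g1, p1, h1]
    by_cases g2 : x = w₂
    · rw [g2, p2, h2]
    by_cases g3 : x = w₃
    · rw [g3, p3, h3]
    by_cases g4 : x = w₄
    · rw [g4, p4, h4]
    rw [p5 x g1 g2 g3 g4, hout x g1 g2 g3 g4, hB' x g1 g2 g3 g4, mul_zero]
  · have hBr : Br e = {w₁, w₂, w₃, w₄} := by
      ext x
      rw [mem_Br, hB]
      simp
    rw [hBr, Finset.card_insert_of_notMem, Finset.card_insert_of_notMem,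
      Finset.card_insert_of_notMem, Finset.card_singleton] <;>
      simp [h12, h13, h14, h23, h24, h34]
  · by_cases g1 : x = w₁
    · refine ⟨by rw [g1, p1, p2], ?_⟩
      rw [g1, p1]
      exact ⟨fun h => absurd h h12.symm, fun h => absurd h ((hB w₁).2 (Or.inl rfl))⟩
    by_cases g2 : x = w₂
    · refine ⟨by rw [g2, p2, p1], ?_⟩
      rw [g2, p2]
      exact ⟨fun h => absurd h h12, fun h => absurd h ((hB w₂).2 (by simp))⟩
    by_cases g3 : x = w₃
    · refine ⟨by rw [g3, p3, p4], ?_⟩
      rw [g3, p3]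
      exact ⟨fun h => absurd h h34.symm, fun h => absurd h ((hB w₃).2 (by simp))⟩
    by_cases g4 : x = w₄
    · refine ⟨by rw [g4, p4, p3], ?_⟩
      rw [g4, p4]
      exact ⟨fun h => absurd h h34, fun h => absurd h ((hB w₄).2 (by simp))⟩
    have g5 := p5 x g1 g2 g3 g4
    refine ⟨by rw [g5, g5], ?_⟩
    exact ⟨fun _ => hout x g1 g2 g3 g4, fun _ => g5⟩

/-- four branch points: proportional squares of the sums -/
private theorem equiv_four (h2 : (2 : ZMod p) ≠ 0) {w₁ w₂ w₃ w₄ : Option ι} (h12 : w₁ ≠ w₂)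
    (h13 : w₁ ≠ w₃) (h14 : w₁ ≠ w₄) (h23 : w₂ ≠ w₃) (h24 : w₂ ≠ w₄) (h34 : w₃ ≠ w₄)
    (hB : ∀ x, e x ≠ 0 ↔ x = w₁ ∨ x = w₂ ∨ x = w₃ ∨ x = w₄)
    (hB' : ∀ x, x ≠ w₁ → x ≠ w₂ → x ≠ w₃ → x ≠ w₄ → e' x = 0)
    (hs : e w₁ + e w₂ + e w₃ + e w₄ = 0) (hs' : e' w₁ + e' w₂ + e' w₃ + e' w₄ = 0)
    (hsq : ∀ x ∈ ({w₁, w₂, w₃} : Set (Option ι)), ∀ y ∈ ({w₁, w₂, w₃} : Set (Option ι)),
      ∀ z ∈ ({w₁, w₂, w₃} : Set (Option ι)), x ≠ y → z ≠ y → x ≠ z →
        ((e x + e y) * (e' z + e' y)) ^ 2 = ((e' x + e' y) * (e z + e y)) ^ 2) :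
    Equivalent e e' := by
  have s1 := hsq w₁ (by simp) w₃ (by simp) w₂ (by simp) h13 h23 h12
  have s2 := hsq w₁ (by simp) w₂ (by simp) w₃ (by simp) h12 h23.symm h13
  have s3 := hsq w₂ (by simp) w₁ (by simp) w₃ (by simp) h12.symm h13.symm h23
  have hw₁ : e w₁ ≠ 0 := (hB w₁).2 (by simp)
  obtain ⟨κ, k1, k2, k3⟩ := signs (x := e w₂ + e w₃) (y := e w₁ + e w₃) (z := e w₁ + e w₂)
    (x' := e' w₂ + e' w₃) (y' := e' w₁ + e' w₃) (z' := e' w₁ + e' w₂)
    (by
      by_contra hcon
      push Not at hcon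
      obtain ⟨g1, g2, g3⟩ := hcon
      apply hw₁
      have : (2 : ZMod p) * e w₁ = 0 := by linear_combination g2 + g3 - g1
      exact (mul_eq_zero.1 this).resolve_left h2)
    (by linear_combination -s1) (by linear_combination -s2) (by linear_combination -s3)
  have half : ∀ u v : ZMod p, 2 * u = 2 * v → u = v := fun u v h => mul_left_cancel₀ h2 h
  rcases k2 with k2 | k2
  · rcases k3 with k3 | k3
    · -- proportional
      refine ⟨κ, Equiv.refl _, fun x => ?_, Or.inl rfl⟩
      rw [Equiv.refl_apply]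
      have g1 : e' w₁ = κ * e w₁ := half _ _ (by linear_combination k2 + k3 - k1)
      have g2 : e' w₂ = κ * e w₂ := half _ _ (by linear_combination k1 + k3 - k2)
      have g3 : e' w₃ = κ * e w₃ := half _ _ (by linear_combination k1 + k2 - k3)
      by_cases g4 : x = w₁
      · rw [g4, g1]
      by_cases g5 : x = w₂
      · rw [g5, g2]
      by_cases g6 : x = w₃
      · rw [g6, g3]
      by_cases g7 : x = w₄
      · rw [g7]
        linear_combination hs' - κ * hs - g1 - g2 - g3
      rw [hB' x g4 g5 g6 g7, not_not.1 fun h => (hB x).not.2 (by tauto) h, mul_zero]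
    · -- `(1 2) (3 4)`
      refine equiv_of h12 h13 h14 h23 h24 h34 hB hB' (-κ) ?_ ?_ ?_ ?_
      · exact half _ _ (by linear_combination k2 + k3 - k1)
      · exact half _ _ (by linear_combination k1 + k3 - k2)
      · exact half _ _ (by linear_combination k1 + k2 - k3 + 2 * κ * hs)
      · exact half _ _ (by linear_combination 2 * hs' - k1 - k2 - k3)
  · rcases k3 with k3 | k3
    · -- `(1 3) (2 4)`
      refine equiv_of (w₁ := w₁) (w₂ := w₃) (w₃ := w₂) (w₄ := w₄) h13 h12 h14 h23.symm h34 h24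
        (fun x => (hB x).trans (by tauto)) (fun x g1 g2 g3 g4 => hB' x g1 g3 g2 g4) (-κ)
        ?_ ?_ ?_ ?_
      · exact half _ _ (by linear_combination k2 + k3 - k1)
      · exact half _ _ (by linear_combination k1 + k2 - k3)
      · exact half _ _ (by linear_combination k1 + k3 - k2 + 2 * κ * hs)
      · exact half _ _ (by linear_combination 2 * hs' - k1 - k2 - k3)
    · -- `(1 4) (2 3)`
      refine equiv_of (w₁ := w₁) (w₂ := w₄) (w₃ := w₂) (w₄ := w₃) h14 h12 h13 h24.symm
        h34.symm h23 (fun x => (hB x).trans (by tauto))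
        (fun x g1 g2 g3 g4 => hB' x g1 g3 g4 g2) κ ?_ ?_ ?_ ?_
      · exact half _ _ (by linear_combination k2 + k3 - k1 - 2 * κ * hs)
      · exact half _ _ (by linear_combination 2 * hs' - k1 - k2 - k3)
      · exact half _ _ (by linear_combination k1 + k3 - k2)
      · exact half _ _ (by linear_combination k1 + k2 - k3)

/-- **Separation**: the condition on the exponents of the finite branch points. -/
theorem sep_of (h2 : (2 : ZMod p) ≠ 0) (hs : ∑ i, e i = 0) (hs' : ∑ i, e' i = 0)
    (hT : Tb e = Tb e') (h3 : 3 ≤ (Tb e).card)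
    (h4 : (∑ i ∈ Tb e, e (some i) ≠ 0 ∧ ∑ i ∈ Tb e, e' (some i) ≠ 0) ∨ 4 ≤ (Tb e).card)
    (hne : 4 ≤ (Br e).card → ¬ Equivalent e e') :
    (∃ i ∈ Tb e, ∃ j ∈ Tb e, e (some i) * e' (some j) ≠ e (some j) * e' (some i)) ∧
      (((Tb e).card = 3 ∨ (Tb e).card = 4 ∧ ∑ i ∈ Tb e, e (some i) = 0 ∧
        ∑ i ∈ Tb e, e' (some i) = 0) → ∃ i ∈ Tb e, ∃ j ∈ Tb e, ∃ k ∈ Tb e, i ≠ j ∧ k ≠ j ∧
          i ≠ k ∧ ((e (some i) + e (some j)) * (e' (some k) + e' (some j))) ^ 2 ≠
            ((e' (some i) + e' (some j)) * (e (some k) + e (some j))) ^ 2) := by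
  have hsum : ∀ f : Option ι → ZMod p, (∀ i, i ∉ Tb e → f (some i) = 0) → ∑ i, f i = 0 →
      f none + ∑ i ∈ Tb e, f (some i) = 0 := by
    intro f hf hf0
    rw [Fintype.sum_option] at hf0
    rw [Finset.sum_subset (Finset.subset_univ (Tb e)) fun i _ hi => hf i hi]
    exact hf0
  have hz : ∀ i, i ∉ Tb e → e (some i) = 0 := fun i hi => not_not.1 fun h => hi (mem_Tb.2 h)
  have hz' : ∀ i, i ∉ Tb e → e' (some i) = 0 := fun i hi => not_not.1 fun h =>
    hi (hT ▸ mem_Tb.2 h)
  have hn := hsum e hz hs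
  have hn' := hsum e' hz' hs'
  have hB4 : 4 ≤ (Br e).card := by
    have h5 : ((Tb e).map ⟨some, Option.some_injective _⟩) ⊆ Br e := by
      intro x hx
      obtain ⟨i, hi, rfl⟩ := Finset.mem_map.1 hx
      exact mem_Br.2 (mem_Tb.1 hi)
    rcases h4 with h4 | h4
    · have h6 : e none ≠ 0 := by
        intro h7
        rw [h7, zero_add] at hn
        exact h4.1 hn
      have h7 : insert none ((Tb e).map ⟨some, Option.some_injective _⟩) ⊆ Br e :=
        Finset.insert_subset (mem_Br.2 h6) h5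
      have h8 := Finset.card_le_card h7
      rw [Finset.card_insert_of_notMem (by simp), Finset.card_map] at h8
      omega
    · have h8 := Finset.card_le_card h5
      rw [Finset.card_map] at h8
      omega
  have hne' := hne hB4
  constructor
  · by_contra hcon
    push Not at hcon
    apply hne'
    obtain ⟨i, hi⟩ := Finset.card_pos.1 (show 0 < (Tb e).card by omega)
    have hi0 := mem_Tb.1 hi
    have key : ∀ j, e' (some j) = e' (some i) / e (some i) * e (some j) := by
      intro j
      by_cases hj : j ∈ Tb e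
      · have h5 := hcon i hi j hj
        field_simp
        linear_combination h5
      · rw [hz j hj, hz' j hj, mul_zero]
    refine ⟨e' (some i) / e (some i), Equiv.refl _, fun x => ?_, Or.inl rfl⟩
    rw [Equiv.refl_apply]
    rcases x with _ | x
    · have h5 : ∑ j ∈ Tb e, e' (some j) =
          e' (some i) / e (some i) * ∑ j ∈ Tb e, e (some j) := by
        rw [Finset.mul_sum]
        exact Finset.sum_congr rfl fun j _ => key j
      linear_combination hn' - e' (some i) / e (some i) * hn - h5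
    · exact key x
  · intro h5
    by_contra hcon
    push Not at hcon
    apply hne'
    rcases h5 with h5 | ⟨h5, h6, h7⟩
    · -- infinity is a branch point
      obtain ⟨i, j, k, hij, hik, hjk, hTb⟩ := Finset.card_eq_three.1 h5
      have hi : i ∈ Tb e := by rw [hTb]; simp
      have hj : j ∈ Tb e := by rw [hTb]; simp
      have hk : k ∈ Tb e := by rw [hTb]; simp
      have h6 : ∑ i ∈ Tb e, e (some i) ≠ 0 := by
        rcases h4 with h4 | h4
        · exact h4.1
        · omega
      have hsum3 : ∀ f : ι → ZMod p, ∑ x ∈ Tb e, f x = f i + f j + f k := by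
        intro f
        rw [hTb, Finset.sum_insert (by simp [hij, hik]), Finset.sum_pair hjk]
        ring
      rw [hsum3] at hn hn'
      refine equiv_four h2 (w₁ := some i) (w₂ := some j) (w₃ := some k) (w₄ := none)
        (by simpa using hij) (by simpa using hik) (by simp) (by simpa using hjk) (by simp)
        (by simp) ?_ ?_ (by linear_combination hn) (by linear_combination hn') ?_
      · intro x
        rcases x with _ | x
        · simp only [or_true, iff_true]
          intro h7
          apply h6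
          rw [hsum3]
          linear_combination hn - h7
        · rw [← mem_Tb, hTb]
          simp
      · intro x g1 g2 g3 g4
        rcases x with _ | x
        · exact absurd rfl g4
        · refine hz' x ?_
          rw [hTb]
          simp only [Finset.mem_insert, Finset.mem_singleton, not_or]
          exact ⟨fun h => g1 (by rw [h]), fun h => g2 (by rw [h]), fun h => g3 (by rw [h])⟩
      · intro x hx y hy z hz hxy hzy hxz
        have hm : ∀ w ∈ ({some i, some j, some k} : Set (Option ι)), ∃ v ∈ Tb e, w = some v := by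
          rintro w (rfl | rfl | rfl)
          · exact ⟨i, hi, rfl⟩
          · exact ⟨j, hj, rfl⟩
          · exact ⟨k, hk, rfl⟩
        obtain ⟨x, hx', rfl⟩ := hm x hx
        obtain ⟨y, hy', rfl⟩ := hm y hy
        obtain ⟨z, hz', rfl⟩ := hm z hz
        exact hcon x hx' y hy' z hz' (fun h => hxy (by rw [h])) (fun h => hzy (by rw [h]))
          (fun h => hxz (by rw [h]))
    · -- infinity is not a branch point
      obtain ⟨i, hi⟩ := Finset.card_pos.1 (show 0 < (Tb e).card by omega)
      obtain ⟨j, k, l, hjk, hjl, hkl, hTb⟩ := Finset.card_eq_three.1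
        (show ((Tb e).erase i).card = 3 by rw [Finset.card_erase_of_mem hi]; omega)
      have hj := Finset.mem_erase.1 (show j ∈ (Tb e).erase i by rw [hTb]; simp)
      have hk := Finset.mem_erase.1 (show k ∈ (Tb e).erase i by rw [hTb]; simp)
      have hl := Finset.mem_erase.1 (show l ∈ (Tb e).erase i by rw [hTb]; simp)
      have hsum4 : ∀ f : ι → ZMod p, ∑ x ∈ Tb e, f x = f i + f j + f k + f l := by
        intro f
        rw [← Finset.add_sum_erase _ _ hi, hTb, Finset.sum_insert (by simp [hjk, hjl]),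
          Finset.sum_pair hkl]
        ring
      have hmem : ∀ x, x ∈ Tb e ↔ x = i ∨ x = j ∨ x = k ∨ x = l := by
        intro x
        by_cases hx : x = i
        · simp [hx, hi]
        · have : x ∈ Tb e ↔ x ∈ (Tb e).erase i := by
            rw [Finset.mem_erase]
            tauto
          rw [this, hTb]
          simp [hx]
      have hnone : e none = 0 := by rw [h6, add_zero] at hn; exact hn
      have hnone' : e' none = 0 := by rw [h7, add_zero] at hn'; exact hn'
      rw [hsum4] at h6 h7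
      refine equiv_four h2 (w₁ := some i) (w₂ := some j) (w₃ := some k) (w₄ := some l)
        (by simpa using hj.1.symm) (by simpa using hk.1.symm) (by simpa using hl.1.symm)
        (by simpa using hjk) (by simpa using hjl) (by simpa using hkl) ?_ ?_ h6 h7 ?_
      · intro x
        rcases x with _ | x
        · simp [hnone]
        · rw [← mem_Tb, hmem]
          simp
      · intro x g1 g2 g3 g4
        rcases x with _ | x
        · exact hnone'
        · refine hz' x ?_
          rw [hmem]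
          simp only [not_or]
          exact ⟨fun h => g1 (by rw [h]), fun h => g2 (by rw [h]), fun h => g3 (by rw [h]),
            fun h => g4 (by rw [h])⟩
      · intro x hx y hy z hz hxy hzy hxz
        have hm : ∀ w ∈ ({some i, some j, some k} : Set (Option ι)), ∃ v ∈ Tb e, w = some v := by
          rintro w (rfl | rfl | rfl)
          · exact ⟨i, hi, rfl⟩
          · exact ⟨j, hj.2, rfl⟩
          · exact ⟨k, hk.2, rfl⟩
        obtain ⟨x, hx', rfl⟩ := hm x hx
        obtain ⟨y, hy', rfl⟩ := hm y hy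
        obtain ⟨z, hz', rfl⟩ := hm z hz
        exact hcon x hx' y hy' z hz' (fun h => hxy (by rw [h])) (fun h => hzy (by rw [h]))
          (fun h => hxz (by rw [h]))

end Pool.Agent.PTateU
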