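import Pool.Agent.PTate.TGal

/-!
# The action on the Tate module, if the base point is involved
-/

set_option autoImplicit false

noncomputable section

namespace Pool.Agent.PTateU

open Polynomial
open Pool.Agent.PTate
open scoped Classical

variable {k O : Type} [Field k] [CommRing O] [Algebra k O] {p : ℕ} {ζ : k}
  [IsDedekindDomain O] [IsAlgClosed k]

omit [IsDedekindDomain O] [IsAlgClosed k] in
private theorem tstar_S_comm (C : Cyc k O p ζ) (ε : O ≃+* O)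
    (hσ : ∀ z, ε (C.σ z) = C.σ (ε z)) (c : J O) : J.map ε (C.S c) = C.S (J.map ε c) := by
  have h1 : C.s.trans ε = ε.trans C.s := by
    ext z
    exact hσ z
  have h2 := J.map_trans C.s ε c
  rw [h1, J.map_trans] at h2
  exact h2.symm

omit [IsDedekindDomain O] [IsAlgClosed k] in
private theorem tstar_D_comm (C : Cyc k O p ζ) (ε : O ≃+* O)
    (hσ : ∀ z, ε (C.σ z) = C.σ (ε z)) (i : ℕ) (c : J O) :
    J.map ε (C.D^[i] c) = C.D^[i] (J.map ε c) := by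
  have h1 : Function.Semiconj (J.map ε) C.D C.D := fun c => by
    rw [C.D_apply, C.D_apply, map_sub, tstar_S_comm C ε hσ]
  exact (h1.iterate_right i) c

omit [IsDedekindDomain O] [IsAlgClosed k] in
private theorem tstar_nsmul (C : Cyc k O p ζ) (i n : ℕ) (c : J O) :
    C.D^[i] (n • c) = n • C.D^[i] c := by
  induction i generalizing c with
  | zero => rfl
  | succ i ih => rw [Function.iterate_succ_apply, Function.iterate_succ_apply, map_nsmul, ih]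

omit [IsDedekindDomain O] [IsAlgClosed k] in
private theorem tstar_one [Fact p.Prime] (t : TM p (J O)) :
    p • (t : ℕ → J O) 1 = 0 := by
  have h := TM.pow_smul t 1
  rwa [pow_one] at h

private theorem tstar_last (C : Cyc k O p ζ) [Fact p.Prime] (t : TM p (J O)) :
    C.D^[p - 1] ((t : ℕ → J O) 1) = 0 :=
  (C.smul_eq_zero_iff _).1 (tstar_one t)

omit [IsDedekindDomain O] [IsAlgClosed k] in
private theorem tstar_neg [Fact p.Prime] {x : J O} (hx : p • x = 0) (n : ℕ) :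
    (n * (p - 1)) • x = -(n • x) := by
  have hp := (Fact.out : p.Prime).pos
  apply eq_neg_of_add_eq_zero_left
  rw [← add_nsmul]
  have h1 : n * (p - 1) + n = n * p := by
    obtain ⟨q, rfl⟩ : ∃ q, p = q + 1 := ⟨p - 1, by omega⟩
    rw [Nat.add_sub_cancel]
    ring
  rw [h1, mul_smul, hx, smul_zero]

/-- the value of the form at a fixed point, modulo `p` -/
private theorem tstar_value (C : Cyc k O p ζ) [Fact p.Prime] (hp : p ≠ 2) {ξ : ℕ → k}
    (hξ : IsRoots p ξ) (hξ1 : ξ 1 = ζ)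
    {e : TM p (J O) →ₗ[ℤ_[p]] TM p (J O) →ₗ[ℤ_[p]] ℤ_[p]}
    (he : ∀ (t u : TM p (J O)) (n : ℕ), 1 ≤ n →
      weil C.I (p ^ n) ((t : ℕ → J O) n) ((u : ℕ → J O) n) =
        ξ n ^ (PadicInt.toZModPow n (e t u)).val) {P : MaximalSpectrum O → TM p (J O)}
    (hP : ∀ Q ∈ C.F, C.D^[p - 2] ((P Q : ℕ → J O) 1) = cl Q)
    {P₁ : MaximalSpectrum O} (h₁ : P₁ ∈ C.F)
    {m₁ : ℕ} (hm₁ : (C.m P₁ * m₁) % p = 1)
    {c : MaximalSpectrum O → ℕ} {t u : TM p (J O)}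
    (htu : t = ∑ Q ∈ C.F, c Q • P Q + lam C.z u) :
    ∃ w : ℤ_[p], e ((lam C.z ^ (p - 2)) t) (P P₁) =
      c P₁ * m₁ - (∑ Q ∈ C.F, (c Q : ℤ_[p])) * C.e + p * w := by
  have hp2 := (Fact.out : p.Prime).two_le
  have hp1 : 1 < p := by omega
  have hpair : ∀ Q ∈ C.F, ∃ w : ℤ_[p], e ((lam C.z ^ (p - 2)) (P Q)) (P P₁) =
      (if Q = P₁ then (m₁ : ℤ_[p]) else 0) - C.e + p * w := by
    intro Q hQ
    by_cases hQ1 : Q = P₁
    · subst hQ1
      exact C.form_P hp hξ hξ1 he hP hQ h₁ hm₁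
    · obtain ⟨m', -, hm'⟩ := Nat.exists_mul_mod_eq_one_of_coprime (C.cop Q hQ) hp1
      obtain ⟨w, hw⟩ := C.form_P hp hξ hξ1 he hP hQ h₁ hm'
      rw [if_neg hQ1] at hw
      exact ⟨w, by rw [hw, if_neg hQ1]⟩
  choose! w hw using hpair
  obtain ⟨u', hu'⟩ : ∃ u' : TM p (J O), (lam C.z ^ (p - 1)) u = (p : ℤ_[p]) ^ 1 • u' := by
    refine (TM.apply_eq_zero_iff _ 1).1 ?_
    rw [C.lam_pow_apply]
    exact tstar_last C u
  let f : TM p (J O) →ₗ[ℤ_[p]] ℤ_[p] := e.flip (P P₁)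
  have hf : ∀ x, e x (P P₁) = f x := fun x => rfl
  have h3 : (lam C.z ^ (p - 2)) t =
      ∑ Q ∈ C.F, c Q • (lam C.z ^ (p - 2)) (P Q) + (lam C.z ^ (p - 1)) u := by
    have h4 : p - 1 = (p - 2) + 1 := by omega
    rw [h4, pow_succ, Module.End.mul_apply, htu, map_add, map_sum]
    congr 1
    exact Finset.sum_congr rfl fun Q _ => map_nsmul _ _ _
  refine ⟨∑ Q ∈ C.F, (c Q : ℤ_[p]) * w Q + f u', ?_⟩
  rw [hf, h3, map_add, map_sum, hu', map_smul]
  have h5 : ∀ Q ∈ C.F, f (c Q • (lam C.z ^ (p - 2)) (P Q)) =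
      (if Q = P₁ then (c P₁ : ℤ_[p]) * m₁ else 0) - c Q * C.e +
        p * ((c Q : ℤ_[p]) * w Q) := by
    intro Q hQ
    rw [map_nsmul, ← hf, hw Q hQ, nsmul_eq_mul]
    by_cases hQ1 : Q = P₁
    · rw [if_pos hQ1, if_pos hQ1, hQ1]
      ring
    · rw [if_neg hQ1, if_neg hQ1]
      ring
  rw [Finset.sum_congr rfl h5, Finset.sum_add_distrib, Finset.sum_sub_distrib,
    Finset.sum_ite_eq', if_pos h₁, ← Finset.mul_sum, ← Finset.sum_mul, pow_one,
    smul_eq_mul]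
  ring

/-- the order of the pole of `y` -/
theorem cyc_ord_y (C : Cyc k O p ζ) : C.I.ord C.y = ∑ Q ∈ C.F, C.m Q := by
  rw [← card_eq C.I C.span_y, Multiset.card_sum]
  refine Finset.sum_congr rfl fun Q _ => ?_
  rw [Multiset.card_nsmul, Multiset.card_singleton, mul_one]

/-- The action modulo `(1 - z) ^ 2` of an automorphism `ε` over `g`, if `g` multiplies the roots of
`x(P₁) - x(Q)` and `x(Q) - x(P₁)`, `Q ≠ P₁`, by `ζ⁻¹` and fixes the other roots. -/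
theorem T_star (C : Cyc k O p ζ) [Fact p.Prime] (hp : p ≠ 2) {ξ : ℕ → k}
    (hξ : IsRoots p ξ) (hξ1 : ξ 1 = ζ)
    {e : TM p (J O) →ₗ[ℤ_[p]] TM p (J O) →ₗ[ℤ_[p]] ℤ_[p]}
    (he : ∀ (t u : TM p (J O)) (n : ℕ), 1 ≤ n →
      weil C.I (p ^ n) ((t : ℕ → J O) n) ((u : ℕ → J O) n) =
        ξ n ^ (PadicInt.toZModPow n (e t u)).val) {P : MaximalSpectrum O → TM p (J O)}
    (hP : ∀ Q ∈ C.F, C.D^[p - 2] ((P Q : ℕ → J O) 1) = cl Q)
    (hgen : ∀ t : TM p (J O), ∃ (c : MaximalSpectrum O → ℕ) (u : TM p (J O)),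
      t = ∑ Q ∈ C.F, c Q • P Q + lam C.z u) (ε : O ≃+* O) (g : k ≃+* k)
    (hg : ∀ c, ε (algebraMap k O c) = algebraMap k O (g c)) (hx : ε C.x = C.x)
    (hy : ε C.y = C.y) (hσ : ∀ z, ε (C.σ z) = C.σ (ε z)) (hgx : ∀ P ∈ C.F, g (C.xc P) = C.xc P)
    (r : MaximalSpectrum O → MaximalSpectrum O → k)
    (hr : ∀ P ∈ C.F, ∀ Q ∈ C.F, r P Q ^ p = C.xc P - C.xc Q) {P₁ : MaximalSpectrum O}
    (h₁ : P₁ ∈ C.F)
    (hgr : ∀ P ∈ C.F, ∀ Q ∈ C.F, g (r P Q) =
      if (P = P₁ ∧ Q ≠ P₁) ∨ (P ≠ P₁ ∧ Q = P₁) then ζ ^ (p - 1) * r P Q else r P Q)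
    (t : TM p (J O)) :
    ∃ u, TM.map (J.map ε) t = t + lam C.z ((C.m P₁ * ((p - 1) * ∑ Q ∈ C.F, C.m Q)) •
      nop p C.z e (P P₁) t - C.m P₁ • t) + (lam C.z ^ 2) u := by
  have hp2 := (Fact.out : p.Prime).two_le
  have hp3 : 3 ≤ p := by omega
  have hp1 : 1 < p := by omega
  obtain ⟨c, u, htu⟩ := hgen t
  obtain ⟨m₁, -, hm₁⟩ := Nat.exists_mul_mod_eq_one_of_coprime (C.cop P₁ h₁) hp1
  obtain ⟨w, hw⟩ := tstar_value C hp hξ hξ1 he hP h₁ hm₁ htu
  set M : ℕ := ∑ Q ∈ C.F, C.m Q with hM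
  have hMe : (C.e * M) % p = 1 := by
    have h := C.he
    rw [cyc_ord_y C, ← hM] at h
    exact h
  set N : ℕ := (PadicInt.toZModPow 1 (e ((lam C.z ^ (p - 2)) t) (P P₁))).val with hN
  -- the first component
  have hD : C.D^[p - 2] ((t : ℕ → J O) 1) = ∑ Q ∈ C.F, c Q • cl Q := by
    have h4 : C.D^[p - 2] ((t : ℕ → J O) 1) = ((lam C.z ^ (p - 2)) t : ℕ → J O) 1 :=
      (C.lam_pow_apply t _ _).symm
    have h5 : p - 1 = (p - 2) + 1 := by omega
    have h6 : (lam C.z ^ (p - 2)) t =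
        ∑ Q ∈ C.F, c Q • (lam C.z ^ (p - 2)) (P Q) + (lam C.z ^ (p - 1)) u := by
      rw [h5, pow_succ, Module.End.mul_apply, htu, map_add, map_sum]
      congr 1
      exact Finset.sum_congr rfl fun Q _ => map_nsmul _ _ _
    rw [h4, h6]
    have h7 : (((lam C.z ^ (p - 1)) u : TM p (J O)) : ℕ → J O) 1 = 0 := by
      rw [C.lam_pow_apply]
      exact tstar_last C u
    have h8 : ∀ Q, (((lam C.z ^ (p - 2)) (P Q) : TM p (J O)) : ℕ → J O) 1 =
        C.D^[p - 2] ((P Q : ℕ → J O) 1) := fun Q => C.lam_pow_apply _ _ _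
    rw [AddSubgroup.coe_add, Pi.add_apply, h7, add_zero, AddSubgroup.val_finsetSum,
      Finset.sum_apply]
    refine Finset.sum_congr rfl fun Q hQ => ?_
    rw [AddSubgroup.coe_nsmul, Pi.smul_apply, h8, hP Q hQ]
  set κ : J O := cl P₁ with hκ
  have hpκ : p • κ = 0 := C.nsmul_cl h₁
  -- the congruence
  have hcong : (p : ℤ) ∣ (C.m P₁ : ℤ) * (∑ Q ∈ C.F, (c Q : ℤ)) - c P₁ * M -
      (C.m P₁ * ((p - 1 : ℕ) * M)) * N := by
    have g0 : ((p : ℕ) : ZMod (p ^ 1)) = 0 := by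
      have := ZMod.natCast_self (p ^ 1)
      simpa using this
    have g1 : (N : ZMod (p ^ 1)) = (c P₁ : ZMod (p ^ 1)) * m₁ -
        (∑ Q ∈ C.F, (c Q : ZMod (p ^ 1))) * C.e := by
      rw [hN, ZMod.natCast_zmod_val, hw, map_add, map_sub, map_mul, map_mul, map_mul, map_natCast,
        map_natCast, map_natCast, map_natCast, g0, zero_mul, add_zero, map_sum]
      simp only [map_natCast]
    have g2 : ((C.m P₁ : ℕ) : ZMod (p ^ 1)) * m₁ = 1 := by
      have g3 : ((C.m P₁ * m₁ : ℕ) : ZMod (p ^ 1)) = ((1 : ℕ) : ZMod (p ^ 1)) := by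
        rw [ZMod.natCast_eq_natCast_iff', pow_one, hm₁, Nat.mod_eq_of_lt hp1]
      push_cast at g3
      exact g3
    have g4 : ((C.e : ℕ) : ZMod (p ^ 1)) * M = 1 := by
      have g3 : ((C.e * M : ℕ) : ZMod (p ^ 1)) = ((1 : ℕ) : ZMod (p ^ 1)) := by
        rw [ZMod.natCast_eq_natCast_iff', pow_one, hMe, Nat.mod_eq_of_lt hp1]
      push_cast at g3
      exact g3
    have g7 : (((p - 1 : ℕ) : ℕ) : ZMod (p ^ 1)) = -1 := by
      rw [Nat.cast_sub (by omega), g0, Nat.cast_one, zero_sub]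
    have g5 : (((C.m P₁ : ℤ) * (∑ Q ∈ C.F, (c Q : ℤ)) - c P₁ * M -
      (C.m P₁ * ((p - 1 : ℕ) * M)) * N : ℤ) : ZMod (p ^ 1)) = 0 := by
      have g8 : (((p - 1 : ℕ) : ℤ) : ZMod (p ^ 1)) = -1 := by
        rw [Int.cast_natCast]
        exact g7
      rw [Int.cast_sub, Int.cast_sub, Int.cast_mul, Int.cast_mul, Int.cast_mul, Int.cast_mul,
        Int.cast_mul, g8, Int.cast_sum]
      simp only [Int.cast_natCast]
      rw [g1]
      linear_combination (c P₁ * M : ZMod (p ^ 1)) * g2 -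
        (C.m P₁ * (∑ Q ∈ C.F, (c Q : ZMod (p ^ 1)))) * g4
    have g6 := (ZMod.intCast_zmod_eq_zero_iff_dvd _ _).1 g5
    simpa using g6
  have hfin : C.m P₁ • (∑ Q ∈ C.F, c Q) • κ - c P₁ • M • κ -
      (C.m P₁ * ((p - 1) * M)) • N • κ = 0 := by
    obtain ⟨q, hq⟩ := hcong
    have g7 : ((C.m P₁ : ℤ) * (∑ Q ∈ C.F, (c Q : ℤ)) - c P₁ * M -
      (C.m P₁ * ((p - 1 : ℕ) * M)) * N) • κ = 0 := by
      rw [hq, mul_comm, mul_smul, natCast_zsmul, hpκ, smul_zero]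
    rw [← Nat.cast_sum, sub_smul, sub_smul, mul_smul, mul_smul, mul_smul, ← Nat.cast_mul,
      ← Nat.cast_mul] at g7
    simp only [natCast_zsmul] at g7
    exact g7
  -- the action
  have key : C.D^[p - 1 - 2] (((TM.map (J.map ε) t - (t +
      lam C.z ((C.m P₁ * ((p - 1) * M)) • nop p C.z e (P P₁) t - C.m P₁ • t)) :
        TM p (J O)) : ℕ → J O) 1) = 0 := by
    have h1 : ((TM.map (J.map ε) t - (t +
        lam C.z ((C.m P₁ * ((p - 1) * M)) • nop p C.z e (P P₁) t - C.m P₁ • t)) :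
          TM p (J O)) : ℕ → J O) 1 =
        J.map ε ((t : ℕ → J O) 1) - ((t : ℕ → J O) 1 + C.D ((C.m P₁ * ((p - 1) * M)) •
          (N • ((P P₁ : ℕ → J O) 1)) - C.m P₁ • (t : ℕ → J O) 1)) := rfl
    have h2 : p - 2 = (p - 1 - 2) + 1 := by omega
    rw [h1, iterate_map_sub, iterate_map_add, ← tstar_D_comm C ε hσ, ← Function.iterate_succ_apply,
      ← Nat.add_one, ← h2, iterate_map_sub, tstar_nsmul, tstar_nsmul, tstar_nsmul, hP _ h₁, hD,
      ← hκ]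
    rw [h2, Function.iterate_succ_apply', C.D_apply] at hD
    have h3 := C.gal_sum hp ε g hg hx hy hσ hgx r
      (fun P Q => if (P = P₁ ∧ Q ≠ P₁) ∨ (P ≠ P₁ ∧ Q = P₁) then p - 1 else 0) hr
      (fun P Q => by
        have : ((P = P₁ ∧ Q ≠ P₁) ∨ (P ≠ P₁ ∧ Q = P₁)) ↔
            ((Q = P₁ ∧ P ≠ P₁) ∨ (Q ≠ P₁ ∧ P = P₁)) := by tauto
        simp only [this])
      (fun P hP Q hQ => by
        rw [hgr P hP Q hQ]
        split_ifs
        · rfl
        · rw [pow_zero, one_mul]) hD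
    have h4 : ∀ P ∈ C.F, c P • ∑ Q ∈ C.F.erase P,
        (C.m Q * if (P = P₁ ∧ Q ≠ P₁) ∨ (P ≠ P₁ ∧ Q = P₁) then p - 1 else 0) • (cl P - cl Q) =
        (if P = P₁ then -(c P₁ • M • κ) else 0) - c P • C.m P₁ • (cl P - κ) := by
      intro P hP
      by_cases hP1 : P = P₁
      · rw [if_pos hP1, hP1, hκ, sub_self, smul_zero, smul_zero, sub_zero, ← neg_nsmul]
        congr 1
        have e1 : ∀ Q ∈ C.F.erase P₁,
            (C.m Q * if (P₁ = P₁ ∧ Q ≠ P₁) ∨ (P₁ ≠ P₁ ∧ Q = P₁) then p - 1 else 0) •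
              (cl P₁ - cl Q) = -(C.m Q • (cl P₁ - cl Q)) := by
          intro Q hQ
          rw [Finset.mem_erase] at hQ
          rw [if_pos (Or.inl ⟨rfl, hQ.1⟩)]
          apply tstar_neg
          rw [nsmul_sub, C.nsmul_cl h₁, C.nsmul_cl hQ.2, sub_zero]
        rw [Finset.sum_congr rfl e1, Finset.sum_neg_distrib]
        congr 1
        have e2 : ∑ Q ∈ C.F, C.m Q • (cl P₁ - cl Q) =
            ∑ Q ∈ C.F.erase P₁, C.m Q • (cl P₁ - cl Q) := by
          rw [← Finset.add_sum_erase C.F _ h₁, sub_self, smul_zero, zero_add]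
        rw [← e2]
        have e3 : ∀ Q ∈ C.F, C.m Q • (cl P₁ - cl Q) = C.m Q • cl P₁ - C.m Q • cl Q :=
          fun Q _ => nsmul_sub _ _ _
        rw [Finset.sum_congr rfl e3, Finset.sum_sub_distrib, C.sum_F, sub_zero,
          ← Finset.sum_smul, hM]
      · rw [if_neg hP1, zero_sub, ← neg_nsmul]
        congr 1
        rw [Finset.sum_eq_single P₁]
        · rw [if_pos (Or.inr ⟨hP1, rfl⟩)]
          apply tstar_neg
          rw [nsmul_sub, C.nsmul_cl h₁, C.nsmul_cl hP, sub_zero]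
        · intro Q _ hQ1
          rw [if_neg, mul_zero]
          · exact zero_nsmul _
          · rintro (⟨h, -⟩ | ⟨-, h⟩)
            · exact hP1 h
            · exact hQ1 h
        · intro h
          exact absurd (Finset.mem_erase.2 ⟨Ne.symm hP1, h₁⟩) h
    have h5 : ∑ P ∈ C.F, c P • C.m P₁ • (cl P - κ) =
        C.m P₁ • (∑ P ∈ C.F, c P • cl P) - C.m P₁ • (∑ Q ∈ C.F, c Q) • κ := by
      rw [Finset.sum_smul, ← nsmul_sub, ← Finset.sum_sub_distrib, Finset.smul_sum]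
      refine Finset.sum_congr rfl fun P _ => ?_
      rw [smul_comm, ← nsmul_sub]
    rw [Finset.sum_congr rfl h4, Finset.sum_sub_distrib, Finset.sum_ite_eq',
      if_pos h₁, h5] at h3
    rw [← hfin, ← sub_eq_zero]
    rw [← sub_eq_zero] at h3
    rw [← h3]
    abel
  obtain ⟨v, hv⟩ := (C.lam_dvd hp (by omega) _).1 key
  refine ⟨v, ?_⟩
  rw [← hv]
  abel

end Pool.Agent.PTateU
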