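import Pool.Agent.PTate.RedForms
import Pool.Agent.PTateU.Blk
import Pool.Agent.PTateU.Cover

/-!
# From the data of a curve to the data of the graded Lie algebra
-/

set_option autoImplicit false

noncomputable section

namespace Pool.Agent.PTateU

open Pool.Agent.PTate (One ten edg lam Vr mk Red RedForm nop exists_div lam_injective mk_eq_zero
  mk_smul)

open scoped Classical

section Map

variable {F : Type} [Field F] {V : Type} [AddCommGroup V] [Module F V] {ι ι' : Type}
  {B : V →ₗ[F] V →ₗ[F] F}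

/-- another set of indices -/
theorem one_map {S : Finset ι} (f : ι ↪ ι') {m' : ι' → F} {P' : ι' → V}
    (h : One (S.map f) m' B P' fun i j => i ≠ j) {m : ι → F} {Q : ι → V}
    (hm : ∀ i ∈ S, m i = m' (f i)) (hQ : ∀ i ∈ S, Q i = P' (f i)) :
    One S m B Q fun i j => i ≠ j := by
  have e1 : ∑ i ∈ S, m i = ∑ i ∈ S.map f, m' i := by
    rw [Finset.sum_map]
    exact Finset.sum_congr rfl hm
  refine
    { two := by rw [← Finset.card_map f]; exact h.two
      ne := fun i hi => by rw [hm i hi]; exact h.ne _ (Finset.mem_map_of_mem f hi)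
      neM := by rw [e1]; exact h.neM
      nz := fun h4 => ?_
      bsymm := h.bsymm
      span := fun x => ?_
      rel := ?_
      pair := fun i hi j hj => ?_
      irr := fun i j hij => hij
      symm := fun i j hij => Ne.symm hij
      conn := fun i hi j hj => ?_ }
  · obtain ⟨i', hi', j', hj', hij, hne⟩ := h.nz (by rw [Finset.card_map]; exact h4)
    obtain ⟨i, hi, rfl⟩ := Finset.mem_map.1 hi'
    obtain ⟨j, hj, rfl⟩ := Finset.mem_map.1 hj'
    refine ⟨i, hi, j, hj, fun e => hij (by rw [e]), ?_⟩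
    rw [hm i hi, hm j hj]
    exact hne
  · obtain ⟨c, hc⟩ := h.span x
    refine ⟨fun i => c (f i), ?_⟩
    rw [hc, Finset.sum_map]
    exact Finset.sum_congr rfl fun i hi => by rw [hQ i hi]
  · have h1 := h.rel
    rw [Finset.sum_map] at h1
    rw [← h1]
    exact Finset.sum_congr rfl fun i hi => by rw [hQ i hi, hm i hi]
  · have h1 := h.pair (f i) (Finset.mem_map_of_mem f hi) (f j) (Finset.mem_map_of_mem f hj)
    rw [hQ i hi, hQ j hj, h1, e1, hm i hi]
    congr 1
    by_cases hij : i = j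
    · rw [if_pos hij, if_pos (by rw [hij])]
    · rw [if_neg hij, if_neg fun e => hij (f.injective e)]
  · by_cases hij : i = j
    · rw [hij]
    · exact Relation.ReflTransGen.single ⟨hi, hj, hij⟩

end Map

section Red

variable {p : ℕ} [Fact p.Prime] {N : Type} [AddCommGroup N] [Module ℤ_[p] N]
  [Module.IsTorsionFree ℤ_[p] N] {z : Module.End ℤ_[p] N}

/-- the leading term -/
theorem red_of (hz : ∀ x, ∑ i ∈ Finset.range p, (z ^ i) x = 0) {r : Module.End ℤ_[p] N}
    (hr : ∀ x, r (z x) = z (r x)) (n : N → N) {a : Module.End (ZMod p) (Vr z)}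
    (ha : ∀ x, a (mk z x) = mk z (n x))
    (h : ∀ x, ∃ y, r x = x + lam z (n x) + (lam z ^ 2) y) :
    ∃ A, Red z A a ∧ r = 1 + lam z ^ 1 * A := by
  have hY : ∀ x, (r - 1) (z x) = z ((r - 1) x) := by
    intro x
    simp only [LinearMap.sub_apply, Module.End.one_apply, hr, map_sub]
  obtain ⟨A, hA, hrA⟩ := exists_div hz hY (k := 1) (fun x => by
    obtain ⟨y, hy⟩ := h x
    refine ⟨n x + lam z y, ?_⟩
    rw [LinearMap.sub_apply, Module.End.one_apply, hy, pow_one, pow_two, Module.End.mul_apply,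
      map_add]
    abel)
  refine ⟨A, ⟨hA, fun x => ?_⟩, ?_⟩
  · obtain ⟨y, hy⟩ := h x
    have h1 : A x = n x + lam z y := by
      refine lam_injective hz ?_
      have h2 : (r - 1) x = lam z (A x) := by
        rw [hrA, pow_one, Module.End.mul_apply]
      rw [← h2, LinearMap.sub_apply, Module.End.one_apply, hy, pow_two, Module.End.mul_apply,
        map_add]
      abel
    have h3 : mk z (lam z y) = 0 := (mk_eq_zero hz _).2 ⟨y, rfl⟩
    rw [h1, map_add, h3, add_zero]
    exact ha x
  · rw [← hrA]; abel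

/-- the operator `nop` -/
theorem red_nop (hp : p ≠ 2) (hz : ∀ x, ∑ i ∈ Finset.range p, (z ^ i) x = 0)
    {e : N →ₗ[ℤ_[p]] N →ₗ[ℤ_[p]] ℤ_[p]} (hi : ∀ x y, e (z x) (z y) = e x y)
    (hs : ∀ x y, e x y = -e y x)
    {B : Vr z →ₗ[ZMod p] Vr z →ₗ[ZMod p] ZMod p} (hB : RedForm z e B) (a : ℕ) (v x : N) :
    ((a : ZMod p) • ten B (mk z v) (mk z v)) (mk z x) = mk z (a • nop p z e v x) := by
  rw [LinearMap.smul_apply, ten, LinearMap.smulRight_apply, RedForm.symm hp hz hi hs hB,
    hB, map_nsmul, nop, mk_smul, Nat.cast_smul_eq_nsmul]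

end Red

end Pool.Agent.PTateU
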