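import Pool.Agent.PTate.Nondeg
import Pool.Agent.PTate.InvRank
import Pool.Agent.PTateU.Trans

/-!
# The leading terms
-/

set_option autoImplicit false

noncomputable section

namespace Pool.Agent.PTateU

open Pool.Agent.PTate
open scoped Classical

variable {K : Type} [Field K] {p : ℕ} [Fact p.Prime] {ι σ : Type} [Fintype ι]

/-- The scalar part of the operator of the pair `{i, j}`. -/
def kap (e : Option ι → ZMod p) (o : Option ι) (i j : ι) : ZMod p :=
  if o = some i then e (some j) else if o = some j then e (some i) else 0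

/-- The data of the graded Lie algebra of one curve. -/
theorem blk_of {e : Option ι → ZMod p} {o : Option ι} {ζ : K} {a : ι → K} {T : σ → Finset ι}
    (h : Cover p ζ a T e o) {V : Type} [AddCommGroup V] [Module (ZMod p) V]
    {B : V →ₗ[ZMod p] V →ₗ[ZMod p] ZMod p} {P : Option ι × ι → V}
    (hS : One (Sb e o) (fun q => (ex e q : ZMod p)) B P fun q q' => q ≠ q') :
    Blk o (Tb e) (fun i => e (some i)) B fun i => if o = some i then 0 else P (o, i) := by
  rw [Sb_map] at hS
  constructor
  · intro ho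
    have h1 : ((Tb e).filter fun i => o ≠ some i) = Tb e := by
      rw [Finset.filter_true_of_mem]
      intro i _
      rw [ho]
      simp
    rw [h1] at hS
    refine one_map _ hS (fun i _ => (ex_cast e (o, i)).symm) fun i _ => ?_
    rw [if_neg (by rw [ho]; simp)]
    rfl
  · intro b ho
    obtain ⟨h2, h3⟩ := h.base' ho
    have h1 : ((Tb e).filter fun i => o ≠ some i) = (Tb e).erase b := by
      ext i
      rw [ho]
      simp only [Finset.mem_filter, Finset.mem_erase, ne_eq, Option.some.injEq]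
      constructor
      · rintro ⟨h5, h6⟩
        exact ⟨fun e => h6 e.symm, h5⟩
      · rintro ⟨h5, h6⟩
        exact ⟨h6, fun e => h5 e.symm⟩
    refine ⟨mem_Tb.2 h2, ?_, ?_⟩
    · have h4 := h.sum'
      rw [Sb_map, h1, Finset.sum_map, ho] at h4
      simp only [ex_cast] at h4
      rw [eq_neg_iff_add_eq_zero]
      rw [eq_neg_iff_add_eq_zero, add_comm] at h4
      exact h4
    · rw [h1] at hS
      refine one_map _ hS (fun i _ => (ex_cast e (o, i)).symm) fun i hi => ?_
      rw [Finset.mem_erase] at hi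
      rw [if_pos ho, sub_zero, if_neg (by rw [ho]; simpa using Ne.symm hi.1)]
      rfl

variable {G : Type} [Group G] {N : Type} [AddCommGroup N] [Module ℤ_[p] N]
  [Module.IsTorsionFree ℤ_[p] N]

/-- the form on the reduction -/
theorem exists_one (hp : p ≠ 2) {ι' : Type} {S : Finset ι'} {m : ι' → ℕ}
    {z : Module.End ℤ_[p] N} {E : N →ₗ[ℤ_[p]] N →ₗ[ℤ_[p]] ℤ_[p]} {P : ι' → N}
    {adj : ι' → ι' → Prop} {ρ : G →* Module.End ℤ_[p] N} {χ : G →* ℤ_[p]ˣ}
    (h : RepP (fun _ : Unit => S) (fun _ => m) (fun _ => z) (fun _ => E) (fun _ => P) adj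
      (fun _ => ρ) χ) :
    ∃ B : Vr z →ₗ[ZMod p] Vr z →ₗ[ZMod p] ZMod p, RedForm z E B ∧
      One S (fun i => (m i : ZMod p)) B (fun i => mk z (P i)) adj := by
  obtain ⟨B, hB, hL⟩ := exists_lin hp h
  exact ⟨B (), hB (), hL.one ()⟩

/-- the leading term of the automorphism of the pair `{i, j}` -/
theorem real_abs (hp : p ≠ 2) {e : Option ι → ZMod p} {o : Option ι} {ζ : K} {a : ι → K}
    {T : σ → Finset ι} (h : Cover p ζ a T e o) {z : Module.End ℤ_[p] N}
    {E : N →ₗ[ℤ_[p]] N →ₗ[ℤ_[p]] ℤ_[p]} (h5 : ∀ x, ∑ i ∈ Finset.range p, (z ^ i) x = 0)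
    (h6 : ∀ x y, E (z x) (z y) = E x y) (h7 : ∀ x y, E x y = -E y x)
    {B : Vr z →ₗ[ZMod p] Vr z →ₗ[ZMod p] ZMod p} (hB : RedForm z E B)
    {P : Option ι × ι → N} {r : Module.End ℤ_[p] N} (hr : ∀ x, r (z x) = z (r x)) {i j : ι}
    (hij : i ≠ j)
    (g1 : o ≠ some i → o ≠ some j → ∀ x, ∃ y, r x = x + (if i ∈ Tb e ∧ j ∈ Tb e then
      lam z ((ex e (o, i) * ex e (o, j)) • nop p z E (P (o, i) - P (o, j)) x) else 0) +
        (lam z ^ 2) y)
    (g2 : ∀ i' j', (i' = i ∧ j' = j) ∨ (i' = j ∧ j' = i) → o = some j' → ∀ x, ∃ y,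
      r x = x + (if i' ∈ Tb e then lam z ((ex e (o, i') * ((p - 1) * ∑ l ∈ Sb e o, ex e l)) •
        nop p z E (P (o, i')) x - ex e (o, i') • x) else 0) + (lam z ^ 2) y) :
    ∃ A, Red z A (edg B (Tb e) (fun i => e (some i))
      (fun i => if o = some i then 0 else mk z (P (o, i))) i j - kap e o i j • 1) ∧
        r = 1 + lam z ^ 1 * A := by
  have hp0 := (Fact.out : p.Prime).pos
  have hcast : ∀ i' j' : ι, o = some j' →
      (((ex e (o, i') * ((p - 1) * ∑ l ∈ Sb e o, ex e l) : ℕ)) : ZMod p) =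
        e (some i') * e (some j') := by
    intro i' j' ho
    rw [Nat.cast_mul, Nat.cast_mul, Nat.cast_sum, h.sum', ex_cast, Nat.cast_sub (by omega),
      ZMod.natCast_self, Nat.cast_one, ho]
    ring
  by_cases hoi : o = some i
  · -- the base point is the first point
    have hne : o ≠ some j := by rw [hoi]; simpa using hij
    refine red_of h5 hr (fun x => if j ∈ Tb e then
      (ex e (o, j) * ((p - 1) * ∑ l ∈ Sb e o, ex e l)) • nop p z E (P (o, j)) x -
        ex e (o, j) • x else 0) (fun x => ?_) fun x => ?_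
    · by_cases hj : j ∈ Tb e
      · have h16 := red_nop hp h5 h6 h7 hB (ex e (o, j) * ((p - 1) * ∑ l ∈ Sb e o, ex e l))
          (P (o, j)) x
        rw [hcast j i hoi] at h16
        have hk : kap e o i j = e (some j) := if_pos hoi
        rw [if_pos hj, map_sub, ← h16, map_nsmul, edg, if_pos ⟨mem_Tb.2 (h.base' hoi).1, hj⟩,
          hk, LinearMap.sub_apply, LinearMap.smul_apply (e (some j)),
          Module.End.one_apply, if_pos hoi, if_neg hne, zero_sub,
          ← Nat.cast_smul_eq_nsmul (ZMod p), ex_cast]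
        congr 1
        simp only [LinearMap.smul_apply, ten_apply, map_neg, LinearMap.neg_apply, neg_smul,
          smul_neg, neg_neg]
        rw [mul_comm (e (some i))]
      · rw [if_neg hj, edg, if_neg fun hh => hj hh.2, kap, if_pos hoi,
          not_not.1 fun hh => hj (mem_Tb.2 hh), zero_smul, sub_zero, map_zero,
          LinearMap.zero_apply]
    · obtain ⟨y, hy⟩ := g2 j i (Or.inr ⟨rfl, rfl⟩) hoi x
      refine ⟨y, ?_⟩
      rw [hy]
      by_cases hj : j ∈ Tb e
      · rw [if_pos hj, if_pos hj]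
      · rw [if_neg hj, if_neg hj, map_zero]
  · by_cases hoj : o = some j
    · -- the base point is the second point
      refine red_of h5 hr (fun x => if i ∈ Tb e then
        (ex e (o, i) * ((p - 1) * ∑ l ∈ Sb e o, ex e l)) • nop p z E (P (o, i)) x -
          ex e (o, i) • x else 0) (fun x => ?_) fun x => ?_
      · by_cases hi : i ∈ Tb e
        · have h16 := red_nop hp h5 h6 h7 hB (ex e (o, i) * ((p - 1) * ∑ l ∈ Sb e o, ex e l))
            (P (o, i)) x
          rw [hcast i j hoj] at h16
          have hk : kap e o i j = e (some i) := (if_neg hoi).trans (if_pos hoj)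
          rw [if_pos hi, map_sub, ← h16, map_nsmul, edg, if_pos ⟨hi, mem_Tb.2 (h.base' hoj).1⟩,
            hk, LinearMap.sub_apply, LinearMap.smul_apply (e (some i)),
            Module.End.one_apply, if_neg hoi, if_pos hoj, sub_zero,
            ← Nat.cast_smul_eq_nsmul (ZMod p), ex_cast]
        · rw [if_neg hi, edg, if_neg fun hh => hi hh.1, kap, if_neg hoi, if_pos hoj,
            not_not.1 fun hh => hi (mem_Tb.2 hh), zero_smul, sub_zero, map_zero,
            LinearMap.zero_apply]
      · obtain ⟨y, hy⟩ := g2 i j (Or.inl ⟨rfl, rfl⟩) hoj x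
        refine ⟨y, ?_⟩
        rw [hy]
        by_cases hi : i ∈ Tb e
        · rw [if_pos hi, if_pos hi]
        · rw [if_neg hi, if_neg hi, map_zero]
    · -- the base point is another point
      refine red_of h5 hr (fun x => if i ∈ Tb e ∧ j ∈ Tb e then
        (ex e (o, i) * ex e (o, j)) • nop p z E (P (o, i) - P (o, j)) x else 0) (fun x => ?_)
          fun x => ?_
      · rw [kap, if_neg hoi, if_neg hoj, zero_smul, sub_zero, edg]
        by_cases hc : i ∈ Tb e ∧ j ∈ Tb e
        · rw [if_pos hc, if_pos hc, if_neg hoi, if_neg hoj]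
          have h16 := red_nop hp h5 h6 h7 hB (ex e (o, i) * ex e (o, j))
            (P (o, i) - P (o, j)) x
          rw [← h16, Nat.cast_mul, ex_cast, ex_cast, map_sub]
        · rw [if_neg hc, if_neg hc, map_zero, LinearMap.zero_apply]
      · obtain ⟨y, hy⟩ := g1 hoi hoj x
        refine ⟨y, ?_⟩
        rw [hy]
        by_cases hc : i ∈ Tb e ∧ j ∈ Tb e
        · rw [if_pos hc, if_pos hc]
        · rw [if_neg hc, if_neg hc, map_zero]

end Pool.Agent.PTateU
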