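import Pool.Agent.PTateU.GeoC
import Pool.Agent.PTateU.Lead

/-!
# The data of the Galois representation of one covering with a base point
-/

set_option autoImplicit false

noncomputable section

namespace Pool.Agent.PTateU

open Pool.Agent.PTate
open scoped Classical

variable {K : Type} [Field K] {L : Type} [Field L] [Algebra K L] {p : ℕ} [Fact p.Prime]
  {ι σ : Type} [Fintype ι]

/-- the automorphism which changes one root -/
theorem Cover.exists_gal [Algebra.IsAlgebraic K L] [IsAlgClosed L] (hp : p ≠ 2) {ζ : K}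
    (hζ : IsPrimitiveRoot ζ p) {a : ι → K} {T : σ → Finset ι} {ξ : ℕ → L} (hξ : IsRoots p ξ)
    (hξ1 : ξ 1 = algebraMap K L ζ) {i j : ι} (h : Free p ζ a T i j) :
    ∃ (g : L ≃ₐ[K] L) (r : ι → ι → L),
      (∃ w, ((chi L p g : ℤ_[p]ˣ) : ℤ_[p]) = 1 + (p : ℤ_[p]) ^ 2 * w) ∧
      (∀ u v, r u v ^ p = algebraMap K L (a u - a v)) ∧
      ∀ u v, (∃ s, u ∈ T s ∧ v ∈ T s) → g (r u v) = if (u = i ∧ v = j) ∨ (u = j ∧ v = i) then
        algebraMap K L ζ * r u v else r u v := by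
  have hp0 := (Fact.out : p.Prime).pos
  have hroot : ∀ x : L, ∃ r : L, r ^ p = x := fun x =>
    IsAlgClosed.exists_pow_nat_eq x hp0
  choose r hr using hroot
  have hw : ξ 2 ^ p = algebraMap K L ζ := by rw [← hξ1]; exact hξ.pow 1
  obtain ⟨g, hg1, hg2⟩ := exists_galois (L := L) hp hζ a T
    (fun u v => r (algebraMap K L (a u - a v))) (fun u v => hr _) hw h
  exact ⟨g, fun u v => r (algebraMap K L (a u - a v)), geo_chi hξ (by norm_num) hg1,
    fun u v => hr _, hg2⟩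

/-- all the data of one curve -/
theorem exists_data [Algebra.IsAlgebraic K L] [IsAlgClosed L] (hp : p ≠ 2) {ζ : K}
    (hζ : IsPrimitiveRoot ζ p) {a : ι → K} {T : σ → Finset ι} {e : Option ι → ZMod p}
    {o : Option ι} (h : Cover p ζ a T e o) {ξ : ℕ → L} (hξ : IsRoots p ξ)
    (hξ1 : ξ 1 = algebraMap K L ζ) :
    ∃ (_ : Module.Finite ℤ_[p] (Tm L p (pt a) (Sb e o) (ex e)))
      (z : Module.End ℤ_[p] (Tm L p (pt a) (Sb e o) (ex e)))
      (E : Tm L p (pt a) (Sb e o) (ex e) →ₗ[ℤ_[p]] Tm L p (pt a) (Sb e o) (ex e) →ₗ[ℤ_[p]]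
        ℤ_[p])
      (ρ : (L ≃ₐ[K] L) →* Module.End ℤ_[p] (Tm L p (pt a) (Sb e o) (ex e)))
      (B : Vr z →ₗ[ZMod p] Vr z →ₗ[ZMod p] ZMod p) (Q : ι → Vr z),
      (∃ τ : Co L p (Stm.eqn L (pt a) (Sb e o) (ex e)) ≃+*
          Co L p (Stm.eqn L (pt a) (Sb e o) (ex e)),
        (∀ c, τ (algebraMap L _ c) = algebraMap L _ c) ∧ τ (Co.x L p _) = Co.x L p _ ∧
          τ (Co.y L p _) = algebraMap L _ (ξ 1) * Co.y L p _ ∧ z = TM.map (J.map τ)) ∧
      (∀ g, ∃ τ : Co L p (Stm.eqn L (pt a) (Sb e o) (ex e)) ≃+*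
          Co L p (Stm.eqn L (pt a) (Sb e o) (ex e)),
        (∀ c, τ (algebraMap L _ c) = algebraMap L _ (g c)) ∧ τ (Co.x L p _) = Co.x L p _ ∧
          τ (Co.y L p _) = Co.y L p _ ∧ ρ g = TM.map (J.map τ)) ∧
      (∀ (t u : Tm L p (pt a) (Sb e o) (ex e)) (n : ℕ), 1 ≤ n →
        Stm.IsWeil (Co.x L p (Stm.eqn L (pt a) (Sb e o) (ex e))) (p ^ n)
          ((t : ℕ → J (Co L p (Stm.eqn L (pt a) (Sb e o) (ex e)))) n)
          ((u : ℕ → J (Co L p (Stm.eqn L (pt a) (Sb e o) (ex e)))) n)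
          (ξ n ^ (PadicInt.toZModPow n (E t u)).val)) ∧
      (∀ (n : ℕ) (c c' : J (Co L p (Stm.eqn L (pt a) (Sb e o) (ex e)))) (w w' : L), p ∣ n →
        Stm.IsWeil (Co.x L p _) n c c' w → Stm.IsWeil (Co.x L p _) n c c' w' → w = w') ∧
      (∀ x, ∑ i ∈ Finset.range p, (z ^ i) x = 0) ∧
      (∀ x y, E (z x) (z y) = E x y) ∧ (∀ x y, E x y = -E y x) ∧
      (∀ x, (∀ y, E x y = 0) → x = 0) ∧
      (∀ g x y, E (ρ g x) (ρ g y) = ((chi L p g : ℤ_[p]ˣ) : ℤ_[p]) * E x y) ∧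
      (∀ g x, ρ g (z x) = z (ρ g x)) ∧
      RedForm z E B ∧ Blk o (Tb e) (fun i => e (some i)) B Q ∧
      Module.finrank ℤ_[p] (Tm L p (pt a) (Sb e o) (ex e)) =
        ((Sb e o).card - 1) * (p - 1) ∧
      (∀ (i j : ι) (g : L ≃ₐ[K] L) (r : ι → ι → L), i ≠ j →
        (∀ u v, r u v ^ p = algebraMap K L (a u - a v)) →
        (∀ u ∈ Tb e, ∀ v ∈ Tb e, g (r u v) = if (u = i ∧ v = j) ∨ (u = j ∧ v = i) then
          algebraMap K L ζ * r u v else r u v) →
        ∃ A, Red z A (edg B (Tb e) (fun i => e (some i)) Q i j - kap e o i j • 1) ∧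
          ρ g = 1 + lam z ^ 1 * A) := by
  obtain ⟨hfin, z, E, P, ρ, h1, h2, h3, h4, h5, h6, h7, h8, h9, h10, h11, h12, h13, h14, h15⟩ :=
    geo_curve (L := L) hp hζ (pt a) h.inj (fun q hq => h.exponent hq) h.degree hξ hξ1
  have hp0 := (Fact.out : p.Prime).pos
  have hζp : algebraMap K L ζ ^ p = 1 := by
    rw [← map_pow, hζ.pow_eq_one, map_one]
  -- the automorphisms
  have hgal : ∀ i ∈ Tb e, ∀ j ∈ Tb e, i ≠ j → ∃ (g : L ≃ₐ[K] L) (r : ι → ι → L),
      (∃ w, ((chi L p g : ℤ_[p]ˣ) : ℤ_[p]) = 1 + (p : ℤ_[p]) ^ 2 * w) ∧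
      (∀ u v, r u v ^ p = algebraMap K L (a u - a v)) ∧
      ∀ u ∈ Tb e, ∀ v ∈ Tb e, g (r u v) = if (u = i ∧ v = j) ∨ (u = j ∧ v = i) then
        algebraMap K L ζ * r u v else r u v := by
    intro i hi j hj hij
    obtain ⟨s, hs⟩ := h.mem
    obtain ⟨g, r, g1, g2, g3⟩ := Cover.exists_gal hp hζ hξ hξ1 (h.free i hi j hj hij)
    exact ⟨g, r, g1, g2, fun u hu v hv => g3 u v ⟨s, hs hu, hs hv⟩⟩
  have hrep : RepP (fun _ : Unit => Sb e o) (fun _ => ex e) (fun _ => z) (fun _ => E)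
      (fun _ => P) (fun q q' => q ≠ q') (fun _ => ρ) (chi L p) :=
    { two := fun _ => h.two
      cop := fun _ q hq => h.exponent hq
      copM := fun _ => h.degree
      nz := fun _ h4 => h.nonzero hp h4
      sep := fun s t hst => absurd (Subsingleton.elim s t) hst
      zeta := fun _ => h5
      inv := fun _ => h6
      skew := fun _ => h7
      gen := fun _ => h8
      rel := fun _ => h9
      pair := fun _ q hq q' hq' m' n' hm hn => by
        obtain ⟨w, hw⟩ := h10 q hq q' hq' m' n' hm hn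
        exact ⟨w, hw⟩
      symm := fun _ _ hq => Ne.symm hq
      conn := fun _ q hq q' hq' => by
        by_cases hqq : q = q'
        · rw [hqq]
        · exact Relation.ReflTransGen.single ⟨hq, hq', hqq⟩
      sim := fun g _ x y => h11 g x y
      comm := fun g _ x => h12 g x
      mod1 := fun g _ x => h13 g x
      chi1 := by
        intro g
        obtain ⟨w, hw⟩ := geo_chi hξ (g := g) le_rfl (by rw [hξ1]; exact g.commutes ζ)
        exact ⟨w, by rw [hw, pow_one]⟩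
      edge := by
        intro q q' hqq
        refine ⟨hqq, ?_⟩
        by_cases hq : q ∈ Sb e o ∧ q' ∈ Sb e o
        · obtain ⟨hq1, hq2⟩ := hq
          have hm1 := mem_Sb.1 hq1
          have hm2 := mem_Sb.1 hq2
          have hij : q.2 ≠ q'.2 := fun hh => hqq (Prod.ext (hm1.1.trans hm2.1.symm) hh)
          obtain ⟨g, r, hg1, hr, hg⟩ := hgal q.2 (mem_Tb.2 hm1.2.2) q'.2 (mem_Tb.2 hm2.2.2) hij
          refine ⟨g, hg1, fun _ x => ?_⟩
          have hq3 : q = (o, q.2) := Prod.ext hm1.1 rfl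
          have hq4 : q' = (o, q'.2) := Prod.ext hm2.1 rfl
          refine h14 q q' g (rt r) hqq (fun u hu v hv => h.root hr hu hv) ?_ x
          intro u hu v hv
          have h16 := h.gal_edge hg hm1.2.1 hm2.2.1 hu hv
          rw [← hq3, ← hq4] at h16
          convert h16
        · refine ⟨1, ⟨0, by simp⟩, fun _ x => ⟨0, ?_⟩⟩
          rw [if_neg hq, map_one, map_zero, add_zero, add_zero]
          rfl }
  obtain ⟨B, hB, hone⟩ := exists_one hp hrep
  refine ⟨hfin, z, E, ρ, B, fun i => if o = some i then 0 else mk z (P (o, i)), h1, h2, h3, h4,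
    h5, h6, h7, fun x hx => hrep.nondeg hp () hx, h11, h12, hB, blk_of h hone,
    (hrep.finrank hp ()).2, ?_⟩
  -- the leading terms
  intro i j g r hij hr hg
  refine real_abs hp h h5 h6 h7 hB (h12 g) hij ?_ ?_
  · intro hoi hoj x
    obtain ⟨y, hy⟩ := h14 (o, i) (o, j) g (rt r) (fun hh => hij (Prod.mk.inj hh).2)
      (fun u hu v hv => h.root hr hu hv)
      (fun u hu v hv => by
        have h16 := h.gal_edge hg hoi hoj hu hv
        convert h16) x
    refine ⟨y, ?_⟩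
    rw [hy]
    have h16 : ((o, i) ∈ Sb e o ∧ (o, j) ∈ Sb e o) ↔ (i ∈ Tb e ∧ j ∈ Tb e) := by
      simp only [mem_Sb, mem_Tb]
      tauto
    by_cases hc : i ∈ Tb e ∧ j ∈ Tb e
    · rw [if_pos (h16.2 hc), if_pos hc]
    · rw [if_neg fun hh => hc (h16.1 hh), if_neg hc]
  · intro i' j' hij' ho x
    have hne : i' ≠ j' := by
      rcases hij' with ⟨rfl, rfl⟩ | ⟨rfl, rfl⟩
      · exact hij
      · exact Ne.symm hij
    have hg' : ∀ u ∈ Tb e, ∀ v ∈ Tb e, g (r u v) = if (u = i' ∧ v = j') ∨ (u = j' ∧ v = i') then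
        algebraMap K L ζ * r u v else r u v := by
      intro u hu v hv
      rw [hg u hu v hv]
      rcases hij' with ⟨rfl, rfl⟩ | ⟨rfl, rfl⟩
      · rfl
      · simp only [or_comm]
    have hst := fun (u : Option ι × ι) (hu : u ∈ Sb e o) (v : Option ι × ι) (hv : v ∈ Sb e o) =>
      h.gal_star hr hζp ho hg' hu hv
    by_cases hi : i' ∈ Tb e
    · rw [if_pos hi]
      refine h15 (o, i') g (rt r) (mem_Sb.2 ⟨rfl, by rw [ho]; simpa using Ne.symm hne,
        mem_Tb.1 hi⟩) (fun u hu v hv => h.root hr hu hv) (fun u hu v hv => ?_) x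
      have h16 := hst u hu v hv
      convert h16
    · rw [if_neg hi]
      have hnot : ∀ u ∈ Sb e o, u ≠ (o, i') := by
        intro u hu hh
        rw [hh, mem_Sb] at hu
        exact hi (mem_Tb.2 hu.2.2)
      obtain ⟨y, hy⟩ := h14 (o, i') (o, j') g (rt r) (fun hh => hne (Prod.mk.inj hh).2)
        (fun u hu v hv => h.root hr hu hv) (fun u hu v hv => by
          have h1 := hnot u hu
          have h2 := hnot v hv
          rw [hst u hu v hv, if_neg (by tauto), if_neg (by tauto)]) x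
      refine ⟨y, ?_⟩
      rw [hy, if_neg fun hh => hnot _ hh.1 rfl]

end Pool.Agent.PTateU
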