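import Pool.Agent.PTate.TateSu
import Pool.Agent.PTateU.GenT

/-!
# Tate forms are killed by the special unitary Lie algebras
-/

set_option autoImplicit false

noncomputable section

namespace Pool.Agent.PTateU

open Pool.Agent.PTate (Ty Adj lam Vr mk Red RedForm IsTateForm IsOp big IsLog exists_unit
  aeval_comm exists_log exists_div lam_injective mk_eq_zero der_log exists_red der_limit der_smul)

open scoped Classical

variable {p : ℕ} [Fact p.Prime] {σ G : Type} [Group G] {M : σ → Type}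
  [∀ s, AddCommGroup (M s)] [∀ s, Module ℤ_[p] (M s)]

/-- The data of representations: `M s` is the Tate module of a curve, `z s` the automorphism of
order `p`, `e s` the Weil pairing, `ρ s` the representation of the Galois group, `χ` the cyclotomic
character; the families of operators in `A` are leading terms of elements of the group. -/
structure RepG (z : ∀ s, Module.End ℤ_[p] (M s)) (e : ∀ s, M s →ₗ[ℤ_[p]] M s →ₗ[ℤ_[p]] ℤ_[p])
    (ρ : ∀ s, G →* Module.End ℤ_[p] (M s)) (χ : G →* ℤ_[p]ˣ)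
    (A : Set (∀ s, Module.End (ZMod p) (Vr (z s)))) : Prop where
  zeta : ∀ s x, ∑ i ∈ Finset.range p, (z s ^ i) x = 0
  inv : ∀ s x y, e s (z s x) (z s y) = e s x y
  skew : ∀ s x y, e s x y = -e s y x
  nondeg : ∀ s x, (∀ y, e s x y = 0) → x = 0
  sim : ∀ g s x y, e s (ρ s g x) (ρ s g y) = χ g * e s x y
  comm : ∀ g s x, ρ s g (z s x) = z s (ρ s g x)
  real : ∀ X ∈ A, ∃ g : G, ∀ s, ∃ A', Red (z s) A' (X s) ∧ ρ s g = 1 + lam (z s) ^ 1 * A'

private theorem grpGen_zero {N : Type} [AddCommGroup N] [Module ℤ_[p] N]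
    {z : Module.End ℤ_[p] N} : Red z (0 : Module.End ℤ_[p] N) 0 :=
  ⟨fun x => by simp, fun x => by simp⟩

/-- the elements of the graded Lie algebra are leading terms of elements of the group -/
theorem exists_gen [∀ s, Module.IsTorsionFree ℤ_[p] (M s)]
    {z : ∀ s, Module.End ℤ_[p] (M s)} {e : ∀ s, M s →ₗ[ℤ_[p]] M s →ₗ[ℤ_[p]] ℤ_[p]}
    {ρ : ∀ s, G →* Module.End ℤ_[p] (M s)} {χ : G →* ℤ_[p]ˣ}
    {A : Set (∀ s, Module.End (ZMod p) (Vr (z s)))} (h : RepG z e ρ χ A) {k : ℕ}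
    {X : ∀ s, Module.End (ZMod p) (Vr (z s))} (hX : Gen A k X) :
    ∃ g : G, (2 ≤ k → χ g = 1) ∧
      ∀ s, ∃ A, Red (z s) A (X s) ∧ ρ s g = 1 + lam (z s) ^ k * A := by
  have key : 1 ≤ k ∧ ∃ g : G, (2 ≤ k → χ g = 1) ∧
      ∀ s, ∃ A, Red (z s) A (X s) ∧ ρ s g = 1 + lam (z s) ^ k * A := by
    induction hX with
    | mem X hX =>
      refine ⟨le_rfl, ?_⟩
      obtain ⟨g, hg⟩ := h.real X hX
      exact ⟨g, fun h2 => absurd h2 (by norm_num), hg⟩
    | zero n =>
      refine ⟨Nat.succ_le_succ (Nat.zero_le n), 1, fun _ => map_one χ, fun s => ⟨0, grpGen_zero, ?_⟩⟩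
      rw [map_one, mul_zero, add_zero]
    | add n X Y _ _ hX hY =>
      obtain ⟨hn, g, hg, hX⟩ := hX
      obtain ⟨-, g', hg', hY⟩ := hY
      refine ⟨hn, g * g', fun h2 => by rw [map_mul, hg h2, hg' h2, one_mul], fun s => ?_⟩
      obtain ⟨A, hA, hrA⟩ := hX s
      obtain ⟨A', hA', hrA'⟩ := hY s
      obtain ⟨A'', h1, h2⟩ := Red.one_add_mul hn hA hA'
      exact ⟨A'', h1, by rw [map_mul, hrA, hrA', h2]⟩
    | smul n c X _ hX =>
      obtain ⟨hn, g, hg, hX⟩ := hX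
      refine ⟨hn, g ^ c.val, fun h2 => by rw [map_pow, hg h2, one_pow], fun s => ?_⟩
      obtain ⟨A, hA, hrA⟩ := hX s
      have h3 : ∀ t : ℕ, ∃ A', Red (z s) A' ((t : ZMod p) • X s) ∧
          ρ s (g ^ t) = 1 + lam (z s) ^ n * A' := by
        intro t
        induction t with
        | zero =>
          refine ⟨0, ?_, ?_⟩
          · rw [Nat.cast_zero, zero_smul]; exact grpGen_zero
          · rw [pow_zero, map_one, mul_zero, add_zero]
        | succ t ih =>
          obtain ⟨A', hA', hr'⟩ := ih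
          obtain ⟨A'', h1, h2⟩ := Red.one_add_mul hn hA' hA
          refine ⟨A'', ?_, ?_⟩
          · rw [Nat.cast_succ, add_smul, one_smul]; exact h1
          · rw [pow_succ, map_mul, hr', hrA, h2]
      obtain ⟨A', h1, h2⟩ := h3 c.val
      refine ⟨A', ?_, h2⟩
      rw [ZMod.natCast_zmod_val] at h1
      exact h1
    | lie n k X Y _ _ hX hY =>
      obtain ⟨hn, g, hg, hX⟩ := hX
      obtain ⟨hk, g', hg', hY⟩ := hY
      refine ⟨by omega, g * g' * g⁻¹ * g'⁻¹, fun _ => ?_, fun s => ?_⟩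
      · rw [map_mul, map_mul, map_mul, map_inv, map_inv, mul_right_comm, mul_inv_cancel_right]
        exact mul_inv_cancel _
      · obtain ⟨A, hA, hrA⟩ := hX s
        obtain ⟨A', hA', hrA'⟩ := hY s
        have e1 : ρ s g * ρ s g⁻¹ = 1 := by rw [← map_mul, mul_inv_cancel, map_one]
        have e2 : ρ s g⁻¹ * ρ s g = 1 := by rw [← map_mul, inv_mul_cancel, map_one]
        have e3 : ρ s g' * ρ s g'⁻¹ = 1 := by rw [← map_mul, mul_inv_cancel, map_one]
        have e4 : ρ s g'⁻¹ * ρ s g' = 1 := by rw [← map_mul, inv_mul_cancel, map_one]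
        obtain ⟨A'', h1, h2⟩ := Red.commutator hn hk hA hA' hrA hrA' e1 e2 e3 e4
          (h.comm _ s) (h.comm _ s)
        exact ⟨A'', h1, by rw [map_mul, map_mul, map_mul, h2]⟩
  exact key.2

private theorem opA_big_sub (n : ℕ) (X Y : ∀ s, Module.End ℤ_[p] (M s)) :
    big n (X - Y) = big n X - big n Y :=
  LinearMap.ext fun _ => rfl

private theorem opA_big_one (n : ℕ) :
    big n (1 : ∀ s, Module.End ℤ_[p] (M s)) = 1 :=
  LinearMap.ext fun _ => rfl

private theorem opA_big_pow (n : ℕ) (X : ∀ s, Module.End ℤ_[p] (M s)) (m : ℕ) :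
    big n (X ^ m) = big n X ^ m := by
  induction m with
  | zero => rw [pow_zero, pow_zero, opA_big_one]
  | succ m ih => rw [pow_succ, pow_succ, Pool.Agent.PTate.big_mul, ih]

variable {z : ∀ s, Module.End ℤ_[p] (M s)} {e : ∀ s, M s →ₗ[ℤ_[p]] M s →ₗ[ℤ_[p]] ℤ_[p]}
  {n r : ℕ} {F : MultilinearMap ℤ_[p] (fun _ : Fin r => Fin n → ∀ s, M s) ℚ_[p]}

/-- the logarithm of an element congruent to one modulo `(1 - z) ^ k` -/
private theorem opA_log (hp : p ≠ 2) {N : Type} [AddCommGroup N] [Module ℤ_[p] N]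
    [Module.Finite ℤ_[p] N] [Module.IsTorsionFree ℤ_[p] N] {z g : Module.End ℤ_[p] N}
    (hz : ∀ x, ∑ i ∈ Finset.range p, (z ^ i) x = 0) (hgz : ∀ x, g (z x) = z (g x)) {c k : ℕ}
    (hc : 1 ≤ c) (hkc : (p - 1) * c + k % (p - 1) = k) (hkr : k % (p - 1) < p - 1)
    {a : Module.End (ZMod p) (Vr z)} (hA : ∃ A, Red z A a ∧ g = 1 + lam z ^ k * A) :
    ∃ X, IsLog p g X ∧ ∃ A, Red z A a ∧ X = lam z ^ k * A := by
  obtain ⟨A, hA1, hA2⟩ := hA
  obtain ⟨q, q', hq1, hq2⟩ := exists_unit hz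
  set Q := Polynomial.aeval z q
  set Q' := Polynomial.aeval z q'
  have hlz : ∀ x, lam z (z x) = z (lam z x) := by
    intro x
    simp only [lam, LinearMap.sub_apply, Module.End.one_apply, map_sub]
  have hQl : Commute (lam z) Q := aeval_comm hlz q
  have hQl' : Commute (lam z) Q' := aeval_comm hlz q'
  have h1 : lam z ^ (p - 1) = (p : ℤ_[p]) • Q' := by
    have h2 : ((p : ℤ_[p]) • (1 : Module.End ℤ_[p] N)) * Q' = lam z ^ (p - 1) := by
      rw [hq2, mul_assoc, hq1, mul_one]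
    rw [← h2, smul_mul_assoc, one_mul]
  have h2 : lam z ^ k = (p : ℤ_[p]) ^ c • (Q' ^ c * lam z ^ (k % (p - 1))) := by
    conv_lhs => rw [← hkc]
    rw [pow_add, pow_mul, h1, smul_pow, smul_mul_assoc]
  obtain ⟨X, Z, hX1, hX2⟩ := exists_log hp hc
    (g := g) (Y := Q' ^ c * lam z ^ (k % (p - 1)) * A) (by
      rw [hA2, h2, smul_mul_assoc])
  refine ⟨X, hX1, ?_⟩
  have h3 : (p : ℤ_[p]) ^ c • (Q' ^ c * lam z ^ (k % (p - 1)) * A) = lam z ^ k * A := by
    rw [h2, smul_mul_assoc]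
  have h4 : (p : ℤ_[p]) ^ (2 * c) • Z = lam z ^ ((p - 1) * (2 * c)) * (Q ^ (2 * c) * Z) := by
    have h5 : (p : ℤ_[p]) ^ (2 * c) • (1 : Module.End ℤ_[p] N) =
        lam z ^ ((p - 1) * (2 * c)) * Q ^ (2 * c) := by
      have h6 : ((p : ℤ_[p]) • (1 : Module.End ℤ_[p] N)) ^ (2 * c) =
          (p : ℤ_[p]) ^ (2 * c) • (1 : Module.End ℤ_[p] N) := by
        rw [smul_pow, one_pow]
      rw [← h6, hq2, (hQl.pow_left _).mul_pow, ← pow_mul]
    rw [← mul_assoc, ← h5, smul_mul_assoc, one_mul]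
  obtain ⟨l, hl⟩ : ∃ l, (p - 1) * (2 * c) = k + (1 + l) := by
    have h5 : k + 1 ≤ (p - 1) * (2 * c) := by
      have h6 : (p - 1) * 1 ≤ (p - 1) * c := Nat.mul_le_mul_left _ hc
      have h7 : (p - 1) * (2 * c) = (p - 1) * c + (p - 1) * c := by ring
      omega
    exact ⟨(p - 1) * (2 * c) - (k + 1), by omega⟩
  have h5 : X = lam z ^ k * (A + lam z * (lam z ^ l * (Q ^ (2 * c) * Z))) := by
    rw [hX2, h3, h4, hl, mul_add, pow_add, pow_add, pow_one]
    simp only [mul_assoc]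
  have hXz : ∀ x, X (z x) = z (X x) := by
    have h6 : z * g = g * z := LinearMap.ext fun x => (hgz x).symm
    have h7 := hX1.comm h6
    exact fun x => (LinearMap.congr_fun h7 x).symm
  obtain ⟨A', hA'1, hA'2⟩ := exists_div hz hXz (k := k) fun x => ⟨_, by rw [h5]; rfl⟩
  refine ⟨A', ⟨hA'1, fun x => ?_⟩, hA'2⟩
  have hinj : Function.Injective (lam z ^ k) := by
    rw [Module.End.coe_pow]
    exact (lam_injective hz).iterate k
  have h6 : A' x = A x + lam z ((lam z ^ l * (Q ^ (2 * c) * Z)) x) := by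
    apply hinj
    have h7 : lam z ^ k * A' = lam z ^ k * (A + lam z * (lam z ^ l * (Q ^ (2 * c) * Z))) := by
      rw [← hA'2, ← h5]
    exact LinearMap.congr_fun h7 x
  rw [h6, map_add, (mk_eq_zero hz (lam z _)).2 ⟨_, rfl⟩, add_zero]
  exact hA1.2 x

variable [Fintype σ] [∀ s, Module.Finite ℤ_[p] (M s)]
  [∀ s, Module.IsTorsionFree ℤ_[p] (M s)]

/-- the elements of the graded Lie algebra are leading terms of operators which kill `F` -/
theorem exists_op (hp : p ≠ 2) {ρ : ∀ s, G →* Module.End ℤ_[p] (M s)} {χ : G →* ℤ_[p]ˣ}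
    {A : Set (∀ s, Module.End (ZMod p) (Vr (z s)))} (h : RepG z e ρ χ A)
    {j : ℕ} (hF : IsTateForm ρ χ j F) {k : ℕ}
    (hk : p - 1 ≤ k) {a : ∀ s, Module.End (ZMod p) (Vr (z s))} (ha : Gen A k a) :
    ∃ X, IsOp z e F X ∧ ∀ s, ∃ A, Red (z s) A (a s) ∧ X s = lam (z s) ^ k * A := by
  have hp2 : 2 ≤ p := (Fact.out : p.Prime).two_le
  have hp3 : 3 ≤ p := by omega
  obtain ⟨g, hg1, hg2⟩ := exists_gen h ha
  have hχ : χ g = 1 := hg1 (by omega)
  set c := k / (p - 1) with hc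
  have hc1 : 1 ≤ c := (Nat.one_le_div_iff (by omega)).2 hk
  have hkc : (p - 1) * c + k % (p - 1) = k := Nat.div_add_mod k (p - 1)
  have hkr : k % (p - 1) < p - 1 := Nat.mod_lt k (by omega)
  have hX := fun s => opA_log hp (h.zeta s) (fun x => h.comm g s x) hc1 hkc hkr (hg2 s)
  choose X hX1 hX2 using hX
  refine ⟨X, ⟨fun s x => ?_, fun s => ?_, ?_⟩, hX2⟩
  · obtain ⟨A, hA, e1⟩ := hX2 s
    have h1 : Commute (lam (z s) ^ k * A) (z s) := by
      apply Commute.mul_left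
      · exact ((Commute.one_left (z s)).sub_left (Commute.refl (z s))).pow_left k
      · exact LinearMap.ext hA.1
    rw [e1]
    exact LinearMap.congr_fun h1 x
  · apply (hX1 s).skew
    intro x y
    rw [h.sim g s x y, hχ]
    simp
  · obtain ⟨U, hU, hUF⟩ := hF
    obtain ⟨d, hd, -, hdU⟩ := Subgroup.exists_pow_mem_of_index_ne_zero hU.index_ne_zero g
    have hlog : IsLog p (big n fun s => ρ s g) (big n X) := by
      intro m
      choose R hR using fun s => hX1 s m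
      refine ⟨big n R, ?_⟩
      rw [← opA_big_pow, ← Pool.Agent.PTate.big_smul, ← Pool.Agent.PTate.big_smul, ← opA_big_one, ← Pool.Agent.PTate.big_add, ← Pool.Agent.PTate.big_add]
      congr 1
      funext s
      exact hR s
    refine der_log F hlog hd fun m v => ?_
    have hgU : g ^ (d * p ^ m) ∈ U := by
      rw [pow_mul]
      exact U.pow_mem hdU _
    have h1 := hUF _ hgU v
    have h2 : χ (g ^ (d * p ^ m)) = 1 := by rw [map_pow, hχ, one_pow]
    rw [h2] at h1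
    simp only [Units.val_one, one_pow, PadicInt.coe_one, one_mul] at h1
    rw [← h1]
    congr 1
    funext i
    rw [← opA_big_pow]
    funext b s
    change ((fun s => ρ s g) ^ (d * p ^ m)) s (v i b s) = _
    rw [Pi.pow_apply, map_pow]

/-- operators of trace zero -/
theorem exists_op_trace (hp : p ≠ 2) {ρ : ∀ s, G →* Module.End ℤ_[p] (M s)} {χ : G →* ℤ_[p]ˣ}
    {A : Set (∀ s, Module.End (ZMod p) (Vr (z s)))} (h : RepG z e ρ χ A)
    {B : ∀ s, Vr (z s) →ₗ[ZMod p] Vr (z s) →ₗ[ZMod p] ZMod p} (hL : LinG B A) {j : ℕ}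
    (hF : IsTateForm ρ χ j F) : ∃ k₀, ∀ k, k₀ ≤ k → ∀ a : ∀ s, Module.End (ZMod p) (Vr (z s)),
      (∀ s, Ty (B s) k (a s) ∧ LinearMap.trace (ZMod p) (Vr (z s)) (a s) = 0) →
        ∃ X, IsOp z e F X ∧ (∀ s i, LinearMap.trace ℤ_[p] (M s) (z s ^ i * X s) = 0) ∧
          ∀ s, ∃ A, Red (z s) A (a s) ∧ X s = lam (z s) ^ k * A := by
  have h2 : (2 : ZMod p) ≠ 0 := by
    have hp' := (Fact.out : p.Prime)
    intro h0
    have h1 : ((2 : ℕ) : ZMod p) = 0 := by exact_mod_cast h0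
    rw [ZMod.natCast_eq_zero_iff] at h1
    exact hp ((Nat.prime_dvd_prime_iff_eq hp' Nat.prime_two).1 h1)
  obtain ⟨k₀, hk₀⟩ := lin_bracket h2 hL (p - 1)
  refine ⟨k₀, fun k hk a ha => ?_⟩
  refine Submodule.span_induction (p := fun a _ => ∃ X, IsOp z e F X ∧
    (∀ s i, LinearMap.trace ℤ_[p] (M s) (z s ^ i * X s) = 0) ∧
      ∀ s, ∃ A, Red (z s) A (a s) ∧ X s = lam (z s) ^ k * A) ?_ ?_ ?_ ?_ (hk₀ k hk a ha)
  · rintro _ ⟨l, l', b, c, hl, hl', rfl, hb, hc, rfl⟩
    obtain ⟨X, hX, hX'⟩ := exists_op hp h hF hl hb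
    obtain ⟨Y, hY, hY'⟩ := exists_op hp h hF hl' hc
    obtain ⟨h3, h4⟩ := hX.lie hY
    refine ⟨_, h3, h4, fun s => ?_⟩
    obtain ⟨A, hA, hXA⟩ := hX' s
    obtain ⟨A', hA', hYA⟩ := hY' s
    refine ⟨A * A' - A' * A, (hA.mul hA').sub (hA'.mul hA), ?_⟩
    have hcl : ∀ {A : Module.End ℤ_[p] (M s)}, (∀ x, A (z s x) = z s (A x)) → ∀ i,
        A * lam (z s) ^ i = lam (z s) ^ i * A := by
      intro A hA i
      have h5 : Commute A (z s) := LinearMap.ext hA
      exact ((Commute.one_right A).sub_right h5).pow_right i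
    rw [Pi.sub_apply, Pi.mul_apply, Pi.mul_apply, hXA, hYA, mul_sub]
    congr 1
    · rw [mul_assoc, ← mul_assoc A, hcl hA.1, mul_assoc, ← mul_assoc, ← pow_add]
    · rw [mul_assoc, ← mul_assoc A', hcl hA'.1, mul_assoc, ← mul_assoc, ← pow_add, add_comm]
  · refine ⟨0, ⟨fun s x => by simp, fun s x y => by simp, fun v => ?_⟩, fun s i => by simp,
      fun s => ⟨0, ⟨fun x => by simp, fun x => by simp⟩, by simp⟩⟩
    have h3 := der_smul F 0 (big n (0 : ∀ s, Module.End ℤ_[p] (M s))) v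
    have h4 : big n (0 : ∀ s, Module.End ℤ_[p] (M s)) = 0 := LinearMap.ext fun _ => rfl
    rw [h4] at h3 ⊢
    rw [zero_smul] at h3
    rw [h3, PadicInt.coe_zero, zero_mul]
  · rintro a b - - ⟨X, hX, hX', hX''⟩ ⟨Y, hY, hY', hY''⟩
    refine ⟨X + Y, hX.add hY, fun s i => ?_, fun s => ?_⟩
    · rw [Pi.add_apply, mul_add, map_add, hX', hY', add_zero]
    · obtain ⟨A, hA, hXA⟩ := hX'' s
      obtain ⟨A', hA', hYA⟩ := hY'' s
      exact ⟨A + A', hA.add hA', by rw [Pi.add_apply, hXA, hYA, mul_add]⟩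
  · rintro c a - ⟨X, hX, hX', hX''⟩
    refine ⟨(c.val : ℤ_[p]) • X, hX.smul _, fun s i => ?_, fun s => ?_⟩
    · rw [Pi.smul_apply, mul_smul_comm, map_smul, hX', smul_zero]
    · obtain ⟨A, hA, hXA⟩ := hX'' s
      refine ⟨(c.val : ℤ_[p]) • A, ?_, by rw [Pi.smul_apply, hXA, mul_smul_comm]⟩
      have h3 := hA.smul (c.val : ℤ_[p])
      rw [map_natCast, ZMod.natCast_zmod_val] at h3
      exact h3

private theorem tateSu_lam_z {N : Type} [AddCommGroup N] [Module ℤ_[p] N]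
    (z : Module.End ℤ_[p] N) (n : ℕ) : Commute (lam z ^ n) z := by
  have h : Commute (lam z) z := (Commute.one_left z).sub_left (Commute.refl z)
  exact h.pow_left n

private theorem tateSu_start {N : Type} [AddCommGroup N] [Module ℤ_[p] N]
    [Module.IsTorsionFree ℤ_[p] N] {z : Module.End ℤ_[p] N}
    (hz : ∀ x, ∑ i ∈ Finset.range p, (z ^ i) x = 0) {X : Module.End ℤ_[p] N}
    (hX : ∀ x, X (z x) = z (X x)) (k : ℕ) :
    ∃ A : Module.End ℤ_[p] N, (∀ x, A (z x) = z (A x)) ∧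
      (p : ℤ_[p]) ^ k • X = lam z ^ k * A := by
  obtain ⟨q, q', h1, h2⟩ := exists_unit (p := p) hz
  set Q : Module.End ℤ_[p] N := Polynomial.aeval z q with hQ
  have hp : 1 ≤ p - 1 := by
    have := (Fact.out : p.Prime).two_le
    omega
  obtain ⟨d, hd⟩ := Nat.exists_eq_add_of_le hp
  have hQz : Commute Q z := by
    have := aeval_comm (z := z) (A := z) (fun _ => rfl) q
    exact this.symm
  have hlz := tateSu_lam_z (p := p) z
  have hQl : Commute Q (lam z) := (Commute.one_right Q).sub_right hQz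
  have hXz : Commute X z := LinearMap.ext hX
  refine ⟨(lam z ^ d * Q) ^ k * X, ?_, ?_⟩
  · have h3 : Commute ((lam z ^ d * Q) ^ k * X) z :=
      (((hlz d).mul_left hQz).pow_left k).mul_left hXz
    exact fun x => LinearMap.congr_fun h3 x
  · have h4 : (p : ℤ_[p]) ^ k • (1 : Module.End ℤ_[p] N) = lam z ^ k * (lam z ^ d * Q) ^ k := by
      have h5 : Commute (lam z) (lam z ^ d * Q) :=
        ((Commute.refl (lam z)).pow_right d).mul_right hQl.symm
      rw [← h5.mul_pow, ← mul_assoc, ← pow_succ', add_comm d 1, ← hd, ← h2, smul_pow, one_pow]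
    rw [← mul_assoc, ← h4, smul_mul_assoc, one_mul]

private theorem tateSu_end {N : Type} [AddCommGroup N] [Module ℤ_[p] N]
    [Module.IsTorsionFree ℤ_[p] N] {z : Module.End ℤ_[p] N}
    (hz : ∀ x, ∑ i ∈ Finset.range p, (z ^ i) x = 0) (n k : ℕ) (A : Module.End ℤ_[p] N) :
    ∃ R : Module.End ℤ_[p] N, lam z ^ (k + n * (p - 1)) * A = (p : ℤ_[p]) ^ n • R := by
  obtain ⟨q, q', h1, h2⟩ := exists_unit (p := p) hz
  have h3 : lam z ^ (p - 1) = (p : ℤ_[p]) • Polynomial.aeval z q' := by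
    calc lam z ^ (p - 1) = lam z ^ (p - 1) * (Polynomial.aeval z q * Polynomial.aeval z q') := by
          rw [h1, mul_one]
      _ = (p : ℤ_[p]) • Polynomial.aeval z q' := by
          rw [← mul_assoc, ← h2, smul_mul_assoc, one_mul]
  refine ⟨(Polynomial.aeval z q') ^ n * (lam z ^ k * A), ?_⟩
  rw [add_comm, pow_add, mul_comm n, pow_mul, h3, smul_pow, smul_mul_assoc, smul_mul_assoc,
    mul_assoc]

/-- A Tate form is killed by the product of the special unitary Lie algebras. -/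
theorem tate_su (hp : p ≠ 2) {z : ∀ s, Module.End ℤ_[p] (M s)}
    {e : ∀ s, M s →ₗ[ℤ_[p]] M s →ₗ[ℤ_[p]] ℤ_[p]}
    {ρ : ∀ s, G →* Module.End ℤ_[p] (M s)} {χ : G →* ℤ_[p]ˣ}
    {A : Set (∀ s, Module.End (ZMod p) (Vr (z s)))} (h : RepG z e ρ χ A)
    {B : ∀ s, Vr (z s) →ₗ[ZMod p] Vr (z s) →ₗ[ZMod p] ZMod p}
    (hB : ∀ s, RedForm (z s) (e s) (B s)) (hL : LinG B A) {n r j : ℕ}
    (F : MultilinearMap ℤ_[p] (fun _ : Fin r => Fin n → ∀ s, M s) ℚ_[p])
    (hF : IsTateForm ρ χ j F) (X : ∀ s, Module.End ℤ_[p] (M s))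
    (h1 : ∀ s x, X s (z s x) = z s (X s x))
    (h2 : ∀ s x y, e s (X s x) y + e s x (X s y) = 0)
    (h3 : ∀ s i, LinearMap.trace ℤ_[p] (M s) (z s ^ i * X s) = 0)
    (v : Fin r → Fin n → ∀ s, M s) :
    ∑ l, F (Function.update v l fun a s => X s (v l a s)) = 0 := by
  obtain ⟨k₀, hk⟩ := exists_op_trace hp h hL hF
  have key : ∀ N : ℕ, ∃ Y : ∀ s, Module.End ℤ_[p] (M s), IsOp z e F Y ∧
      (∀ s i, LinearMap.trace ℤ_[p] (M s) (z s ^ i * Y s) = 0) ∧
      ∀ s, ∃ A : Module.End ℤ_[p] (M s), (∀ x, A (z s x) = z s (A x)) ∧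
        (p : ℤ_[p]) ^ k₀ • X s - Y s = lam (z s) ^ (k₀ + N) * A := by
    intro N
    induction N with
    | zero =>
      refine ⟨0, ⟨fun s x => ?_, fun s x y => ?_, fun w => ?_⟩, fun s i => ?_, fun s => ?_⟩
      · simp
      · simp
      · refine Finset.sum_eq_zero fun l _ => ?_
        refine F.map_update_zero w l
      · simp
      · obtain ⟨A, hA, hA'⟩ := tateSu_start (p := p) (h.zeta s) (h1 s) k₀
        exact ⟨A, hA, by rw [Pi.zero_apply, sub_zero, hA', add_zero]⟩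
    | succ N ih =>
      obtain ⟨Y, hY, hYt, hYA⟩ := ih
      choose A hAz hA using hYA
      choose a ha using fun s => exists_red (p := p) (hAz s)
      have hD : ∀ s x y, e s (((p : ℤ_[p]) ^ k₀ • X s - Y s) x) y +
          e s x (((p : ℤ_[p]) ^ k₀ • X s - Y s) y) = 0 := by
        intro s x y
        have e1 := h2 s x y
        have e2 := hY.skew s x y
        simp only [LinearMap.sub_apply, LinearMap.smul_apply, map_sub, map_smul, smul_eq_mul]
        linear_combination (p : ℤ_[p]) ^ k₀ * e1 - e2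
      have hDt : ∀ s i, LinearMap.trace ℤ_[p] (M s)
          (z s ^ i * ((p : ℤ_[p]) ^ k₀ • X s - Y s)) = 0 := by
        intro s i
        rw [mul_sub, mul_smul_comm, map_sub, map_smul, h3, hYt, smul_zero, sub_zero]
      obtain ⟨X', hX', hXt, hXA⟩ := hk (k₀ + N) (Nat.le_add_right _ _) a fun s =>
        ⟨(hB s).ty (h.zeta s) (h.inv s) (hD s) (hA s) (ha s),
          Red.trace_zero (h.zeta s) (hDt s) (hA s) (ha s)⟩
      choose A' hA' hXA' using hXA
      refine ⟨Y + X', hY.add hX', fun s i => ?_, fun s => ?_⟩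
      · rw [Pi.add_apply, mul_add, map_add, hYt, hXt, add_zero]
      · have h4 := (ha s).sub (hA' s)
        rw [sub_self] at h4
        obtain ⟨A'', h5, h6⟩ := h4.eq_zero (h.zeta s)
        refine ⟨A'', h5, ?_⟩
        rw [Pi.add_apply, ← sub_sub, hA s, hXA' s, ← mul_sub, h6, ← mul_assoc, ← pow_succ,
          add_assoc]
  refine der_limit F (X := big n X) k₀ (fun n' => ?_) v
  obtain ⟨Y, hY, -, hYA⟩ := key (n' * (p - 1))
  choose A hAz hA using hYA
  choose R hR using fun s => tateSu_end (p := p) (h.zeta s) n' k₀ (A s)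
  refine ⟨big n Y, big n R, hY.der, ?_⟩
  rw [← Pool.Agent.PTate.big_smul, ← Pool.Agent.PTate.big_smul, ← Pool.Agent.PTate.big_add]
  congr 1
  funext s
  rw [Pi.add_apply, Pi.smul_apply, Pi.smul_apply, ← hR s, ← hA s]
  abel

end Pool.Agent.PTateU
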