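import Pool.Agent.PTate.InvMain
import Pool.Agent.PTateU.RepU

/-!
# The structure of Tate forms
-/

set_option autoImplicit false

noncomputable section

namespace Pool.Agent.PTateU

open Pool.Agent.PTate (Vr RedForm IsTateForm IsTateE IsProd IsDet inv_form span_eigen)

open scoped Classical

variable {p : ℕ} [Fact p.Prime] {σ G : Type} [Group G] {M : σ → Type}
  [∀ s, AddCommGroup (M s)] [∀ s, Module ℤ_[p] (M s)]

section Aux

variable {z : ∀ s, Module.End ℤ_[p] (M s)}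
  {e : ∀ s, M s →ₗ[ℤ_[p]] M s →ₗ[ℤ_[p]] ℤ_[p]}
  {ρ : ∀ s, G →* Module.End ℤ_[p] (M s)} {χ : G →* ℤ_[p]ˣ}
  {A : Set (∀ s, Module.End (ZMod p) (Vr (z s)))}

private theorem invMain_comm (h : RepG z e ρ χ A) (g : G) (s : σ) (i : ℕ) (x : M s) :
    (z s ^ i) (ρ s g x) = ρ s g ((z s ^ i) x) := by
  induction i with
  | zero => rfl
  | succ i ih => rw [pow_succ', Module.End.mul_apply, ih, ← h.comm, Module.End.mul_apply]

private theorem invMain_pair (h : RepG z e ρ χ A) (g : G) (s : σ) (i : ℕ) (x y : M s) :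
    e s ((z s ^ i) (ρ s g x)) (ρ s g y) = χ g * e s ((z s ^ i) x) y := by
  rw [invMain_comm h, h.sim]

/-- The products of pairings and determinants are simultaneous eigenvectors. -/
private theorem invMain_eigen [∀ s, Module.Finite ℤ_[p] (M s)]
    [∀ s, Module.IsTorsionFree ℤ_[p] (M s)] (hp : p ≠ 2) (h : RepG z e ρ χ A)
    {E : Type} [Field E] [CharZero E] [Algebra ℤ_[p] E] {ζ : E} (hζ : IsPrimitiveRoot ζ p)
    {n r : ℕ} {g : (Fin r → Fin n → ∀ s, M s) → E} (hg : IsProd z e ζ g) (γ : G) :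
    ∃ c : E, ∀ v, g (fun i a s => ρ s γ (v i a s)) = c * g v := by
  obtain ⟨k, l, s, i, t, d, D, π, β, hD, hv⟩ := hg
  have h1 : ∀ u, ∃ c : E, ∀ w, D u (fun i => ρ (t u) γ (w i)) = c * D u w := fun u =>
    IsDet.mul hp (h.zeta (t u)) (h.inv (t u)) (h.skew (t u)) (fun x hx => h.nondeg (t u) x hx)
      hζ (hD u) fun x => h.comm γ (t u) x
  choose c hc using h1
  refine ⟨(∏ _a : Fin k, algebraMap ℤ_[p] E (χ γ)) * ∏ u, c u, fun v => ?_⟩
  rw [hv, hv]
  have h2 : ∀ a : Fin k, algebraMap ℤ_[p] E (e (s a)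
      ((z (s a) ^ i a) (ρ (s a) γ (v (π (.inl (a, true))) (β (π (.inl (a, true)))) (s a))))
      (ρ (s a) γ (v (π (.inl (a, false))) (β (π (.inl (a, false)))) (s a)))) =
      algebraMap ℤ_[p] E (χ γ) * algebraMap ℤ_[p] E (e (s a)
        ((z (s a) ^ i a) (v (π (.inl (a, true))) (β (π (.inl (a, true)))) (s a)))
        (v (π (.inl (a, false))) (β (π (.inl (a, false)))) (s a))) := by
    intro a
    rw [invMain_pair h, map_mul]
  have h3 : ∀ u : Fin l, D u (fun j => ρ (t u) γ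
      (v (π (.inr ⟨u, j⟩)) (β (π (.inr ⟨u, j⟩))) (t u))) =
      c u * D u fun j => v (π (.inr ⟨u, j⟩)) (β (π (.inr ⟨u, j⟩))) (t u) := fun u =>
    hc u _
  rw [Finset.prod_congr rfl fun a _ => h2 a, Finset.prod_congr rfl fun u _ => h3 u,
    Finset.prod_mul_distrib, Finset.prod_mul_distrib]
  ring

private theorem invMain_alg {E : Type} [Field E] [Algebra ℤ_[p] E] [Algebra ℚ_[p] E]
    [IsScalarTower ℤ_[p] ℚ_[p] E] (x : ℤ_[p]) :
    algebraMap ℚ_[p] E (x : ℚ_[p]) = algebraMap ℤ_[p] E x :=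
  (IsScalarTower.algebraMap_apply ℤ_[p] ℚ_[p] E x).symm

/-- The Tate functions are a subspace. -/
private theorem invMain_span {E : Type} [Field E] [Algebra ℤ_[p] E] {n r j : ℕ}
    {S' : Set ((Fin r → Fin n → ∀ s, M s) → E)} (hS : ∀ g ∈ S', IsTateE ρ χ j g)
    {f : (Fin r → Fin n → ∀ s, M s) → E} (hf : f ∈ Submodule.span E S') : IsTateE ρ χ j f := by
  induction hf using Submodule.span_induction with
  | mem g hg => exact hS g hg
  | zero => exact ⟨⊤, inferInstance, fun g _ v => by simp⟩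
  | add f g _ _ hf hg =>
    obtain ⟨U, hU, hU'⟩ := hf
    obtain ⟨V, hV, hV'⟩ := hg
    refine ⟨U ⊓ V, inferInstance, fun g' hg' v => ?_⟩
    rw [Pi.add_apply, Pi.add_apply, hU' g' hg'.1, hV' g' hg'.2, mul_add]
  | smul c f _ hf =>
    obtain ⟨U, hU, hU'⟩ := hf
    refine ⟨U, hU, fun g' hg' v => ?_⟩
    rw [Pi.smul_apply, Pi.smul_apply, hU' g' hg', smul_eq_mul, smul_eq_mul]
    ring

end Aux

/-- **The structure of Tate forms**: they are the linear combinations of the products of pairings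
and determinants which are Tate forms. -/
theorem tate_iff [Fintype σ] [∀ s, Module.Finite ℤ_[p] (M s)]
    [∀ s, Module.IsTorsionFree ℤ_[p] (M s)] (hp : p ≠ 2) {z : ∀ s, Module.End ℤ_[p] (M s)}
    {e : ∀ s, M s →ₗ[ℤ_[p]] M s →ₗ[ℤ_[p]] ℤ_[p]} {ρ : ∀ s, G →* Module.End ℤ_[p] (M s)}
    {χ : G →* ℤ_[p]ˣ} {A : Set (∀ s, Module.End (ZMod p) (Vr (z s)))} (h : RepG z e ρ χ A)
    {B : ∀ s, Vr (z s) →ₗ[ZMod p] Vr (z s) →ₗ[ZMod p] ZMod p}
    (hB : ∀ s, RedForm (z s) (e s) (B s)) (hL : LinG B A) {E : Type} [Field E] [CharZero E]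
    [Algebra ℤ_[p] E] [Algebra ℚ_[p] E] [IsScalarTower ℤ_[p] ℚ_[p] E] {ζ : E}
    (hζ : IsPrimitiveRoot ζ p) {n r j : ℕ}
    (F : MultilinearMap ℤ_[p] (fun _ : Fin r => Fin n → ∀ s, M s) ℚ_[p]) :
    IsTateForm ρ χ j F ↔ (fun v => algebraMap ℚ_[p] E (F v)) ∈
      Submodule.span E {g | IsProd z e ζ g ∧ IsTateE ρ χ j g} := by
  constructor
  · intro hF
    set FE : MultilinearMap ℤ_[p] (fun _ : Fin r => Fin n → ∀ s, M s) E :=
      ((Algebra.linearMap ℚ_[p] E).restrictScalars ℤ_[p]).compMultilinearMap F with hFE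
    have hFEv : ∀ v, FE v = algebraMap ℚ_[p] E (F v) := fun v => rfl
    have h1 : (fun v => FE v) ∈ Submodule.span E {g | IsProd z e ζ g} := by
      refine inv_form hζ hp h.zeta h.inv h.skew (h.nondeg) FE ?_
      intro X hX1 hX2 hX3 v
      have h2 := tate_su hp h hB hL F hF X hX1 hX2 hX3 v
      simp only [hFEv]
      rw [← map_sum, h2, map_zero]
    obtain ⟨U, hU, hU'⟩ := hF
    have h2 := span_eigen (E := E) (X := Fin r → Fin n → ∀ s, M s) (U := U)
      (fun u v i a s => ρ s (u : G) (v i a s)) {g | IsProd z e ζ g}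
      (fun g hg => by
        have h3 := fun u : U => invMain_eigen hp h hζ hg (u : G)
        choose θ hθ using h3
        exact ⟨θ, hθ⟩)
      (fun u => algebraMap ℤ_[p] E ((χ (u : G) : ℤ_[p]) ^ j)) (fun v => FE v) h1
      (fun u v => by
        rw [hFEv, hFEv, hU' u u.2, map_mul, invMain_alg])
    refine Submodule.span_mono ?_ h2
    rintro g ⟨hg1, hg2⟩
    exact ⟨hg1, U, hU, fun γ hγ v => hg2 ⟨γ, hγ⟩ v⟩
  · intro hF
    obtain ⟨U, hU, hU'⟩ := invMain_span (fun g hg => hg.2) hF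
    refine ⟨U, hU, fun g hg v => ?_⟩
    apply (algebraMap ℚ_[p] E).injective
    rw [map_mul, invMain_alg]
    exact hU' g hg v

end Pool.Agent.PTateU
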