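import Pool.Agent.PTateU.Blk

/-!
# Separation of the components
-/

set_option autoImplicit false

noncomputable section

namespace Pool.Agent.PTateU

open Pool.Agent.PTate (Ty Adj ten edg One Fam)

open scoped Classical

section Alg

variable {R A : Type} [CommRing R] [Ring A] [Algebra R A]

/-- the cube of the bracket with a multiple of an idempotent -/
theorem bra_cube {E : A} {τ : R} (hE : E * E = τ • E) (Y : A) :
    E * (E * (E * Y - Y * E) - (E * Y - Y * E) * E) -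
      (E * (E * Y - Y * E) - (E * Y - Y * E) * E) * E = τ ^ 2 • (E * Y - Y * E) := by
  have hE'' : ∀ Y : A, Y * E * E = τ • (Y * E) := by
    intro Y
    rw [mul_assoc, hE, mul_smul_comm]
  simp only [mul_sub, sub_mul, ← mul_assoc, hE, hE'']
  simp only [mul_assoc, hE, smul_mul_assoc, mul_smul_comm, smul_sub, smul_smul, pow_two]
  abel

/-- the path of three edges -/
theorem bra_path {E H G : A} (h1 : E * G = 0) (h2 : G * E = 0) :
    E * (H * G - G * H) - (H * G - G * H) * E = E * H * G + G * H * E := by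
  have h1' : ∀ Y : A, Y * E * G = 0 := fun Y => by rw [mul_assoc, h1, mul_zero]
  have h2' : ∀ Y : A, Y * G * E = 0 := fun Y => by rw [mul_assoc, h2, mul_zero]
  simp only [mul_sub, sub_mul, ← mul_assoc, h1, h2', zero_mul]
  abel

theorem bra_path_sq {E H G : A} {τ : R} (hE : E * E = τ • E) (h1 : E * G = 0) (h2 : G * E = 0) :
    E * (E * (E * H * G + G * H * E) - (E * H * G + G * H * E) * E) -
      (E * (E * H * G + G * H * E) - (E * H * G + G * H * E) * E) * E =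
        τ ^ 2 • (E * H * G + G * H * E) := by
  have h0 : ∀ Y : A, E * (E * Y) = τ • (E * Y) := fun Y => by
    rw [← mul_assoc, hE, smul_mul_assoc]
  have h1' : ∀ Y : A, E * (G * Y) = 0 := fun Y => by rw [← mul_assoc, h1, zero_mul]
  simp only [mul_sub, sub_mul, mul_add, add_mul, mul_assoc, h0, h1, h2, h1', hE, mul_smul_comm,
    smul_mul_assoc, mul_zero, add_zero, zero_add, sub_zero, zero_sub, mul_neg, neg_mul, smul_add,
    smul_smul, pow_two, smul_zero]
  abel

theorem bra_path_mul {E H G : A} {τ υ : R} (hE : E * E = τ • E) (hG : G * G = υ • G)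
    (h1 : E * G = 0) (h2 : G * E = 0) :
    E * (G * (E * H * G + G * H * E) - (E * H * G + G * H * E) * G) -
      (G * (E * H * G + G * H * E) - (E * H * G + G * H * E) * G) * E =
        -(τ * υ) • (E * H * G + G * H * E) := by
  have h0 : ∀ Y : A, E * (E * Y) = τ • (E * Y) := fun Y => by
    rw [← mul_assoc, hE, smul_mul_assoc]
  have h0' : ∀ Y : A, G * (G * Y) = υ • (G * Y) := fun Y => by
    rw [← mul_assoc, hG, smul_mul_assoc]
  have h1' : ∀ Y : A, E * (G * Y) = 0 := fun Y => by rw [← mul_assoc, h1, zero_mul]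
  have h2' : ∀ Y : A, G * (E * Y) = 0 := fun Y => by rw [← mul_assoc, h2, zero_mul]
  simp only [mul_sub, sub_mul, mul_add, add_mul, mul_assoc, h0, h0', h1, h2, h1', h2', hE, hG,
    mul_smul_comm, smul_mul_assoc, mul_zero, add_zero, zero_add, sub_zero, zero_sub, mul_neg,
    neg_mul, smul_add, smul_smul, smul_zero, neg_smul]
  rw [mul_comm υ τ]
  abel

end Alg

variable {F : Type} [Field F] {σ ι : Type} {V : σ → Type} [∀ s, AddCommGroup (V s)]
  [∀ s, Module F (V s)]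

/-- The operators of the edges, changed by scalars. -/
def Edges (T : σ → Finset ι) (m : σ → ι → F) (B : ∀ s, V s →ₗ[F] V s →ₗ[F] F)
    (Q : ∀ s, ι → V s) (κ : σ → ι → ι → F) : Set (∀ s, Module.End F (V s)) :=
  {X | ∃ i j, i ≠ j ∧ X = fun s => edg (B s) (T s) (m s) (Q s) i j - κ s i j • 1}

variable {o : σ → Option ι} {T : σ → Finset ι} {m : σ → ι → F}
  {B : ∀ s, V s →ₗ[F] V s →ₗ[F] F} {Q : ∀ s, ι → V s} {κ : σ → ι → ι → F}

theorem Gen.bra {i j : ι} (hij : i ≠ j) {n : ℕ} {Y : ∀ s, Module.End F (V s)}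
    (hY : Gen (Edges T m B Q κ) n Y) : Gen (Edges T m B Q κ) (1 + n) fun s =>
      edg (B s) (T s) (m s) (Q s) i j * Y s - Y s * edg (B s) (T s) (m s) (Q s) i j := by
  have h1 := Gen.lie 1 n _ Y (Gen.mem (A := Edges T m B Q κ) _ ⟨i, j, hij, rfl⟩) hY
  convert h1 using 1
  funext s
  simp only [Pi.sub_apply, Pi.mul_apply, sub_mul, mul_sub, smul_mul_assoc, mul_smul_comm, one_mul,
    mul_one]
  abel

/-- the bracket of the operators of two edges -/
theorem Gen.bra₂ {i j k l : ι} (hij : i ≠ j) (hkl : k ≠ l) :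
    Gen (Edges T m B Q κ) 2 fun s =>
      edg (B s) (T s) (m s) (Q s) i j * edg (B s) (T s) (m s) (Q s) k l -
        edg (B s) (T s) (m s) (Q s) k l * edg (B s) (T s) (m s) (Q s) i j := by
  have h1 := Gen.bra hij (Gen.mem (A := Edges T m B Q κ) _ ⟨k, l, hkl, rfl⟩)
  convert h1 using 1
  funext s
  simp only [sub_mul, mul_sub, smul_mul_assoc, mul_smul_comm, one_mul, mul_one]
  abel

/-- the components at `s` of the elements of degree `k` -/
private def sep_Gam (A : Set (∀ s, Module.End F (V s))) (s : σ) (k : ℕ) :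
    Submodule F (Module.End F (V s)) where
  carrier := {a | a = 0 ∨ ∃ X, Gen A k X ∧ X s = a}
  add_mem' := by
    rintro a b (rfl | ⟨X, hX, rfl⟩) (rfl | ⟨Y, hY, rfl⟩)
    · exact Or.inl (add_zero 0)
    · exact Or.inr ⟨Y, hY, (zero_add _).symm⟩
    · exact Or.inr ⟨X, hX, (add_zero _).symm⟩
    · exact Or.inr ⟨X + Y, .add k X Y hX hY, rfl⟩
  zero_mem' := Or.inl rfl
  smul_mem' := by
    rintro c a (rfl | ⟨X, hX, rfl⟩)
    · exact Or.inl (smul_zero c)
    · exact Or.inr ⟨c • X, .smul k c X hX, rfl⟩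

private theorem sep_lie (A : Set (∀ s, Module.End F (V s))) (s : σ) (n k : ℕ)
    (X Y : Module.End F (V s)) (hX : X ∈ sep_Gam A s n) (hY : Y ∈ sep_Gam A s k) :
    X * Y - Y * X ∈ sep_Gam A s (n + k) := by
  rcases hX with rfl | ⟨X, hX, rfl⟩ <;> rcases hY with rfl | ⟨Y, hY, rfl⟩
  · exact Or.inl (by simp)
  · exact Or.inl (by simp)
  · exact Or.inl (by simp)
  · exact Or.inr ⟨_, .lie n k X Y hX hY, rfl⟩

theorem single_edges (h2 : (2 : F) ≠ 0) (h : ∀ s, Blk (o s) (T s) (m s) (B s) (Q s))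
    (hκ : ∀ s i j, o s ≠ some i → o s ≠ some j → κ s i j = 0) (s : σ) :
    ∃ k₀, ∀ k, k₀ ≤ k → ∀ a, Ty (B s) k a → LinearMap.trace F (V s) a = 0 →
      ∃ X, Gen (Edges T m B Q κ) k X ∧ X s = a := by
  have key : ∃ (S : Finset ι) (P : ι → V s), (One S (m s) (B s) P fun i j => i ≠ j) ∧
      Fam S (m s) (B s) P (fun i j => i ≠ j) (sep_Gam (Edges T m B Q κ) s) := by
    rcases ho : o s with _ | a
    · have h1 := (h s).none ho
      refine ⟨_, _, h1, ⟨fun i j hij => Or.inr ⟨_, .mem _ ⟨i, j, hij, rfl⟩, ?_⟩, sep_lie _ s⟩⟩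
      rw [hκ s i j (by rw [ho]; simp) (by rw [ho]; simp), zero_smul, sub_zero]
    · obtain ⟨h1, h3, h4⟩ := (h s).some a ho
      refine ⟨_, _, h4, ⟨fun i j hij => ?_, sep_lie _ s⟩⟩
      by_cases hi : i ∈ (T s).erase a ∧ j ∈ (T s).erase a
      · refine Or.inr ⟨_, .mem _ ⟨i, j, hij, rfl⟩, ?_⟩
        have hi' := Finset.mem_erase.1 hi.1
        have hj' := Finset.mem_erase.1 hi.2
        rw [hκ s i j (by rw [ho]; simpa using Ne.symm hi'.1) (by rw [ho]; simpa using Ne.symm hj'.1),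
          zero_smul, sub_zero, edg, edg, if_pos ⟨hi'.2, hj'.2⟩, if_pos hi]
        simp only [sub_sub_sub_cancel_right]
      · rw [edg, if_neg hi]
        exact Or.inl rfl
  obtain ⟨S, P, h1, h3⟩ := key
  obtain ⟨k₀, hk₀⟩ := Pool.Agent.PTate.single h2 h1 h3
  refine ⟨k₀ + 1, fun k hk a ha hta => ?_⟩
  rcases hk₀ k (by omega) a ha hta with h5 | ⟨X, hX, h5⟩
  · obtain ⟨n, rfl⟩ : ∃ n, k = n + 1 := ⟨k - 1, by omega⟩
    exact ⟨0, .zero n, h5.symm⟩
  · exact ⟨X, hX, h5⟩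

theorem blk_big {s : σ} (h : ∀ s, Blk (o s) (T s) (m s) (B s) (Q s))
    (hs : 2 ≤ Module.finrank F (V s)) : 3 ≤ (T s).card ∧ (o s = none ∨ 4 ≤ (T s).card) := by
  have h1 := (h s).finrank
  by_cases ho : o s = none
  · rw [if_pos ho] at h1
    exact ⟨by omega, Or.inl ho⟩
  · rw [if_neg ho] at h1
    exact ⟨by omega, Or.inr (by omega)⟩

/-- different sets of vertices -/
theorem sep_vertex (h2 : (2 : F) ≠ 0) (h : ∀ s, Blk (o s) (T s) (m s) (B s) (Q s)) {s t : σ}
    (hs : 2 ≤ Module.finrank F (V s)) (hst : ¬ T s ⊆ T t) :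
    ∃ n X, Gen (Edges T m B Q κ) n X ∧ X t = 0 ∧ ¬ ∃ c : F, X s = c • 1 := by
  obtain ⟨i, hi, hit⟩ := Finset.not_subset.1 hst
  obtain ⟨h3, h4⟩ := blk_big h hs
  obtain ⟨j, hj, k, hk, hjk⟩ : ∃ j ∈ (T s).erase i, ∃ k ∈ (T s).erase i, j ≠ k := by
    apply Finset.one_lt_card.1
    rw [Finset.card_erase_of_mem hi]
    omega
  rw [Finset.mem_erase] at hj hk
  refine ⟨2, _, Gen.bra₂ (i := j) (j := i) (k := k) (l := i) hj.1 hk.1, ?_, ?_⟩
  · have hz : edg (B t) (T t) (m t) (Q t) j i = 0 := if_neg fun g => hit g.2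
    rw [hz, zero_mul, mul_zero, sub_zero]
  · exact (h s).share h2 hj.2 hi hk.2 hj.1 hk.1 hjk h4

/-- adjacent edges -/
theorem sep_adj (h2 : (2 : F) ≠ 0) (h : ∀ s, Blk (o s) (T s) (m s) (B s) (Q s)) {s t : σ}
    (hs : 2 ≤ Module.finrank F (V s)) {i j k : ι} (hi : i ∈ T s) (hj : j ∈ T s) (hk : k ∈ T s)
    (hij : i ≠ j) (hkj : k ≠ j) (hik : i ≠ k) (hi' : i ∈ T t) (hj' : j ∈ T t) (hk' : k ∈ T t)
    (hne : ((m s i + m s j) * (m t k + m t j)) ^ 2 ≠ ((m t i + m t j) * (m s k + m s j)) ^ 2) :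
    ∃ n X, Gen (Edges T m B Q κ) n X ∧ X t = 0 ∧ ¬ ∃ c : F, X s = c • 1 := by
  obtain ⟨h3, h4⟩ := blk_big h hs
  have gZ : Gen (Edges T m B Q κ) 2 _ := Gen.bra₂ (i := i) (j := j) (k := k) (l := j) hij hkj
  have gZ1 := Gen.smul _ ((m t k + m t j) ^ 2) _ (Gen.bra hij (Gen.bra hij gZ))
  have gZ2 := Gen.smul _ ((m t i + m t j) ^ 2) _ (Gen.bra hkj (Gen.bra hkj gZ))
  have key : ∀ u, i ∈ T u → j ∈ T u → k ∈ T u → _ := fun u (hiu : i ∈ T u) (hju : j ∈ T u)
      (hku : k ∈ T u) => show _ ∧ _ from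
    ⟨bra_cube ((h u).sq hiu hju hij) (edg (B u) (T u) (m u) (Q u) k j),
      bra_cube ((h u).sq hku hju hkj) (-edg (B u) (T u) (m u) (Q u) i j)⟩
  have key2 : ∀ u, i ∈ T u → j ∈ T u → k ∈ T u → ∀ α β : F,
      (let Ei := edg (B u) (T u) (m u) (Q u) i j
       let Ek := edg (B u) (T u) (m u) (Q u) k j
       let Z := Ei * Ek - Ek * Ei
       α • (Ei * (Ei * Z - Z * Ei) - (Ei * Z - Z * Ei) * Ei) -
         β • (Ek * (Ek * Z - Z * Ek) - (Ek * Z - Z * Ek) * Ek) =
         (α * (m u i + m u j) ^ 2 - β * (m u k + m u j) ^ 2) • Z) := by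
    intro u hiu hju hku α β Ei Ek Z
    obtain ⟨e1, e2⟩ := key u hiu hju hku
    have e3 : Ek * -Ei - -Ei * Ek = Z := by
      simp only [Z, mul_neg, neg_mul]
      abel
    rw [e3] at e2
    rw [e1, e2, smul_smul, smul_smul, ← sub_smul]
  refine ⟨_, _, gZ1.sub gZ2, ?_, ?_⟩
  · have e := key2 t hi' hj' hk' ((m t k + m t j) ^ 2) ((m t i + m t j) ^ 2)
    rw [show (m t k + m t j) ^ 2 * (m t i + m t j) ^ 2 -
      (m t i + m t j) ^ 2 * (m t k + m t j) ^ 2 = 0 by ring] at e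
    simp only [zero_smul] at e
    exact e
  · rintro ⟨c, hc⟩
    have e := key2 s hi hj hk ((m t k + m t j) ^ 2) ((m t i + m t j) ^ 2)
    have hc' := e.symm.trans hc
    have hne0 : (m t k + m t j) ^ 2 * (m s i + m s j) ^ 2 -
        (m t i + m t j) ^ 2 * (m s k + m s j) ^ 2 ≠ 0 := by
      intro h0
      apply hne
      linear_combination h0
    refine (h s).share h2 hi hj hk hij hkj hik h4 ⟨((m t k + m t j) ^ 2 * (m s i + m s j) ^ 2 -
        (m t i + m t j) ^ 2 * (m s k + m s j) ^ 2)⁻¹ * c, ?_⟩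
    rw [← smul_smul, ← hc', smul_smul, inv_mul_cancel₀ hne0, one_smul]

/-- disjoint edges -/
theorem sep_disj (h : ∀ s, Blk (o s) (T s) (m s) (B s) (Q s)) {s t : σ}
    {i j k l : ι} (hi : i ∈ T s) (hj : j ∈ T s) (hk : k ∈ T s) (hl : l ∈ T s)
    (hij : i ≠ j) (hkl : k ≠ l) (hik : i ≠ k) (hil : i ≠ l) (hjk : j ≠ k) (hjl : j ≠ l)
    (hi' : i ∈ T t) (hj' : j ∈ T t) (hk' : k ∈ T t) (hl' : l ∈ T t)
    (hne : (m s i + m s j) * (m t k + m t l) ≠ (m t i + m t j) * (m s k + m s l))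
    (h0 : m s i + m s j ≠ 0) :
    ∃ n X, Gen (Edges T m B Q κ) n X ∧ X t = 0 ∧ ¬ ∃ c : F, X s = c • 1 := by
  have gW : Gen (Edges T m B Q κ) (1 + 2) _ := Gen.bra hij (Gen.bra₂ (i := j) (j := k) (k := k) (l := l) hjk hkl)
  have gW1 := Gen.smul _ (m t k + m t l) _ (Gen.bra hij (Gen.bra hij gW))
  have gW2 := Gen.smul _ (m t i + m t j) _ (Gen.bra hij (Gen.bra hkl gW))
  have key : ∀ u, i ∈ T u → j ∈ T u → k ∈ T u → l ∈ T u → ∀ α β : F,
      (let E := edg (B u) (T u) (m u) (Q u) i j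
       let H := edg (B u) (T u) (m u) (Q u) j k
       let G := edg (B u) (T u) (m u) (Q u) k l
       let W := E * (H * G - G * H) - (H * G - G * H) * E
       α • (E * (E * W - W * E) - (E * W - W * E) * E) +
         β • (E * (G * W - W * G) - (G * W - W * G) * E) =
         ((m u i + m u j) * (α * (m u i + m u j) - β * (m u k + m u l))) •
           (E * H * G + G * H * E)) := by
    intro u hiu hju hku hlu α β E H G W
    have e1 : E * E = (m u i + m u j) • E := (h u).sq hiu hju hij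
    have e2 : G * G = (m u k + m u l) • G := (h u).sq hku hlu hkl
    have e3 : E * G = 0 := (h u).disj hik hil hjk hjl
    have e4 : G * E = 0 := (h u).disj hik.symm hjk.symm hil.symm hjl.symm
    have e5 : W = E * H * G + G * H * E := bra_path e3 e4
    rw [e5, bra_path_sq e1 e3 e4, bra_path_mul e1 e2 e3 e4, smul_smul, smul_smul, ← add_smul]
    congr 1
    ring
  refine ⟨_, _, gW1.add _ _ _ gW2, ?_, ?_⟩
  · have e := key t hi' hj' hk' hl' (m t k + m t l) (m t i + m t j)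
    rw [show (m t i + m t j) * ((m t k + m t l) * (m t i + m t j) -
      (m t i + m t j) * (m t k + m t l)) = 0 by ring] at e
    simp only [zero_smul] at e
    exact e
  · rintro ⟨c, hc⟩
    have e := key s hi hj hk hl (m t k + m t l) (m t i + m t j)
    have hc' := e.symm.trans hc
    have hne0 : (m s i + m s j) * ((m t k + m t l) * (m s i + m s j) -
        (m t i + m t j) * (m s k + m s l)) ≠ 0 := by
      refine mul_ne_zero h0 fun h1 => hne ?_
      linear_combination h1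
    refine (h s).path hi hj hk hl hij hkl hik hil hjk hjl (Or.inl h0)
      ⟨((m s i + m s j) * ((m t k + m t l) * (m s i + m s j) -
        (m t i + m t j) * (m s k + m s l)))⁻¹ * c, ?_⟩
    rw [← smul_smul, ← hc', smul_smul, inv_mul_cancel₀ hne0, one_smul]

/-- disjoint edges -/
theorem sep_disj' (h : ∀ s, Blk (o s) (T s) (m s) (B s) (Q s)) {s t : σ}
    {i j k l : ι} (hi : i ∈ T s) (hj : j ∈ T s) (hk : k ∈ T s) (hl : l ∈ T s)
    (hij : i ≠ j) (hkl : k ≠ l) (hik : i ≠ k) (hil : i ≠ l) (hjk : j ≠ k) (hjl : j ≠ l)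
    (hi' : i ∈ T t) (hj' : j ∈ T t) (hk' : k ∈ T t) (hl' : l ∈ T t)
    (hne : (m s i + m s j) * (m t k + m t l) ≠ (m t i + m t j) * (m s k + m s l)) :
    ∃ n X, Gen (Edges T m B Q κ) n X ∧ X t = 0 ∧ ¬ ∃ c : F, X s = c • 1 := by
  by_cases h0 : m s i + m s j = 0
  · have h1 : m s k + m s l ≠ 0 := by
      intro h1
      rw [h0, h1, zero_mul, mul_zero] at hne
      exact hne rfl
    refine sep_disj h hk hl hi hj hkl hij hik.symm hjk.symm hil.symm hjl.symm hk' hl' hi' hj' ?_ h1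
    intro h3
    apply hne
    linear_combination -h3
  · exact sep_disj h hi hj hk hl hij hkl hik hil hjk hjl hi' hj' hk' hl' hne h0

end Pool.Agent.PTateU
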